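import Pool.Agent.H.MP_b3c6db_nt.NK.Defs

/-! The first order terms.

PROOF of `bij_sum`. The pairs `(S0, p)`, `S0 ∈ SS`, `S0 ⊆ S`, `p ∈ S ∖ S0`, `p ∈ IS P Q S0`, correspond to the sets `T = insert p S0`: `T ⊆ S`,
`T` nonempty, `nS T = nS S0 * p ≤ P`, `p = max T`. Inverse: `S0 = T.erase (T.max')`, `p = T.max'`; then `nS S0 * Z ≤ nS S0 * p ≤ P` since
`p ∈ Q` is larger than `Z`. `((S ∖ S0) ∩ IS).erase p ∪ ((S ∖ S0) ∖ IS) = S ∖ T`. (`Finset.sum_sigma'` and `Finset.sum_bij'` / `sum_nbij'`.)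
`QQ_gt`: `⌊Z⌋₊ < p` gives `Z < p` (`Nat.lt_of_floor_lt`). `card_of_nS`: every element of `T ⊆ QQ Z P` is `> Z`, so `Z^(#T) ≤ nS T`. -/

set_option autoImplicit false

namespace Pool.Agent.H.MP_b3c6db_nt

open Finset

lemma QQ_gt (Z P : ℝ) (p : ℕ) (hp : p ∈ QQ Z P) : p.Prime ∧ Z < p := by
  have h1 := mem_filter.1 hp
  exact ⟨h1.2, Nat.lt_of_floor_lt (mem_Ioc.1 h1.1).1⟩

lemma QQ_le (Z P : ℝ) (hP : 0 ≤ P) (p : ℕ) (hp : p ∈ QQ Z P) : (p : ℝ) ≤ P := by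
  have h1 := mem_filter.1 hp
  exact (Nat.le_floor_iff hP).1 (mem_Ioc.1 h1.1).2

lemma pow_card_le_nS (Z P : ℝ) (hZ : 0 ≤ Z) (T : Finset ℕ) (hT : T ⊆ QQ Z P) :
    Z ^ T.card ≤ nS T := by
  unfold nS
  rw [← prod_const]
  exact prod_le_prod (fun _ _ => hZ) fun p hp => (QQ_gt Z P p (hT hp)).2.le

private lemma NKBij_fac {A : Finset ℕ} {φ : ℕ → Prop} [DecidablePred φ] (g : ℕ → ℂ) {p : ℕ}
    (hφ : φ p) :
    (∏ q ∈ (A.filter φ).erase p, g q) * ∏ q ∈ A.filter (fun q => ¬ φ q), g q =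
      ∏ q ∈ A.erase p, g q := by
  rw [← prod_filter_mul_prod_filter_not (A.erase p) φ g]
  congr 1
  · refine prod_congr ?_ fun _ _ => rfl
    ext q
    simp only [mem_erase, mem_filter]
    tauto
  · refine prod_congr ?_ fun _ _ => rfl
    ext q
    simp only [mem_erase, mem_filter]
    constructor
    · rintro ⟨h1, h2⟩
      exact ⟨⟨fun h => h2 (h ▸ hφ), h1⟩, h2⟩
    · rintro ⟨⟨-, h1⟩, h2⟩
      exact ⟨h1, h2⟩

theorem bij_sum (Z P : ℝ) (hZ : 1 ≤ Z) (g a : ℕ → ℂ) (S : Finset ℕ) (hS : S ⊆ QQ Z P) :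
    ∑ S0 ∈ (SS Z P (QQ Z P)).filter (fun S0 => S0 ⊆ S), (∏ p ∈ S0, a p) *
      ∑ p ∈ (S \ S0).filter (fun p => p ∈ IS P (QQ Z P) S0),
        a p * (∏ q ∈ ((S \ S0).filter (fun p => p ∈ IS P (QQ Z P) S0)).erase p, g q) *
          ∏ q ∈ (S \ S0).filter (fun p => p ∉ IS P (QQ Z P) S0), g q =
      ∑ T ∈ S.powerset.filter (fun T => T.Nonempty ∧ nS T ≤ P),
        (∏ p ∈ T, a p) * ∏ p ∈ S \ T, g p := by
  have e1 : ∀ S0 ∈ (SS Z P (QQ Z P)).filter (fun S0 => S0 ⊆ S), (∏ p ∈ S0, a p) *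
      ∑ p ∈ (S \ S0).filter (fun p => p ∈ IS P (QQ Z P) S0),
        a p * (∏ q ∈ ((S \ S0).filter (fun p => p ∈ IS P (QQ Z P) S0)).erase p, g q) *
          ∏ q ∈ (S \ S0).filter (fun p => p ∉ IS P (QQ Z P) S0), g q =
      ∑ p ∈ (S \ S0).filter (fun p => p ∈ IS P (QQ Z P) S0),
        (∏ q ∈ insert p S0, a q) * ∏ q ∈ S \ insert p S0, g q := by
    intro S0 _
    rw [mul_sum]
    refine sum_congr rfl fun p hp => ?_
    have h1 := mem_filter.1 hp
    have h2 : p ∉ S0 := (mem_sdiff.1 h1.1).2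
    have h3 := NKBij_fac (A := S \ S0) (φ := fun p => p ∈ IS P (QQ Z P) S0) g h1.2
    have h4 : S \ insert p S0 = (S \ S0).erase p := by
      ext q
      simp only [mem_sdiff, mem_insert, mem_erase]
      tauto
    rw [prod_insert h2, h4, ← h3]
    ring
  rw [sum_congr rfl e1, sum_sigma']
  refine sum_bij' (fun x _ => insert x.2 x.1) (fun T _ => ⟨T.erase (T.sup id), T.sup id⟩)
    ?_ ?_ ?_ ?_ ?_
  · rintro ⟨S0, p⟩ hx
    obtain ⟨h1, h2⟩ := mem_sigma.1 hx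
    simp only at h1 h2
    have h3 := mem_filter.1 h1
    have h4 := mem_filter.1 h2
    have h5 := mem_sdiff.1 h4.1
    have h6 := (mem_filter.1 h4.2).2
    refine mem_filter.2 ⟨mem_powerset.2 (insert_subset h5.1 h3.2), insert_nonempty _ _, ?_⟩
    show nS (insert p S0) ≤ P
    unfold nS
    rw [prod_insert h5.2, mul_comm]
    exact h6.2
  · intro T hT
    obtain ⟨h1, h2, h3⟩ := mem_filter.1 hT
    rw [mem_powerset] at h1
    obtain ⟨m, hm, hme⟩ := exists_mem_eq_sup T h2 id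
    have hme' : T.sup id = m := hme
    have hle : ∀ s ∈ T, s ≤ m := fun s hs => by
      rw [← hme']
      exact le_sup (f := id) hs
    have hnS : nS (T.erase m) * m = nS T := by
      unfold nS
      exact prod_erase_mul T (fun p => (p : ℝ)) hm
    have hn0 : 0 ≤ nS (T.erase m) := by
      unfold nS
      exact prod_nonneg fun p _ => Nat.cast_nonneg p
    have hmZ := (QQ_gt Z P m (hS (h1 hm))).2
    rw [hme']
    refine mem_sigma.2 ⟨mem_filter.2 ⟨mem_filter.2 ⟨mem_powerset.2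
      ((erase_subset m T).trans (h1.trans hS)), ?_⟩, (erase_subset m T).trans h1⟩,
      mem_filter.2 ⟨mem_sdiff.2 ⟨h1 hm, notMem_erase m T⟩, mem_filter.2 ⟨hS (h1 hm), ?_, ?_⟩⟩⟩
    · refine le_trans ?_ h3
      rw [← hnS]
      exact mul_le_mul_of_nonneg_left hmZ.le hn0
    · intro s hs
      exact lt_of_le_of_ne (hle s (mem_of_mem_erase hs)) (ne_of_mem_erase hs)
    · show nS (T.erase m) * m ≤ P
      rw [hnS]
      exact h3
  · rintro ⟨S0, p⟩ hx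
    obtain ⟨h1, h2⟩ := mem_sigma.1 hx
    simp only at h1 h2
    have h4 := mem_filter.1 h2
    have h5 := mem_sdiff.1 h4.1
    have h6 := (mem_filter.1 h4.2).2
    have h7 : (insert p S0).sup id = p := by
      rw [sup_insert]
      exact sup_eq_left.2 (Finset.sup_le fun s hs => (h6.1 s hs).le)
    simp only
    rw [h7, erase_insert h5.2]
  · intro T hT
    obtain ⟨h1, h2, h3⟩ := mem_filter.1 hT
    obtain ⟨m, hm, hme⟩ := exists_mem_eq_sup T h2 id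
    have hme' : T.sup id = m := hme
    simp only
    rw [hme', insert_erase hm]
  · rintro ⟨S0, p⟩ _
    rfl

end Pool.Agent.H.MP_b3c6db_nt
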