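import Pool.Agent.H.MP_b3c6db_nt.NL.FacL
import Pool.Agent.H.MP_b3c6db_nt.NC.WtB
import Pool.Agent.H.MP_b3c6db_nt.NC.XDef

/-! Laws with a parameter `θ_p` at each large prime. -/

set_option autoImplicit false

namespace Pool.Agent.H.MP_b3c6db_nt

open Finset

/-- the primes `Z < p ≤ P` -/
noncomputable def QQ (Z P : ℝ) : Finset ℕ := (Ioc ⌊Z⌋₊ ⌊P⌋₊).filter Nat.Prime

noncomputable def cth (x θ : ℕ → ℝ) (p d : ℕ) : ℝ :=
  if p ∣ d then θ p else (1 - θ p * x p) / (1 - x p)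

/-- the law with density `∏ cth` over the weights `ww` -/
noncomputable def wth (x : ℕ → ℝ) (N : ℕ) (Q : Finset ℕ) (θ : ℕ → ℝ) (d : ℕ) : ℝ :=
  ww x N d * ∏ p ∈ Q, cth x θ p d

/-- the product of the elements -/
noncomputable def nS (S : Finset ℕ) : ℝ := ∏ p ∈ S, (p : ℝ)

/-- the primes `p ∈ Q` above all elements of `S` with `nS S * p ≤ P` -/
noncomputable def IS (P : ℝ) (Q S : Finset ℕ) : Finset ℕ :=
  Q.filter (fun p => (∀ s ∈ S, s < p) ∧ nS S * p ≤ P)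

/-- the index sets -/
noncomputable def SS (Z P : ℝ) (Q : Finset ℕ) : Finset (Finset ℕ) :=
  Q.powerset.filter (fun S => nS S * Z ≤ P)

noncomputable def tau (P y : ℝ) (S : Finset ℕ) : ℝ := Real.sqrt (P / nS S) / y

/-- the parameters: `1/x` on `R`, `b / tau` on `IS S`, `0` elsewhere -/
noncomputable def tht (x : ℕ → ℝ) (P y : ℝ) (Q S R : Finset ℕ) (b : ℝ) (p : ℕ) : ℝ :=
  if p ∈ R then 1 / x p else if p ∈ IS P Q S then b / tau P y S else 0

end Pool.Agent.H.MP_b3c6db_nt
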