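import Mathlib

/-! The second order remainder of a product.

PROOF of `errB`. Let `U = U1 ∪ U2` (disjoint), `m = #U`, `τ ≥ c ≥ 1`. Expanding (`Finset.prod_add`), the left side without norm is
`∑_{T ⊆ U1, 2 ≤ #T} τ^(1 - #T) ∏_T a ∏_{U ∖ T} g`, so the norm is at most
`∑_T τ^(1-#T) c^(#T) 2^(m-#T) / ∏_U √p ≤ (c^2/τ) ∑_{T ⊆ U} 2^(m-#T) / ∏_U √p = (c^2/τ) 3^m / ∏_U √p` (`(c/τ)^(#T-2) ≤ 1`; binomial
`∑_{T ⊆ U} 2^(m-#T) = 3^m`). An induction on `U1` is also possible: prove for the remainder `E(U1)` (`U2 = ∅` first, the product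
over `U2` factors out) `E(U1 ∪ p) = g p E(U1) + a p (∏_{U1} (g + a/τ) - ∏_{U1} g)` and `‖∏_{U1}(g + a/τ) - ∏ g‖ ≤ (c/τ) 3^(#U1)/∏ √p`,
`‖∏_{U1}(g+a/τ)‖ ≤ 3^(#U1)/∏√p`; then the constants close: `2 c^2/τ 3^k + c * (c/τ) 3^k = 3^(k+1) c^2/τ`.
`errB_zero`: for `#U1 ≤ 1` both sides of the difference agree. -/

set_option autoImplicit false

namespace Pool.Agent.H.MP_b3c6db_nt

open Finset

private noncomputable def NKErr1_E (g a : ℕ → ℂ) (τ : ℝ) (U : Finset ℕ) : ℂ :=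
  (τ : ℂ) * (∏ p ∈ U, (g p + a p / (τ : ℂ)) - ∏ p ∈ U, g p) -
    ∑ p ∈ U, a p * ∏ q ∈ U.erase p, g q

private theorem NKErr1_empty (g a : ℕ → ℂ) (τ : ℝ) : NKErr1_E g a τ ∅ = 0 := by
  simp [NKErr1_E]

private theorem NKErr1_insert (g a : ℕ → ℂ) {τ : ℝ} (hτ : τ ≠ 0) {p : ℕ} {U : Finset ℕ}
    (hpU : p ∉ U) : NKErr1_E g a τ (insert p U) = g p * NKErr1_E g a τ U +
      a p * (∏ q ∈ U, (g q + a q / (τ : ℂ)) - ∏ q ∈ U, g q) := by
  have hτ' : (τ : ℂ) ≠ 0 := Complex.ofReal_ne_zero.2 hτ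
  have h1 : ∑ q ∈ U, a q * ∏ r ∈ (insert p U).erase q, g r =
      g p * ∑ q ∈ U, a q * ∏ r ∈ U.erase q, g r := by
    rw [Finset.mul_sum]
    refine Finset.sum_congr rfl fun q hq => ?_
    have hne : p ≠ q := fun h => hpU (h ▸ hq)
    rw [Finset.erase_insert_of_ne hne, Finset.prod_insert]
    · ring
    · exact fun h => hpU (Finset.mem_of_mem_erase h)
  unfold NKErr1_E
  rw [Finset.prod_insert hpU, Finset.prod_insert hpU, Finset.sum_insert hpU,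
    Finset.erase_insert hpU, h1]
  have h2 : (τ : ℂ) * (a p / (τ : ℂ)) = a p := by field_simp
  linear_combination (∏ q ∈ U, (g q + a q / (τ : ℂ))) * h2

private theorem NKErr1_bounds {g a : ℕ → ℂ} {c τ : ℝ} (hc : 2 ≤ c) (hτ : c ≤ τ) (U : Finset ℕ)
    (hp : ∀ p ∈ U, 1 ≤ p) (hg : ∀ p ∈ U, ‖g p‖ ≤ 2 / Real.sqrt p)
    (ha : ∀ p ∈ U, ‖a p‖ ≤ c / Real.sqrt p) :
    ‖∏ p ∈ U, (g p + a p / (τ : ℂ))‖ ≤ ∏ p ∈ U, (3 / Real.sqrt p) ∧
    ‖∏ p ∈ U, (g p + a p / (τ : ℂ)) - ∏ p ∈ U, g p‖ ≤ c / τ * ∏ p ∈ U, (3 / Real.sqrt p) ∧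
    ‖NKErr1_E g a τ U‖ ≤ c ^ 2 / τ * ∏ p ∈ U, (3 / Real.sqrt p) := by
  have hc0 : 0 < c := by linarith
  have hτ0 : 0 < τ := by linarith
  induction U using Finset.induction_on with
  | empty =>
    rw [NKErr1_empty]
    simp only [Finset.prod_empty, norm_one, sub_self, norm_zero, mul_one]
    refine ⟨le_rfl, by positivity, by positivity⟩
  | insert p U hpU ih =>
    obtain ⟨i1, i2, i3⟩ := ih (fun q hq => hp q (Finset.mem_insert_of_mem hq))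
      (fun q hq => hg q (Finset.mem_insert_of_mem hq))
      (fun q hq => ha q (Finset.mem_insert_of_mem hq))
    have g1 := hg p (Finset.mem_insert_self p U)
    have a1 := ha p (Finset.mem_insert_self p U)
    have p1 := hp p (Finset.mem_insert_self p U)
    have hs : 0 < Real.sqrt (p : ℝ) := Real.sqrt_pos.2 (by exact_mod_cast p1)
    have hR : 0 ≤ ∏ q ∈ U, (3 / Real.sqrt (q : ℝ)) :=
      Finset.prod_nonneg fun q _ => div_nonneg (by norm_num) (Real.sqrt_nonneg _)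
    have hct : c / τ ≤ 1 := (div_le_one hτ0).2 hτ
    have hct0 : 0 ≤ c / τ := by positivity
    have nt : ‖(τ : ℂ)‖ = τ := by
      rw [Complex.norm_real, Real.norm_eq_abs, abs_of_pos hτ0]
    have at1 : ‖a p / (τ : ℂ)‖ ≤ c / τ / Real.sqrt p := by
      rw [norm_div, nt, div_right_comm]
      exact div_le_div_of_nonneg_right a1 hτ0.le
    have h3 : 3 / Real.sqrt (p : ℝ) = 2 / Real.sqrt p + 1 / Real.sqrt p := by ring
    have at2 : ‖a p / (τ : ℂ)‖ ≤ 1 / Real.sqrt p :=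
      at1.trans (div_le_div_of_nonneg_right hct hs.le)
    rw [Finset.prod_insert hpU, Finset.prod_insert hpU, Finset.prod_insert hpU]
    refine ⟨?_, ?_, ?_⟩
    · rw [norm_mul]
      refine mul_le_mul ?_ i1 (norm_nonneg _) (by positivity)
      rw [h3]
      exact (norm_add_le _ _).trans (add_le_add g1 at2)
    · have e : (g p + a p / (τ : ℂ)) * ∏ q ∈ U, (g q + a q / (τ : ℂ)) - g p * ∏ q ∈ U, g q =
          g p * (∏ q ∈ U, (g q + a q / (τ : ℂ)) - ∏ q ∈ U, g q) +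
            a p / (τ : ℂ) * ∏ q ∈ U, (g q + a q / (τ : ℂ)) := by ring
      rw [e]
      calc ‖_ + _‖ ≤ ‖g p‖ * ‖∏ q ∈ U, (g q + a q / (τ : ℂ)) - ∏ q ∈ U, g q‖ +
            ‖a p / (τ : ℂ)‖ * ‖∏ q ∈ U, (g q + a q / (τ : ℂ))‖ := by
            rw [← norm_mul, ← norm_mul]
            exact norm_add_le _ _
        _ ≤ 2 / Real.sqrt p * (c / τ * ∏ q ∈ U, (3 / Real.sqrt q)) +
            c / τ / Real.sqrt p * ∏ q ∈ U, (3 / Real.sqrt q) :=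
            add_le_add (mul_le_mul g1 i2 (norm_nonneg _) (by positivity))
              (mul_le_mul at1 i1 (norm_nonneg _) (by positivity))
        _ = c / τ * (3 / Real.sqrt p * ∏ q ∈ U, (3 / Real.sqrt q)) := by ring
    · rw [NKErr1_insert g a hτ0.ne' hpU]
      calc ‖_ + _‖ ≤ ‖g p‖ * ‖NKErr1_E g a τ U‖ +
            ‖a p‖ * ‖∏ q ∈ U, (g q + a q / (τ : ℂ)) - ∏ q ∈ U, g q‖ := by
            rw [← norm_mul, ← norm_mul]
            exact norm_add_le _ _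
        _ ≤ 2 / Real.sqrt p * (c ^ 2 / τ * ∏ q ∈ U, (3 / Real.sqrt q)) +
            c / Real.sqrt p * (c / τ * ∏ q ∈ U, (3 / Real.sqrt q)) :=
            add_le_add (mul_le_mul g1 i3 (norm_nonneg _) (by positivity))
              (mul_le_mul a1 i2 (norm_nonneg _) (by positivity))
        _ = c ^ 2 / τ * (3 / Real.sqrt p * ∏ q ∈ U, (3 / Real.sqrt q)) := by ring

private theorem NKErr1_eq (U1 U2 : Finset ℕ) (g a : ℕ → ℂ) (τ : ℝ) :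
    (τ : ℂ) * ((∏ p ∈ U1, (g p + a p / (τ : ℂ))) * ∏ p ∈ U2, g p -
        (∏ p ∈ U1, g p) * ∏ p ∈ U2, g p) -
      ∑ p ∈ U1, a p * (∏ q ∈ U1.erase p, g q) * ∏ q ∈ U2, g q =
      NKErr1_E g a τ U1 * ∏ p ∈ U2, g p := by
  unfold NKErr1_E
  rw [← Finset.sum_mul]
  ring

theorem errB (U1 U2 : Finset ℕ) (hd : Disjoint U1 U2) (g a : ℕ → ℂ) (c τ : ℝ) (hc : 2 ≤ c)
    (hτ : c ≤ τ) (hp : ∀ p ∈ U1 ∪ U2, 1 ≤ p) (hg : ∀ p ∈ U1 ∪ U2, ‖g p‖ ≤ 2 / Real.sqrt p)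
    (ha : ∀ p ∈ U1, ‖a p‖ ≤ c / Real.sqrt p) :
    ‖(τ : ℂ) * ((∏ p ∈ U1, (g p + a p / (τ : ℂ))) * ∏ p ∈ U2, g p -
        (∏ p ∈ U1, g p) * ∏ p ∈ U2, g p) -
      ∑ p ∈ U1, a p * (∏ q ∈ U1.erase p, g q) * ∏ q ∈ U2, g q‖ ≤
      c ^ 2 / τ * 3 ^ (U1 ∪ U2).card / ∏ p ∈ U1 ∪ U2, Real.sqrt p := by
  have hτ0 : 0 < τ := by linarith
  obtain ⟨-, -, h3⟩ := NKErr1_bounds (g := g) (a := a) hc hτ U1
    (fun p h => hp p (Finset.mem_union_left _ h)) (fun p h => hg p (Finset.mem_union_left _ h)) ha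
  have h4 : ‖∏ p ∈ U2, g p‖ ≤ ∏ p ∈ U2, (3 / Real.sqrt p) := by
    rw [norm_prod]
    refine Finset.prod_le_prod (fun p _ => norm_nonneg _) fun p h => ?_
    refine (hg p (Finset.mem_union_right _ h)).trans ?_
    exact div_le_div_of_nonneg_right (by norm_num) (Real.sqrt_nonneg _)
  have h5 : c ^ 2 / τ * 3 ^ (U1 ∪ U2).card / ∏ p ∈ U1 ∪ U2, Real.sqrt (p : ℝ) =
      c ^ 2 / τ * (∏ p ∈ U1, (3 / Real.sqrt (p : ℝ))) * ∏ p ∈ U2, (3 / Real.sqrt (p : ℝ)) := by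
    have h6 : ∏ p ∈ U1 ∪ U2, (3 / Real.sqrt (p : ℝ)) =
        (3 : ℝ) ^ (U1 ∪ U2).card / ∏ p ∈ U1 ∪ U2, Real.sqrt (p : ℝ) := by
      rw [Finset.prod_div_distrib, Finset.prod_const]
    rw [mul_div_assoc, ← h6, Finset.prod_union hd, mul_assoc]
  rw [NKErr1_eq, norm_mul, h5]
  refine mul_le_mul h3 h4 (norm_nonneg _) ?_
  have hR : 0 ≤ ∏ q ∈ U1, (3 / Real.sqrt (q : ℝ)) :=
    Finset.prod_nonneg fun q _ => div_nonneg (by norm_num) (Real.sqrt_nonneg _)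
  positivity

theorem errB_zero (U1 U2 : Finset ℕ) (g a : ℕ → ℂ) (τ : ℝ) (hτ : 0 < τ) (h1 : U1.card ≤ 1) :
    (τ : ℂ) * ((∏ p ∈ U1, (g p + a p / (τ : ℂ))) * ∏ p ∈ U2, g p -
        (∏ p ∈ U1, g p) * ∏ p ∈ U2, g p) -
      ∑ p ∈ U1, a p * (∏ q ∈ U1.erase p, g q) * ∏ q ∈ U2, g q = 0 := by
  rw [NKErr1_eq]
  have h2 : NKErr1_E g a τ U1 = 0 := by
    rcases Nat.lt_or_ge 0 U1.card with h | h
    · obtain ⟨p, rfl⟩ := Finset.card_eq_one.1 (by omega : U1.card = 1)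
      have h3 := NKErr1_insert g a hτ.ne' (Finset.notMem_empty p)
      rw [NKErr1_empty, Finset.prod_empty, Finset.prod_empty, sub_self, mul_zero, mul_zero,
        add_zero] at h3
      exact h3
    · rw [Finset.card_eq_zero.1 (by omega : U1.card = 0)]
      exact NKErr1_empty g a τ
  rw [h2, zero_mul]

end Pool.Agent.H.MP_b3c6db_nt
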