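import Pool.Agent.H.MP_b3c6db_nt.NK.Defs

/-! The functional applied to a product.

PROOF of `fun_eval`. Fix `S0 ∈ SS`. For `p ∈ S ∩ S0`: `tht` is `1/x p` if `p ∈ R` and `0` otherwise (`p ∈ S0` is not in `IS P Q S0`, because
`s < p` fails for `s = p`). For `p ∈ S`, `p ∉ S0`: `p ∉ R`, and `tht` is `b/τ` if `p ∈ IS`, `0` otherwise, for every `R ⊆ S0`. So the inner sum is
`(∑_{R ⊆ S0} (-1)^(#(S0 ∖ R)) ∏_{p ∈ S ∩ S0} (g p + [p ∈ R] a p/x p)) * (∏_{S ∖ S0} (..1..) - ∏_{S ∖ S0} g)`, and the first bracket is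
`∏_{p ∈ S0} ((g p + a p/x p) - g p or 1 - 1 if p ∉ S)` (`Finset.prod_add` / `prod_sub_ordered`, or induction on `S0`: split the powerset at
one element), that is `∏_{S0} a/x` if `S0 ⊆ S` and `0` otherwise. Multiply by `τ ∏_{S0} x`. -/

set_option autoImplicit false

namespace Pool.Agent.H.MP_b3c6db_nt

open Finset

/-- the value of the functional on the product over `S` -/
noncomputable def VF (Z P y : ℝ) (Q : Finset ℕ) (g a : ℕ → ℂ) (S : Finset ℕ) : ℂ :=
  ∏ p ∈ S, g p + ∑ S0 ∈ (SS Z P Q).filter (fun S0 => S0 ⊆ S),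
    ((tau P y S0 : ℝ) : ℂ) * (∏ p ∈ S0, a p) *
      ((∏ p ∈ (S \ S0).filter (fun p => p ∈ IS P Q S0), (g p + a p / ((tau P y S0 : ℝ) : ℂ))) *
          ∏ p ∈ (S \ S0).filter (fun p => p ∉ IS P Q S0), g p -
        (∏ p ∈ (S \ S0).filter (fun p => p ∈ IS P Q S0), g p) *
          ∏ p ∈ (S \ S0).filter (fun p => p ∉ IS P Q S0), g p)

private theorem NKFun_comb (S S0 : Finset ℕ) (g u : ℕ → ℂ) :
    ∑ R ∈ S0.powerset, (-1 : ℂ) ^ (S0 \ R).card *
      ∏ p ∈ S0, (if p ∈ S then (if p ∈ R then g p + u p else g p) else 1) =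
    if S0 ⊆ S then ∏ p ∈ S0, u p else 0 := by
  have h1 : ∀ R ∈ S0.powerset, (-1 : ℂ) ^ (S0 \ R).card *
      ∏ p ∈ S0, (if p ∈ S then (if p ∈ R then g p + u p else g p) else 1) =
      (∏ p ∈ R, (if p ∈ S then g p + u p else 1)) *
        ∏ p ∈ S0 \ R, ((-1 : ℂ) * (if p ∈ S then g p else 1)) := by
    intro R hR
    rw [Finset.mem_powerset] at hR
    rw [← Finset.prod_sdiff hR, Finset.prod_mul_distrib, Finset.prod_const]
    have h2 : ∏ p ∈ S0 \ R, (if p ∈ S then (if p ∈ R then g p + u p else g p) else 1) =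
        ∏ p ∈ S0 \ R, (if p ∈ S then g p else 1) := by
      refine Finset.prod_congr rfl fun p hp => ?_
      rw [if_neg (Finset.mem_sdiff.1 hp).2]
    have h3 : ∏ p ∈ R, (if p ∈ S then (if p ∈ R then g p + u p else g p) else 1) =
        ∏ p ∈ R, (if p ∈ S then g p + u p else 1) := by
      refine Finset.prod_congr rfl fun p hp => ?_
      rw [if_pos hp]
    rw [h2, h3]
    ring
  rw [Finset.sum_congr rfl h1, ← Finset.prod_add]
  split_ifs with h
  · refine Finset.prod_congr rfl fun p hp => ?_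
    rw [if_pos (h hp), if_pos (h hp)]
    ring
  · obtain ⟨p, hp, hpS⟩ := Finset.not_subset.1 h
    refine Finset.prod_eq_zero hp ?_
    rw [if_neg hpS, if_neg hpS]
    ring

theorem fun_eval (x : ℕ → ℝ) (Z P y : ℝ) (Q : Finset ℕ) (hx : ∀ p ∈ Q, 0 < x p) (g a : ℕ → ℂ)
    (S : Finset ℕ) (hS : S ⊆ Q) :
    ∏ p ∈ S, (g p + (((0 : ℝ)) : ℂ) * a p) + ∑ S0 ∈ SS Z P Q,
      ((tau P y S0 * ∏ p ∈ S0, x p : ℝ) : ℂ) * ∑ R ∈ S0.powerset, (-1 : ℂ) ^ (S0 \ R).card *
        (∏ p ∈ S, (g p + ((tht x P y Q S0 R 1 p : ℝ) : ℂ) * a p) -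
          ∏ p ∈ S, (g p + ((tht x P y Q S0 R 0 p : ℝ) : ℂ) * a p)) = VF Z P y Q g a S := by
  classical
  unfold VF
  congr 1
  · refine Finset.prod_congr rfl fun p _ => ?_
    rw [Complex.ofReal_zero, zero_mul, add_zero]
  rw [Finset.sum_filter]
  refine Finset.sum_congr rfl fun S0 hS0 => ?_
  have hS0Q : S0 ⊆ Q := Finset.mem_powerset.1 (Finset.mem_filter.1 hS0).1
  obtain ⟨B, hB⟩ : ∃ B : ℝ → ℂ, B = fun b =>
      (∏ p ∈ (S \ S0).filter (fun p => p ∈ IS P Q S0),
        (g p + ((b / tau P y S0 : ℝ) : ℂ) * a p)) *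
      ∏ p ∈ (S \ S0).filter (fun p => p ∉ IS P Q S0), g p := ⟨_, rfl⟩
  have key : ∀ R ∈ S0.powerset, ∀ b : ℝ,
      ∏ p ∈ S, (g p + ((tht x P y Q S0 R b p : ℝ) : ℂ) * a p) =
      (∏ p ∈ S0, (if p ∈ S then (if p ∈ R then g p + a p / ((x p : ℝ) : ℂ) else g p) else 1)) *
        B b := by
    intro R hR b
    rw [Finset.mem_powerset] at hR
    have e1 : ∏ p ∈ S0, (if p ∈ S then (if p ∈ R then g p + a p / ((x p : ℝ) : ℂ) else g p)
        else 1) = ∏ p ∈ S.filter (fun p => p ∈ S0),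
          (g p + ((tht x P y Q S0 R b p : ℝ) : ℂ) * a p) := by
      rw [← Finset.prod_filter]
      have e3 : S0.filter (fun p => p ∈ S) = S.filter (fun p => p ∈ S0) := by
        ext p
        simp only [Finset.mem_filter]
        exact and_comm
      rw [e3]
      refine Finset.prod_congr rfl fun p hp => ?_
      rw [Finset.mem_filter] at hp
      have hIS : p ∉ IS P Q S0 := fun h => lt_irrefl p ((Finset.mem_filter.1 h).2.1 p hp.2)
      unfold tht
      split_ifs with h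
      · push_cast
        ring
      · rw [Complex.ofReal_zero, zero_mul, add_zero]
    have e2 : B b = ∏ p ∈ S.filter (fun p => p ∉ S0),
        (g p + ((tht x P y Q S0 R b p : ℝ) : ℂ) * a p) := by
      rw [hB, ← Finset.prod_filter_mul_prod_filter_not (S.filter (fun p => p ∉ S0))
        (fun p => p ∈ IS P Q S0)]
      simp only [Finset.sdiff_eq_filter]
      congr 1
      · refine Finset.prod_congr rfl fun p hp => ?_
        rw [Finset.mem_filter, Finset.mem_filter] at hp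
        unfold tht
        rw [if_neg (fun h => hp.1.2 (hR h)), if_pos hp.2]
      · refine Finset.prod_congr rfl fun p hp => ?_
        rw [Finset.mem_filter, Finset.mem_filter] at hp
        unfold tht
        rw [if_neg (fun h => hp.1.2 (hR h)), if_neg hp.2, Complex.ofReal_zero, zero_mul,
          add_zero]
    rw [e1, e2, Finset.prod_filter_mul_prod_filter_not]
  have h2 : ∑ R ∈ S0.powerset, (-1 : ℂ) ^ (S0 \ R).card *
      (∏ p ∈ S, (g p + ((tht x P y Q S0 R 1 p : ℝ) : ℂ) * a p) -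
        ∏ p ∈ S, (g p + ((tht x P y Q S0 R 0 p : ℝ) : ℂ) * a p)) =
      (∑ R ∈ S0.powerset, (-1 : ℂ) ^ (S0 \ R).card *
        ∏ p ∈ S0, (if p ∈ S then (if p ∈ R then g p + a p / ((x p : ℝ) : ℂ) else g p)
          else 1)) * (B 1 - B 0) := by
    rw [Finset.sum_mul]
    refine Finset.sum_congr rfl fun R hR => ?_
    rw [key R hR 1, key R hR 0]
    ring
  rw [h2, NKFun_comb S S0 g fun p => a p / ((x p : ℝ) : ℂ)]
  split_ifs with h
  · have h3 : ((∏ p ∈ S0, x p : ℝ) : ℂ) * ∏ p ∈ S0, (a p / ((x p : ℝ) : ℂ)) =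
        ∏ p ∈ S0, a p := by
      rw [Complex.ofReal_prod, ← Finset.prod_mul_distrib]
      refine Finset.prod_congr rfl fun p hp => ?_
      have h4 : ((x p : ℝ) : ℂ) ≠ 0 := Complex.ofReal_ne_zero.2 (hx p (hS0Q hp)).ne'
      field_simp
    have h5 : B 1 = (∏ p ∈ (S \ S0).filter (fun p => p ∈ IS P Q S0),
        (g p + a p / ((tau P y S0 : ℝ) : ℂ))) *
        ∏ p ∈ (S \ S0).filter (fun p => p ∉ IS P Q S0), g p := by
      rw [hB]
      show (∏ p ∈ (S \ S0).filter (fun p => p ∈ IS P Q S0),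
        (g p + ((1 / tau P y S0 : ℝ) : ℂ) * a p)) * _ = _
      congr 1
      refine Finset.prod_congr rfl fun p _ => ?_
      push_cast
      ring
    have h6 : B 0 = (∏ p ∈ (S \ S0).filter (fun p => p ∈ IS P Q S0), g p) *
        ∏ p ∈ (S \ S0).filter (fun p => p ∉ IS P Q S0), g p := by
      rw [hB]
      show (∏ p ∈ (S \ S0).filter (fun p => p ∈ IS P Q S0),
        (g p + ((0 / tau P y S0 : ℝ) : ℂ) * a p)) * _ = _
      congr 1
      refine Finset.prod_congr rfl fun p _ => ?_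
      rw [zero_div, Complex.ofReal_zero, zero_mul, add_zero]
    rw [h5, h6, Complex.ofReal_mul, ← h3]
    ring
  · rw [zero_mul, mul_zero]

end Pool.Agent.H.MP_b3c6db_nt
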