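import Pool.Agent.H.MP_b3c6db_nt.NK.Err1
import Pool.Agent.H.MP_b3c6db_nt.NK.Fun
import Pool.Agent.H.MP_b3c6db_nt.NK.Bij

/-! The estimate of the functional.

PROOF of `est_VF`. `y = √Z/c`, so `τ = tau P y S0 = c √P/(√Z √(nS S0)) ≥ c` for `S0 ∈ SS` (`nS S0 * Z ≤ P`). `n = #S`. With `errB` for
`U1 = (S ∖ S0) ∩ IS`, `U2 = (S ∖ S0) ∖ IS`: `VF = ∏_S g + (first order terms of bij_sum) + ∑_{S0} ∏_{S0} a * Err S0`
`= ∑_{T ⊆ S, nS T ≤ P} ∏_T a ∏_{S∖T} g + ∑_{S0} ∏_{S0} a Err S0` (`P ≥ 1` for `T = ∅`).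
ERRORS: `Err S0 = 0` if `#U1 ≤ 1` (`errB_zero`); otherwise `m = #(S ∖ S0) ≥ 2` and, as all elements are `> Z`,
`‖∏_{S0} a Err S0‖ ≤ (c^(#S0)/√(nS S0)) (c^2/τ) 3^m/√(nS (S∖S0)) = c^(#S0+1) 3^m √Z/(√P √(nS(S∖S0))) ≤ c^(#S0+1) 3^m Z^(-(m-1)/2)/√P
≤ c^K (3/Z^(1/4))^m/√P`, where `#S0 + 1 ≤ K` (`Z^(#S0+1) ≤ nS S0 * Z ≤ P ≤ Z^K`, `pow_card_le_nS`). Sum over the `S0 ⊆ S` with `#S0 ≤ K`: if
`n ≤ 2K` at most `4^K` sets, each term `≤ c^K/√P` (for `Z ≥ 81`); if `n > 2K`, `m ≥ n/2` and the sum is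
`≤ 2^n c^K (3/Z^(1/4))^(n/2)/√P ≤ c^K/√P` for `12 ≤ Z^(1/4)`.
MAIN TERM: `nS S ≤ P`: every `T ⊆ S` has `nS T ≤ nS S ≤ P`, so it is `∏_S (g + a)` (`Finset.prod_add`). `P < nS S`: `nS T ≤ P ≤ Z^K` gives `#T ≤ K`,
so it is `≤ c^K 2^n 2^n/√(nS S)`; if `n ≤ 2K` this is `≤ c^K 16^K/√P`; if `n > 2K`: `nS S ≥ Z^n ≥ Z^(n/2) P`, so it is `≤ c^K (4/Z^(1/4))^n/√P`. -/

set_option autoImplicit false

namespace Pool.Agent.H.MP_b3c6db_nt

open Finset Filter

private lemma NKEst_sq (T : Finset ℕ) : (∏ p ∈ T, Real.sqrt p) ^ 2 = nS T := by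
  rw [← Finset.prod_pow]
  exact Finset.prod_congr rfl fun p _ => Real.sq_sqrt (Nat.cast_nonneg p)

private lemma NKEst_pos {Z P : ℝ} (hZ : 0 ≤ Z) {T : Finset ℕ} (hT : T ⊆ QQ Z P) :
    0 < ∏ p ∈ T, Real.sqrt p :=
  Finset.prod_pos fun p hp => Real.sqrt_pos.2 (hZ.trans_lt (QQ_gt Z P p (hT hp)).2)

private lemma NKEst_low {Z P w : ℝ} (hw : 0 ≤ w) (hZ : w ^ 4 = Z) {T : Finset ℕ}
    (hT : T ⊆ QQ Z P) : w ^ (2 * T.card) ≤ ∏ p ∈ T, Real.sqrt p := by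
  have hZ0 : 0 ≤ Z := by
    rw [← hZ]
    exact pow_nonneg hw 4
  have h1 := pow_card_le_nS Z P hZ0 T hT
  have h2 : (w ^ (2 * T.card)) ^ 2 ≤ (∏ p ∈ T, Real.sqrt p) ^ 2 := by
    rw [NKEst_sq, ← pow_mul]
    calc w ^ (2 * T.card * 2) = (w ^ 4) ^ T.card := by
          rw [← pow_mul]
          congr 1
          ring
      _ = Z ^ T.card := by rw [hZ]
      _ ≤ _ := h1
  exact (pow_le_pow_iff_left₀ (pow_nonneg hw _) (NKEst_pos hZ0 hT).le two_ne_zero).1 h2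

private lemma NKEst_norm {T : Finset ℕ} {f : ℕ → ℂ} {b : ℝ}
    (hf : ∀ p ∈ T, ‖f p‖ ≤ b / Real.sqrt p) :
    ‖∏ p ∈ T, f p‖ ≤ b ^ T.card / ∏ p ∈ T, Real.sqrt p := by
  rw [norm_prod]
  refine (Finset.prod_le_prod (fun p _ => norm_nonneg _) hf).trans (le_of_eq ?_)
  rw [Finset.prod_div_distrib, Finset.prod_const]

private lemma NKEst_err {K : ℕ} {c Z P w : ℝ} (hc : 2 ≤ c) (hw : 6 ≤ w) (hwZ : w ^ 4 = Z)
    (hZP : Z ≤ P) (hPZ : P ≤ Z ^ K) {S : Finset ℕ} (hS : S ⊆ QQ Z P) {g a : ℕ → ℂ}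
    (hga : ∀ p ∈ S, ‖g p‖ ≤ 2 / Real.sqrt p ∧ ‖a p‖ ≤ c / Real.sqrt p)
    {S0 : Finset ℕ} (h0 : S0 ⊆ S) (hn : nS S0 * Z ≤ P) {τ : ℝ}
    (hτ : τ = tau P (Real.sqrt Z / c) S0) {U1 U2 : Finset ℕ} (hd : Disjoint U1 U2)
    (hU : U1 ∪ U2 = S \ S0) :
    ‖(∏ p ∈ S0, a p) * ((τ : ℂ) * ((∏ p ∈ U1, (g p + a p / (τ : ℂ))) * ∏ p ∈ U2, g p -
        (∏ p ∈ U1, g p) * ∏ p ∈ U2, g p) -
      ∑ p ∈ U1, a p * (∏ q ∈ U1.erase p, g q) * ∏ q ∈ U2, g q)‖ ≤
      (2 * c) ^ K / 2 ^ S.card / Real.sqrt P := by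
  have hw0 : 0 < w := by linarith
  have hZ1 : 1 < Z := by
    rw [← hwZ]
    exact one_lt_pow₀ (by linarith) (by norm_num)
  have hZ0 : 0 ≤ Z := by linarith
  have hP0 : 0 < P := by linarith
  have hsP : 0 < Real.sqrt P := Real.sqrt_pos.2 hP0
  have hc0 : 0 < c := by linarith
  have hS0 : S0 ⊆ QQ Z P := h0.trans hS
  have hS1 : S \ S0 ⊆ QQ Z P := Finset.sdiff_subset.trans hS
  obtain ⟨r0, hr0⟩ : ∃ r, r = ∏ p ∈ S0, Real.sqrt p := ⟨_, rfl⟩
  obtain ⟨r1, hr1⟩ : ∃ r, r = ∏ p ∈ S \ S0, Real.sqrt p := ⟨_, rfl⟩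
  have hr0p : 0 < r0 := by rw [hr0]; exact NKEst_pos hZ0 hS0
  have hr1p : 0 < r1 := by rw [hr1]; exact NKEst_pos hZ0 hS1
  have hr0s : r0 ^ 2 = nS S0 := by rw [hr0]; exact NKEst_sq S0
  have hsZ : Real.sqrt Z = w ^ 2 := by
    rw [← hwZ, show w ^ 4 = (w ^ 2) ^ 2 by ring, Real.sqrt_sq (by positivity)]
  have hτ' : τ = c * Real.sqrt P / (r0 * w ^ 2) := by
    rw [hτ]
    unfold tau
    rw [← hr0s, Real.sqrt_div hP0.le, Real.sqrt_sq hr0p.le, hsZ]
    field_simp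
  have hrw : r0 * w ^ 2 ≤ Real.sqrt P := by
    rw [Real.le_sqrt (by positivity) hP0.le, mul_pow, hr0s, show (w ^ 2) ^ 2 = w ^ 4 by ring, hwZ]
    exact hn
  have hτc : c ≤ τ := by
    rw [hτ', le_div_iff₀ (by positivity)]
    exact mul_le_mul_of_nonneg_left hrw hc0.le
  have hτ0 : 0 < τ := by linarith
  by_cases h2 : U1.card ≤ 1
  · rw [errB_zero U1 U2 g a τ hτ0 h2, mul_zero, norm_zero]
    positivity
  · obtain ⟨m, hm⟩ : ∃ m, m = (S \ S0).card := ⟨_, rfl⟩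
    have hm2 : 2 ≤ m := by
      have h3 : U1 ⊆ S \ S0 := by
        rw [← hU]
        exact Finset.subset_union_left
      have h4 := Finset.card_le_card h3
      omega
    have hmn : S0.card + m = S.card := by
      rw [hm, add_comm]
      exact Finset.card_sdiff_add_card_eq_card h0
    have hUS : ∀ p ∈ U1 ∪ U2, p ∈ S := fun p hp => by
      rw [hU] at hp
      exact (Finset.mem_sdiff.1 hp).1
    have hE := errB U1 U2 hd g a c τ hc hτc
      (fun p hp => (QQ_gt Z P p (hS (hUS p hp))).1.one_le)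
      (fun p hp => (hga p (hUS p hp)).1)
      (fun p hp => (hga p (hUS p (Finset.mem_union_left _ hp))).2)
    rw [hU, ← hm, ← hr1] at hE
    have hA := NKEst_norm (T := S0) (f := a) (b := c) (fun p hp => (hga p (h0 hp)).2)
    rw [← hr0] at hA
    have hcard : S0.card + 1 ≤ K := by
      have h3 := pow_card_le_nS Z P hZ0 S0 hS0
      have h4 : Z ^ (S0.card + 1) ≤ Z ^ K := by
        rw [pow_succ]
        exact ((mul_le_mul_of_nonneg_right h3 hZ0).trans hn).trans hPZ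
      exact (pow_le_pow_iff_right₀ hZ1).1 h4
    have hlow : w ^ (2 * m) ≤ r1 := by
      rw [hm, hr1]
      exact NKEst_low hw0.le hwZ hS1
    have key : c ^ (S0.card + 1) * w ^ 2 * 3 ^ m * 2 ^ S.card ≤ (2 * c) ^ K * r1 := by
      have k1 : c ^ (S0.card + 1) ≤ c ^ K := pow_le_pow_right₀ (by linarith) hcard
      have k2 : (2 : ℝ) ^ S0.card ≤ 2 ^ K := pow_le_pow_right₀ (by norm_num) (by omega)
      have k3 : w ^ 2 ≤ w ^ m := pow_le_pow_right₀ (by linarith) hm2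
      have k4 : (6 : ℝ) ^ m ≤ w ^ m := pow_le_pow_left₀ (by norm_num) hw m
      calc c ^ (S0.card + 1) * w ^ 2 * 3 ^ m * 2 ^ S.card
          = (c ^ (S0.card + 1) * 2 ^ S0.card) * (w ^ 2 * 6 ^ m) := by
            rw [← hmn, pow_add (2 : ℝ), show (6 : ℝ) ^ m = 3 ^ m * 2 ^ m by
              rw [← mul_pow]; norm_num]
            ring
        _ ≤ (c ^ K * 2 ^ K) * (w ^ m * w ^ m) := by gcongr
        _ = (2 * c) ^ K * w ^ (2 * m) := by
            rw [mul_pow, two_mul m, pow_add]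
            ring
        _ ≤ (2 * c) ^ K * r1 := by gcongr
    rw [norm_mul]
    calc ‖∏ p ∈ S0, a p‖ * _ ≤ (c ^ S0.card / r0) * (c ^ 2 / τ * 3 ^ m / r1) :=
          mul_le_mul hA hE (norm_nonneg _) (by positivity)
      _ = c ^ (S0.card + 1) * w ^ 2 * 3 ^ m / (Real.sqrt P * r1) := by
          rw [hτ', pow_succ c S0.card]
          field_simp
      _ ≤ (2 * c) ^ K / 2 ^ S.card / Real.sqrt P := by
          rw [div_div, div_le_div_iff₀ (by positivity) (by positivity)]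
          calc c ^ (S0.card + 1) * w ^ 2 * 3 ^ m * (2 ^ S.card * Real.sqrt P)
              = (c ^ (S0.card + 1) * w ^ 2 * 3 ^ m * 2 ^ S.card) * Real.sqrt P := by ring
            _ ≤ ((2 * c) ^ K * r1) * Real.sqrt P := by gcongr
            _ = _ := by ring

/-- the main term -/
private noncomputable def NKEst_M (P : ℝ) (g a : ℕ → ℂ) (S : Finset ℕ) : ℂ :=
  ∑ T ∈ S.powerset.filter (fun T => nS T ≤ P), (∏ p ∈ T, a p) * ∏ p ∈ S \ T, g p

private lemma NKEst_split {Z P y : ℝ} (hZ : 1 ≤ Z) (hP : 1 ≤ P) (g a : ℕ → ℂ) {S : Finset ℕ}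
    (hS : S ⊆ QQ Z P) :
    VF Z P y (QQ Z P) g a S = NKEst_M P g a S +
      ∑ S0 ∈ (SS Z P (QQ Z P)).filter (fun S0 => S0 ⊆ S), (∏ p ∈ S0, a p) *
        (((tau P y S0 : ℝ) : ℂ) *
          ((∏ p ∈ (S \ S0).filter (fun p => p ∈ IS P (QQ Z P) S0),
            (g p + a p / ((tau P y S0 : ℝ) : ℂ))) *
          ∏ p ∈ (S \ S0).filter (fun p => p ∉ IS P (QQ Z P) S0), g p -
        (∏ p ∈ (S \ S0).filter (fun p => p ∈ IS P (QQ Z P) S0), g p) *
          ∏ p ∈ (S \ S0).filter (fun p => p ∉ IS P (QQ Z P) S0), g p) -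
        ∑ p ∈ (S \ S0).filter (fun p => p ∈ IS P (QQ Z P) S0),
        a p * (∏ q ∈ ((S \ S0).filter (fun p => p ∈ IS P (QQ Z P) S0)).erase p, g q) *
          ∏ q ∈ (S \ S0).filter (fun p => p ∉ IS P (QQ Z P) S0), g q) := by
  have hM : NKEst_M P g a S = ∏ p ∈ S, g p +
      ∑ T ∈ S.powerset.filter (fun T => T.Nonempty ∧ nS T ≤ P),
        (∏ p ∈ T, a p) * ∏ p ∈ S \ T, g p := by
    unfold NKEst_M
    have h1 : S.powerset.filter (fun T => nS T ≤ P) =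
        insert ∅ (S.powerset.filter (fun T => T.Nonempty ∧ nS T ≤ P)) := by
      ext T
      rw [Finset.mem_insert, Finset.mem_filter, Finset.mem_filter]
      constructor
      · rintro ⟨h2, h3⟩
        rcases T.eq_empty_or_nonempty with h4 | h4
        · exact Or.inl h4
        · exact Or.inr ⟨h2, h4, h3⟩
      · rintro (h2 | ⟨h2, -, h3⟩)
        · rw [h2]
          refine ⟨Finset.empty_mem_powerset S, ?_⟩
          unfold nS
          rw [Finset.prod_empty]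
          exact hP
        · exact ⟨h2, h3⟩
    rw [h1, Finset.sum_insert]
    · rw [Finset.prod_empty, one_mul, Finset.sdiff_empty]
    · intro h2
      exact Finset.not_nonempty_empty (Finset.mem_filter.1 h2).2.1
  rw [hM, ← bij_sum Z P hZ g a S hS, add_assoc, ← Finset.sum_add_distrib]
  unfold VF
  congr 1
  refine Finset.sum_congr rfl fun S0 _ => ?_
  ring

private lemma NKEst_main {K : ℕ} {c Z P w : ℝ} (hc : 2 ≤ c) (hw : 6 ≤ w) (hwZ : w ^ 4 = Z)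
    (hZP : Z ≤ P) (hPZ : P ≤ Z ^ K) {S : Finset ℕ} (hS : S ⊆ QQ Z P) {g a : ℕ → ℂ}
    (hga : ∀ p ∈ S, ‖g p‖ ≤ 2 / Real.sqrt p ∧ ‖a p‖ ≤ c / Real.sqrt p) (hPS : P < nS S) :
    ‖NKEst_M P g a S‖ ≤ (16 * c) ^ K / Real.sqrt P := by
  have hw0 : 0 < w := by linarith
  have hZ1 : 1 < Z := by
    rw [← hwZ]
    exact one_lt_pow₀ (by linarith) (by norm_num)
  have hZ0 : 0 ≤ Z := by linarith
  have hP0 : 0 < P := by linarith
  have hsP : 0 < Real.sqrt P := Real.sqrt_pos.2 hP0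
  have hc0 : 0 < c := by linarith
  obtain ⟨r, hr⟩ : ∃ r, r = ∏ p ∈ S, Real.sqrt p := ⟨_, rfl⟩
  have hrp : 0 < r := by rw [hr]; exact NKEst_pos hZ0 hS
  have hrs : r ^ 2 = nS S := by rw [hr]; exact NKEst_sq S
  have h1 : ∀ T ∈ S.powerset.filter (fun T => nS T ≤ P),
      ‖(∏ p ∈ T, a p) * ∏ p ∈ S \ T, g p‖ ≤ c ^ K * 2 ^ S.card / r := by
    intro T hT
    obtain ⟨h2, h3⟩ := Finset.mem_filter.1 hT
    have hTS := Finset.mem_powerset.1 h2
    have h4 := NKEst_norm (T := T) (f := a) (b := c) (fun p hp => (hga p (hTS hp)).2)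
    have h5 := NKEst_norm (T := S \ T) (f := g) (b := 2)
      (fun p hp => (hga p (Finset.mem_sdiff.1 hp).1).1)
    have hcard : T.card ≤ K := by
      have h6 := pow_card_le_nS Z P hZ0 T (hTS.trans hS)
      exact (pow_le_pow_iff_right₀ hZ1).1 ((h6.trans h3).trans hPZ)
    have hprod : (∏ p ∈ S \ T, Real.sqrt p) * ∏ p ∈ T, Real.sqrt p = r := by
      rw [hr]
      exact Finset.prod_sdiff hTS
    have hp1 : 0 < ∏ p ∈ T, Real.sqrt p := NKEst_pos hZ0 (hTS.trans hS)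
    have hp2 : 0 < ∏ p ∈ S \ T, Real.sqrt p := NKEst_pos hZ0 (Finset.sdiff_subset.trans hS)
    rw [norm_mul]
    calc ‖∏ p ∈ T, a p‖ * ‖∏ p ∈ S \ T, g p‖
        ≤ (c ^ T.card / ∏ p ∈ T, Real.sqrt p) *
          (2 ^ (S \ T).card / ∏ p ∈ S \ T, Real.sqrt p) :=
          mul_le_mul h4 h5 (norm_nonneg _) (by positivity)
      _ = c ^ T.card * 2 ^ (S \ T).card / r := by
          rw [← hprod, div_mul_div_comm, mul_comm (∏ p ∈ T, Real.sqrt p)]
      _ ≤ c ^ K * 2 ^ S.card / r := by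
          have k1 : c ^ T.card ≤ c ^ K := pow_le_pow_right₀ (by linarith) hcard
          have k2 : (2 : ℝ) ^ (S \ T).card ≤ 2 ^ S.card :=
            pow_le_pow_right₀ (by norm_num) (Finset.card_le_card Finset.sdiff_subset)
          gcongr
  have h7 : ‖NKEst_M P g a S‖ ≤ c ^ K * 4 ^ S.card / r := by
    unfold NKEst_M
    refine (norm_sum_le_of_le _ h1).trans ?_
    rw [Finset.sum_const, nsmul_eq_mul]
    have h8 : ((S.powerset.filter (fun T => nS T ≤ P)).card : ℝ) ≤ 2 ^ S.card := by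
      have h9 := Finset.card_filter_le S.powerset (fun T => nS T ≤ P)
      rw [Finset.card_powerset] at h9
      exact_mod_cast h9
    calc ((S.powerset.filter (fun T => nS T ≤ P)).card : ℝ) * (c ^ K * 2 ^ S.card / r)
        ≤ 2 ^ S.card * (c ^ K * 2 ^ S.card / r) := by gcongr
      _ = c ^ K * 4 ^ S.card / r := by
          rw [show (4 : ℝ) ^ S.card = 2 ^ S.card * 2 ^ S.card by rw [← mul_pow]; norm_num]
          ring
  refine h7.trans ?_
  rw [div_le_div_iff₀ hrp hsP]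
  have hrP : Real.sqrt P ≤ r := by
    rw [Real.sqrt_le_left hrp.le, hrs]
    exact hPS.le
  by_cases hn : S.card ≤ 2 * K
  · have k1 : (4 : ℝ) ^ S.card ≤ 16 ^ K := by
      calc (4 : ℝ) ^ S.card ≤ 4 ^ (2 * K) := pow_le_pow_right₀ (by norm_num) hn
        _ = 16 ^ K := by rw [pow_mul]; norm_num
    calc c ^ K * 4 ^ S.card * Real.sqrt P ≤ c ^ K * 16 ^ K * r := by gcongr
      _ = (16 * c) ^ K * r := by rw [mul_pow]; ring
  · have k2 : w ^ S.card * Real.sqrt P ≤ r := by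
      have k3 : (w ^ S.card * Real.sqrt P) ^ 2 ≤ r ^ 2 := by
        rw [mul_pow, Real.sq_sqrt hP0.le, hrs, ← pow_mul]
        have k4 := pow_card_le_nS Z P hZ0 S hS
        calc w ^ (S.card * 2) * P ≤ w ^ (S.card * 2) * w ^ (S.card * 2) := by
              refine mul_le_mul_of_nonneg_left ?_ (by positivity)
              calc P ≤ Z ^ K := hPZ
                _ = w ^ (4 * K) := by rw [← hwZ, pow_mul]
                _ ≤ w ^ (S.card * 2) := pow_le_pow_right₀ (by linarith) (by omega)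
          _ = Z ^ S.card := by
              rw [← pow_add, ← hwZ, ← pow_mul]
              congr 1
              ring
          _ ≤ nS S := k4
      exact (pow_le_pow_iff_left₀ (by positivity) hrp.le two_ne_zero).1 k3
    have k5 : (4 : ℝ) ^ S.card ≤ w ^ S.card := pow_le_pow_left₀ (by norm_num) (by linarith) _
    calc c ^ K * 4 ^ S.card * Real.sqrt P ≤ c ^ K * w ^ S.card * Real.sqrt P := by gcongr
      _ = c ^ K * (w ^ S.card * Real.sqrt P) := by ring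
      _ ≤ (16 * c) ^ K * r := by
          have k6 : c ^ K ≤ (16 * c) ^ K := pow_le_pow_left₀ hc0.le (by linarith) K
          gcongr

theorem est_VF (K : ℕ) (hK : 1 ≤ K) (c : ℝ) (hc : 2 ≤ c) : ∃ C : ℝ, 0 ≤ C ∧ ∀ᶠ Z : ℝ in atTop,
    ∀ P : ℝ, Z ≤ P → P ≤ Z ^ K → ∀ S : Finset ℕ, S ⊆ QQ Z P → ∀ g a : ℕ → ℂ,
    (∀ p ∈ S, ‖g p‖ ≤ 2 / Real.sqrt p ∧ ‖a p‖ ≤ c / Real.sqrt p) →
    (nS S ≤ P → ‖VF Z P (Real.sqrt Z / c) (QQ Z P) g a S - ∏ p ∈ S, (g p + a p)‖ ≤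
      C / Real.sqrt P) ∧
    (P < nS S → ‖VF Z P (Real.sqrt Z / c) (QQ Z P) g a S‖ ≤ C / Real.sqrt P) := by
  refine ⟨(2 * c) ^ K + (16 * c) ^ K, by positivity, ?_⟩
  filter_upwards [eventually_ge_atTop (1296 : ℝ)] with Z hZ P hZP hPZ S hS g a hga
  obtain ⟨w, hwd⟩ : ∃ w, w = Real.sqrt (Real.sqrt Z) := ⟨_, rfl⟩
  have hwZ : w ^ 4 = Z := by
    rw [hwd, show Real.sqrt (Real.sqrt Z) ^ 4 = (Real.sqrt (Real.sqrt Z) ^ 2) ^ 2 by ring,
      Real.sq_sqrt (Real.sqrt_nonneg _), Real.sq_sqrt (by linarith)]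
  have hw : 6 ≤ w := by
    rw [hwd, Real.le_sqrt (by norm_num) (Real.sqrt_nonneg _), Real.le_sqrt (by norm_num)
      (by linarith)]
    norm_num
    exact hZ
  have hP0 : 0 < P := by linarith
  have hsP : 0 < Real.sqrt P := Real.sqrt_pos.2 hP0
  have hc0 : 0 < c := by linarith
  have hspl := NKEst_split (y := Real.sqrt Z / c) (by linarith : 1 ≤ Z) (by linarith : 1 ≤ P) g a hS
  obtain ⟨E, hEd⟩ : ∃ E, E = VF Z P (Real.sqrt Z / c) (QQ Z P) g a S - NKEst_M P g a S := ⟨_, rfl⟩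
  have hE : ‖E‖ ≤ (2 * c) ^ K / Real.sqrt P := by
    rw [hEd, hspl, add_sub_cancel_left]
    have h1 : ∀ S0 ∈ (SS Z P (QQ Z P)).filter (fun S0 => S0 ⊆ S), _ := fun S0 hS0 =>
      NKEst_err (K := K) (c := c) (S := S) (S0 := S0) (g := g) (a := a) hc hw hwZ hZP hPZ hS hga
        (Finset.mem_filter.1 hS0).2 (Finset.mem_filter.1 (Finset.mem_filter.1 hS0).1).2 rfl
        (Finset.disjoint_filter_filter_not (S \ S0) (S \ S0) (fun p => p ∈ IS P (QQ Z P) S0))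
        (Finset.filter_union_filter_not_eq (fun p => p ∈ IS P (QQ Z P) S0) (S \ S0))
    refine (norm_sum_le_of_le _ h1).trans ?_
    rw [Finset.sum_const, nsmul_eq_mul]
    have h2 : (((SS Z P (QQ Z P)).filter (fun S0 => S0 ⊆ S)).card : ℝ) ≤ 2 ^ S.card := by
      have h3 : (SS Z P (QQ Z P)).filter (fun S0 => S0 ⊆ S) ⊆ S.powerset := fun S0 hS0 =>
        Finset.mem_powerset.2 (Finset.mem_filter.1 hS0).2
      have h4 := Finset.card_le_card h3
      rw [Finset.card_powerset] at h4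
      exact_mod_cast h4
    calc (((SS Z P (QQ Z P)).filter (fun S0 => S0 ⊆ S)).card : ℝ) *
          ((2 * c) ^ K / 2 ^ S.card / Real.sqrt P)
        ≤ 2 ^ S.card * ((2 * c) ^ K / 2 ^ S.card / Real.sqrt P) := by gcongr
      _ = (2 * c) ^ K / Real.sqrt P := by
          field_simp
  constructor
  · intro hSP
    have hM : NKEst_M P g a S = ∏ p ∈ S, (g p + a p) := by
      have h1 : S.powerset.filter (fun T => nS T ≤ P) = S.powerset := by
        refine Finset.filter_true_of_mem fun T hT => le_trans ?_ hSP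
        have hTS := Finset.mem_powerset.1 hT
        unfold nS
        rw [← Finset.prod_sdiff hTS]
        have h6 : (1 : ℝ) ≤ ∏ p ∈ S \ T, (p : ℝ) := by
          calc (1 : ℝ) = ∏ _p ∈ S \ T, (1 : ℝ) := Finset.prod_const_one.symm
            _ ≤ ∏ p ∈ S \ T, (p : ℝ) := Finset.prod_le_prod (fun _ _ => zero_le_one)
              (fun p hp => by
                exact_mod_cast (QQ_gt Z P p (hS (Finset.mem_sdiff.1 hp).1)).1.one_le)
        exact le_mul_of_one_le_left (Finset.prod_nonneg fun p _ => Nat.cast_nonneg p) h6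
      unfold NKEst_M
      rw [h1, ← Finset.prod_add]
      exact Finset.prod_congr rfl fun p _ => add_comm _ _
    rw [← hM, ← hEd]
    refine hE.trans ?_
    have h5 : (0 : ℝ) ≤ (16 * c) ^ K := by positivity
    gcongr
    linarith
  · intro hPS
    have h1 := NKEst_main hc hw hwZ hZP hPZ hS hga hPS
    have h2 : VF Z P (Real.sqrt Z / c) (QQ Z P) g a S = E + NKEst_M P g a S := by
      rw [hEd, sub_add_cancel]
    rw [h2, add_div]
    exact (norm_add_le _ _).trans (add_le_add hE h1)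

end Pool.Agent.H.MP_b3c6db_nt
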