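import Pool.Agent.H.MP_b3c6db_nt.NK.Defs

/-! The laws `wth`: they are nonnegative, have sum `1`, and the mean of the Gauss sums is a product.

PROOF. Both sides are affine in every `θ p`, `p ∈ Q`, and for `θ p ∈ {0, 1}` the law `wth` is a law `ww`
with some of the parameters replaced by `0`. -/

set_option autoImplicit false

namespace Pool.Agent.H.MP_b3c6db_nt

open Finset

theorem NKLaw_affine {V : Type*} [AddCommGroup V] [Module ℝ V] (f g : (ℕ → ℝ) → V)
    (Q : Finset ℕ)
    (hf : ∀ p ∈ Q, ∀ θ : ℕ → ℝ, f θ = (1 - θ p) • f (Function.update θ p 0) +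
      θ p • f (Function.update θ p 1))
    (hg : ∀ p ∈ Q, ∀ θ : ℕ → ℝ, g θ = (1 - θ p) • g (Function.update θ p 0) +
      θ p • g (Function.update θ p 1))
    (h : ∀ θ : ℕ → ℝ, (∀ p ∈ Q, θ p = 0 ∨ θ p = 1) → f θ = g θ) : ∀ θ, f θ = g θ := by
  induction Q using Finset.induction_on with
  | empty => exact fun θ => h θ (by simp)
  | insert p Q hp ih =>
    refine ih (fun q hq => hf q (mem_insert_of_mem hq)) (fun q hq => hg q (mem_insert_of_mem hq)) ?_
    intro θ hθ
    have key : ∀ t : ℝ, (t = 0 ∨ t = 1) → ∀ q ∈ insert p Q,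
        Function.update θ p t q = 0 ∨ Function.update θ p t q = 1 := by
      intro t ht q hq
      by_cases hqp : q = p
      · subst hqp
        rw [Function.update_self]
        exact ht
      · rw [Function.update_of_ne hqp]
        exact hθ q ((mem_insert.1 hq).resolve_left hqp)
    rw [hf p (mem_insert_self _ _) θ, hg p (mem_insert_self _ _) θ,
      h _ (key 0 (Or.inl rfl)), h _ (key 1 (Or.inr rfl))]

theorem NKLaw_cth (x θ : ℕ → ℝ) (p d : ℕ) :
    cth x θ p d = (1 - θ p) * cth x (Function.update θ p 0) p d +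
      θ p * cth x (Function.update θ p 1) p d := by
  unfold cth
  rw [Function.update_self, Function.update_self]
  split_ifs
  · ring
  · ring

theorem NKLaw_cth_ne (x θ : ℕ → ℝ) {p q : ℕ} (h : q ≠ p) (t : ℝ) (d : ℕ) :
    cth x (Function.update θ p t) q d = cth x θ q d := by
  unfold cth
  rw [Function.update_of_ne h]

theorem NKLaw_wth (x : ℕ → ℝ) (N : ℕ) (Q : Finset ℕ) {p : ℕ} (hp : p ∈ Q) (θ : ℕ → ℝ)
    (d : ℕ) :
    wth x N Q θ d = (1 - θ p) * wth x N Q (Function.update θ p 0) d +
      θ p * wth x N Q (Function.update θ p 1) d := by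
  unfold wth
  rw [← Finset.mul_prod_erase Q _ hp, ← Finset.mul_prod_erase Q _ hp, ← Finset.mul_prod_erase Q _ hp]
  have h1 : ∀ t : ℝ, ∏ q ∈ Q.erase p, cth x (Function.update θ p t) q d =
      ∏ q ∈ Q.erase p, cth x θ q d := fun t =>
    prod_congr rfl fun q hq => NKLaw_cth_ne x θ (Finset.ne_of_mem_erase hq) t d
  rw [h1, h1, NKLaw_cth x θ p d]
  ring

theorem NKLaw_one (y : ℕ → ℝ) (N : ℕ) (hN : N ≠ 0) (q : ℕ) (hq : q.Prime) (hqN : q ∣ N)
    (hy : y q ≠ 1) (t : ℝ) (ht : t = 0 ∨ t = 1) (d : ℕ) (hd : d ∣ N) :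
    ww (Function.update y q (t * y q)) N d =
      ww y N d * (if q ∣ d then t else (1 - t * y q) / (1 - y q)) := by
  have hy' : 1 - y q ≠ 0 := sub_ne_zero.2 (Ne.symm hy)
  have hd0 : d ≠ 0 := ne_zero_of_dvd_ne_zero hN hd
  rcases ht with rfl | rfl
  · rw [zero_mul]
    split_ifs with h
    · unfold ww
      have h1 : Arho (Function.update y q 0) d = 0 := by
        unfold Arho Finsupp.prod
        have h2 : q ∈ d.factorization.support := by
          rw [Nat.support_factorization]
          exact Nat.mem_primeFactors.2 ⟨hq, h, hd0⟩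
        refine Finset.prod_eq_zero h2 ?_
        beta_reduce
        rw [Function.update_self, zero_pow (Finsupp.mem_support_iff.1 h2)]
      rw [h1]
      ring
    · unfold ww
      have h1 : Arho (Function.update y q 0) d = Arho y d := by
        unfold Arho Finsupp.prod
        refine Finset.prod_congr rfl fun p hp => ?_
        have hpq : p ≠ q := by
          rintro rfl
          rw [Nat.support_factorization] at hp
          exact h (Nat.dvd_of_mem_primeFactors hp)
        beta_reduce
        rw [Function.update_of_ne hpq]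
      have hNd : N / d ≠ 0 :=
        (Nat.div_pos (Nat.le_of_dvd (Nat.pos_of_ne_zero hN) hd) (Nat.pos_of_ne_zero hd0)).ne'
      have hq2 : q ∣ N / d := by
        have h3 : q ∣ d * (N / d) := by rwa [Nat.mul_div_cancel' hd]
        exact (hq.dvd_mul.1 h3).resolve_left h
      have hmem : q ∈ (N / d).primeFactors := Nat.mem_primeFactors.2 ⟨hq, hq2, hNd⟩
      have h2 : bet y (N / d) = (1 - y q) * bet (Function.update y q 0) (N / d) := by
        unfold bet
        rw [← Finset.mul_prod_erase _ _ hmem, ← Finset.mul_prod_erase _ _ hmem, Function.update_self]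
        have h4 : ∏ p ∈ (N / d).primeFactors.erase q, (1 - Function.update y q 0 p) =
            ∏ p ∈ (N / d).primeFactors.erase q, (1 - y p) :=
          prod_congr rfl fun p hp => by rw [Function.update_of_ne (Finset.ne_of_mem_erase hp)]
        rw [h4]
        ring
      rw [h1, h2]
      field_simp
      ring
  · rw [one_mul, Function.update_eq_self]
    split_ifs
    · ring
    · rw [div_self hy']
      ring

/-- the parameters for `θ` with the values `0`, `1` on `Q` -/
noncomputable def NKLaw_x (x θ : ℕ → ℝ) (Q : Finset ℕ) (p : ℕ) : ℝ :=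
  if p ∈ Q then θ p * x p else x p

theorem NKLaw_ww (x : ℕ → ℝ) (N : ℕ) (hN : N ≠ 0) (θ : ℕ → ℝ) (d : ℕ) (hd : d ∣ N)
    (Q : Finset ℕ) (hQ : ∀ p ∈ Q, p.Prime ∧ p ∣ N ∧ x p < 1)
    (hθ : ∀ p ∈ Q, θ p = 0 ∨ θ p = 1) : wth x N Q θ d = ww (NKLaw_x x θ Q) N d := by
  induction Q using Finset.induction_on with
  | empty =>
    have h1 : NKLaw_x x θ ∅ = x := by
      funext p
      unfold NKLaw_x
      rw [if_neg (Finset.notMem_empty p)]
    rw [h1]
    unfold wth
    rw [Finset.prod_empty, mul_one]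
  | insert q Q hq ih =>
    have h1 := ih (fun p hp => hQ p (mem_insert_of_mem hp)) fun p hp => hθ p (mem_insert_of_mem hp)
    obtain ⟨g1, g2, g3⟩ := hQ q (mem_insert_self _ _)
    have e0 : NKLaw_x x θ Q q = x q := by
      unfold NKLaw_x
      rw [if_neg hq]
    have h2 := NKLaw_one (NKLaw_x x θ Q) N hN q g1 g2 (by rw [e0]; exact g3.ne) (θ q)
      (hθ q (mem_insert_self _ _)) d hd
    have e1 : Function.update (NKLaw_x x θ Q) q (θ q * NKLaw_x x θ Q q) =
        NKLaw_x x θ (insert q Q) := by
      funext p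
      by_cases hpq : p = q
      · subst hpq
        rw [Function.update_self, e0]
        unfold NKLaw_x
        rw [if_pos (mem_insert_self _ _)]
      · rw [Function.update_of_ne hpq]
        unfold NKLaw_x
        have : p ∈ insert q Q ↔ p ∈ Q := by
          rw [mem_insert]
          exact ⟨fun h => h.resolve_left hpq, Or.inr⟩
        simp only [this]
    rw [e1, ← h1, e0] at h2
    rw [h2]
    unfold wth
    rw [Finset.prod_insert hq]
    unfold cth
    ring

theorem wth_nonneg (x : ℕ → ℝ) (N : ℕ) (Q : Finset ℕ) (θ : ℕ → ℝ) (d : ℕ)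
    (hQ : ∀ p ∈ Q, 0 ≤ θ p ∧ θ p * x p ≤ 1 ∧ x p < 1) (hw : 0 ≤ ww x N d) :
    0 ≤ wth x N Q θ d := by
  unfold wth
  refine mul_nonneg hw (Finset.prod_nonneg fun p hp => ?_)
  obtain ⟨h1, h2, h3⟩ := hQ p hp
  unfold cth
  split_ifs
  · exact h1
  · exact div_nonneg (by linarith) (by linarith)

theorem wth_sum (x : ℕ → ℝ) (N : ℕ) (hN : N ≠ 0) (Q : Finset ℕ)
    (hQ : ∀ p ∈ Q, p.Prime ∧ p ∣ N ∧ x p < 1) (θ : ℕ → ℝ) :
    ∑ d ∈ N.divisors, wth x N Q θ d = 1 := by
  refine NKLaw_affine (fun θ => ∑ d ∈ N.divisors, wth x N Q θ d) (fun _ => (1 : ℝ)) Q ?_ ?_ ?_ θ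
  · intro p hp θ
    beta_reduce
    rw [smul_eq_mul, smul_eq_mul, mul_sum, mul_sum, ← sum_add_distrib]
    exact sum_congr rfl fun d _ => NKLaw_wth x N Q hp θ d
  · intro p _ θ
    beta_reduce
    rw [smul_eq_mul, smul_eq_mul]
    ring
  · intro θ hθ
    beta_reduce
    rw [sum_congr rfl fun d hd => NKLaw_ww x N hN θ d (Nat.dvd_of_mem_divisors hd) Q hQ hθ]
    have h1 := sum_ww (NKLaw_x x θ Q) N 1 hN (one_dvd N)
    rw [Arho_one] at h1
    rw [← h1]
    refine sum_congr ?_ fun d _ => rfl
    ext d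
    simp

theorem wth_mean (x : ℕ → ℝ) (N : ℕ) (hN : N ≠ 0) (Q : Finset ℕ)
    (hQ : ∀ p ∈ Q, p.Prime ∧ p ∣ N ∧ x p < 1) (r : ℚ)
    (hr : ∀ v : ℕ, v ∣ r.den → ¬ v ∣ N → Arho x v = 0) :
    ∃ rp : ℕ → ℚ, (∀ p ∈ r.den.primeFactors, (rp p).den = p ^ (r.den.factorization p)) ∧
      ∀ θ : ℕ → ℝ, ∑ d ∈ N.divisors, ((wth x N Q θ d : ℝ) : ℂ) * gG ((d : ℚ) ^ 2 * r) =
        ∏ p ∈ r.den.primeFactors,
          (if p ∈ Q then LF p (r.den.factorization p) (rp p) 0 +
            ((θ p : ℝ) : ℂ) * (LF p (r.den.factorization p) (rp p) (x p) -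
              LF p (r.den.factorization p) (rp p) 0)
          else LF p (r.den.factorization p) (rp p) (x p)) := by
  obtain ⟨rp, hrp, hE⟩ := euler_struct (MonoidHom.id ℂ) r.den r.den_ne_zero r rfl
  refine ⟨rp, hrp, ?_⟩
  refine NKLaw_affine
    (fun θ => ∑ d ∈ N.divisors, ((wth x N Q θ d : ℝ) : ℂ) * gG ((d : ℚ) ^ 2 * r))
    (fun θ => ∏ p ∈ r.den.primeFactors,
          (if p ∈ Q then LF p (r.den.factorization p) (rp p) 0 +
            ((θ p : ℝ) : ℂ) * (LF p (r.den.factorization p) (rp p) (x p) -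
              LF p (r.den.factorization p) (rp p) 0)
          else LF p (r.den.factorization p) (rp p) (x p))) Q ?_ ?_ ?_
  · intro p hp θ
    beta_reduce
    rw [Complex.real_smul, Complex.real_smul, mul_sum, mul_sum, ← sum_add_distrib]
    refine sum_congr rfl fun d _ => ?_
    rw [NKLaw_wth x N Q hp θ d]
    push_cast
    ring
  · intro p hp θ
    beta_reduce
    rw [Complex.real_smul, Complex.real_smul]
    by_cases hpd : p ∈ r.den.primeFactors
    · rw [← Finset.mul_prod_erase _ _ hpd, ← Finset.mul_prod_erase _ _ hpd,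
        ← Finset.mul_prod_erase _ _ hpd]
      have h1 : ∀ t : ℝ, ∏ q ∈ r.den.primeFactors.erase p,
          (if q ∈ Q then LF q (r.den.factorization q) (rp q) 0 +
            ((Function.update θ p t q : ℝ) : ℂ) * (LF q (r.den.factorization q) (rp q) (x q) -
              LF q (r.den.factorization q) (rp q) 0)
          else LF q (r.den.factorization q) (rp q) (x q)) =
          ∏ q ∈ r.den.primeFactors.erase p,
          (if q ∈ Q then LF q (r.den.factorization q) (rp q) 0 +
            ((θ q : ℝ) : ℂ) * (LF q (r.den.factorization q) (rp q) (x q) -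
              LF q (r.den.factorization q) (rp q) 0)
          else LF q (r.den.factorization q) (rp q) (x q)) := fun t =>
        prod_congr rfl fun q hq => by rw [Function.update_of_ne (Finset.ne_of_mem_erase hq)]
      rw [h1, h1, if_pos hp, if_pos hp, if_pos hp, Function.update_self, Function.update_self]
      push_cast
      ring
    · have h1 : ∀ t : ℝ, ∏ q ∈ r.den.primeFactors,
          (if q ∈ Q then LF q (r.den.factorization q) (rp q) 0 +
            ((Function.update θ p t q : ℝ) : ℂ) * (LF q (r.den.factorization q) (rp q) (x q) -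
              LF q (r.den.factorization q) (rp q) 0)
          else LF q (r.den.factorization q) (rp q) (x q)) =
          ∏ q ∈ r.den.primeFactors,
          (if q ∈ Q then LF q (r.den.factorization q) (rp q) 0 +
            ((θ q : ℝ) : ℂ) * (LF q (r.den.factorization q) (rp q) (x q) -
              LF q (r.den.factorization q) (rp q) 0)
          else LF q (r.den.factorization q) (rp q) (x q)) := fun t =>
        prod_congr rfl fun q hq => by
          rw [Function.update_of_ne (fun h => hpd (by rwa [h] at hq))]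
      rw [h1, h1]
      push_cast
      ring
  · intro θ hθ
    beta_reduce
    have h1 : ∀ d ∈ N.divisors, ((wth x N Q θ d : ℝ) : ℂ) * gG ((d : ℚ) ^ 2 * r) =
        ((ww (NKLaw_x x θ Q) N d : ℝ) : ℂ) * gG ((d : ℚ) ^ 2 * r) := fun d hd => by
      rw [NKLaw_ww x N hN θ d (Nat.dvd_of_mem_divisors hd) Q hQ hθ]
    rw [sum_congr rfl h1, gauss_sum_w (NKLaw_x x θ Q) N hN r]
    · have h2 := hE (fun p => ((NKLaw_x x θ Q p : ℝ) : ℂ))
      simp only [MonoidHom.id_apply] at h2
      rw [h2]
      refine prod_congr rfl fun p _ => ?_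
      have h3 : ∑ e ∈ range (r.den.factorization p + 1),
          ((NKLaw_x x θ Q p : ℝ) : ℂ) ^ e * Dlt (p ^ e) (rp p) =
          LF p (r.den.factorization p) (rp p) (NKLaw_x x θ Q p) := rfl
      rw [h3]
      unfold NKLaw_x
      by_cases hp : p ∈ Q
      · rw [if_pos hp, if_pos hp]
        rcases hθ p hp with h | h
        · rw [h, zero_mul, Complex.ofReal_zero, zero_mul, add_zero]
        · rw [h, one_mul, Complex.ofReal_one, one_mul]
          ring
      · rw [if_neg hp, if_neg hp]
    · intro v hv hvN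
      have h2 := hr v hv hvN
      unfold Arho Finsupp.prod at h2 ⊢
      rw [Finset.prod_eq_zero_iff] at h2 ⊢
      obtain ⟨p, hp, hp0⟩ := h2
      refine ⟨p, hp, ?_⟩
      have h3 : x p = 0 := by
        by_contra h4
        exact pow_ne_zero _ h4 hp0
      have h4 : NKLaw_x x θ Q p = 0 := by
        unfold NKLaw_x
        rw [h3]
        split_ifs
        · exact mul_zero _
        · rfl
      beta_reduce
      rw [h4]
      exact zero_pow (Finsupp.mem_support_iff.1 hp)

end Pool.Agent.H.MP_b3c6db_nt
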