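import Pool.Agent.H.MP_b3c6db_nt.NK.Est
import Pool.Agent.H.MP_b3c6db_nt.NC.LocC
import Pool.Agent.H.MP_b3c6db_nt.NC.XS
import Pool.Agent.H.MP_b3c6db_nt.NC.XM

/-! The local theorem.

PROOF of `loc_K`. `c = 310 K`. For `p ∈ q.primeFactors` put `k = q.factorization p ≥ 1`, `F p = LF p k (rp p) (xx P p)`, `g p = LF p k (rp p) 0`,
`a p = F p - g p`. For `p ∈ QQ Z P` (`YY P ≤ Z < p ≤ P`): `xx_mid` and `facA` (as in `loc_main`, NC/LocC.lean) give `‖F p‖ ≤ xx P p (1 + 1/100)`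
and `xx P p = 300 log P/(√p log p) ≤ 300 K/√p` (`log P ≤ K log Z ≤ K log p`); `facC`: `‖g p‖ ≤ √(2/p) ≤ 2/√p`; so `‖a p‖ ≤ (303 K + 2)/√p ≤ c/√p`.
`est_VF` applies with `S = q.primeFactors ∩ QQ`. `nS S ≤ P`: `VF = ∏_S F + error`, so the expression is `∏_{all} F + (∏_{p ∉ QQ} F) error`, the first by
hypothesis, the second `≤ 2 C/√P`. `P < nS S`: norm `≤ 2 C/√P`. NORM of `∏_{p ∉ QQ} F`: `≤ 2`, since it is a product over `p ≤ YY P`
(`facA` and `xx_small`: `‖F p‖ ≤ exp (3/2 ee P p)`, `ee_sum`: product `≤ exp (3/200) ≤ 2`), over `YY P < p ≤ Z` (`‖F p‖ ≤ exp (-(log p/5)) ≤ 1`), and over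
`p > P` (`xx P p = 0`, `facC`: `≤ √(2/p) ≤ 1`). Final constant `2 C + 4`. All facts eventual in `P` hold since `P ≥ Z`.
`YY_le_K`: `(log P)^8 ≤ (K log Z)^8 ≤ Z` for large `Z`. -/

set_option autoImplicit false

namespace Pool.Agent.H.MP_b3c6db_nt

open Finset Filter

private theorem NKLoc_log (K : ℕ) (Z P : ℝ) (hZ : 1 ≤ Z) (hP : 0 < P) (h : P ≤ Z ^ K) :
    Real.log P ≤ K * Real.log Z := by
  have h1 := Real.log_le_log hP h
  rwa [Real.log_pow] at h1

theorem YY_le_K (K : ℕ) : ∀ᶠ Z : ℝ in atTop, ∀ P : ℝ, 1 ≤ P → P ≤ Z ^ K → YY P ≤ Z := by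
  have hc : (0 : ℝ) < 1 / ((K : ℝ) ^ 8 + 1) := by positivity
  have h := (Real.isLittleO_pow_log_id_atTop (n := 8)).bound hc
  filter_upwards [h, eventually_ge_atTop 1] with Z hZ h1 P hP1 hP
  have h2 : Real.log P ≤ K * Real.log Z := NKLoc_log K Z P h1 (by linarith) hP
  have h3 : 0 ≤ Real.log P := Real.log_nonneg hP1
  have h4 : 0 ≤ Real.log Z := Real.log_nonneg h1
  have hZ' : Real.log Z ^ 8 ≤ 1 / ((K : ℝ) ^ 8 + 1) * Z := by
    have h5 := hZ
    simp only [id, Real.norm_eq_abs] at h5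
    rw [abs_of_nonneg (by linarith : (0 : ℝ) ≤ Z), abs_of_nonneg (by positivity)] at h5
    exact h5
  rw [YY]
  calc Real.log P ^ 8 ≤ (K * Real.log Z) ^ 8 := pow_le_pow_left₀ h3 h2 8
    _ = (K : ℝ) ^ 8 * Real.log Z ^ 8 := by ring
    _ ≤ (K : ℝ) ^ 8 * (1 / ((K : ℝ) ^ 8 + 1) * Z) :=
        mul_le_mul_of_nonneg_left hZ' (by positivity)
    _ = ((K : ℝ) ^ 8 / ((K : ℝ) ^ 8 + 1)) * Z := by ring
    _ ≤ 1 * Z := by
        apply mul_le_mul_of_nonneg_right _ (by linarith)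
        rw [div_le_one (by positivity)]
        linarith
    _ = Z := one_mul _

private theorem NKLoc_sqrt_le (p : ℕ) (hp : 2 ≤ p) : Real.sqrt (2 / p) ≤ 1 := by
  rw [← Real.sqrt_one]
  apply Real.sqrt_le_sqrt
  have h1 : (2 : ℝ) ≤ p := by exact_mod_cast hp
  rw [div_le_one (by linarith)]
  exact h1

private theorem NKLoc_C (p k : ℕ) (r : ℚ) (hp : p.Prime) (hk : 1 ≤ k) (hr : r.den = p ^ k) :
    ‖LF p k r 0‖ ≤ Real.sqrt (2 / p) := by
  have h := facC p k r hp hk hr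
  rwa [← Complex.ofReal_zero] at h

private theorem NKLoc_C2 (p k : ℕ) (r : ℚ) (hp : p.Prime) (hk : 1 ≤ k) (hr : r.den = p ^ k) :
    ‖LF p k r 0‖ ≤ 2 / Real.sqrt p := by
  refine (NKLoc_C p k r hp hk hr).trans ?_
  rw [Real.sqrt_div (by norm_num)]
  have h1 : Real.sqrt 2 ≤ 2 := by
    rw [Real.sqrt_le_left (by norm_num)]
    norm_num
  exact div_le_div_of_nonneg_right h1 (Real.sqrt_nonneg _)

private theorem NKLoc_normA (T : Finset ℕ) (F : ℕ → ℂ) (e : ℕ → ℝ)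
    (h : ∀ p ∈ T, ∃ R : ℝ, ∃ ζ : ℂ, 0 ≤ R ∧ R ≤ 1 ∧
      F p = ((R : ℝ) : ℂ) * Complex.exp ζ ∧ ‖ζ‖ ≤ 3 / 2 * e p)
    (hs : ∑ p ∈ T, e p ≤ 1 / 100) : ‖∏ p ∈ T, F p‖ ≤ 2 := by
  rw [norm_prod]
  have h1 : ∏ p ∈ T, ‖F p‖ ≤ ∏ p ∈ T, Real.exp (3 / 2 * e p) := by
    apply Finset.prod_le_prod (fun _ _ => norm_nonneg _)
    intro p hp
    obtain ⟨R, ζ, hR0, hR1, hF, hz⟩ := h p hp
    rw [hF, norm_mul, Complex.norm_real, Real.norm_of_nonneg hR0, Complex.norm_exp]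
    have h2 : Real.exp ζ.re ≤ Real.exp (3 / 2 * e p) :=
      Real.exp_le_exp.2 ((Complex.re_le_norm ζ).trans hz)
    have h3 := Real.exp_pos ζ.re
    calc R * Real.exp ζ.re ≤ 1 * Real.exp ζ.re := mul_le_mul_of_nonneg_right hR1 h3.le
      _ ≤ Real.exp (3 / 2 * e p) := by rw [one_mul]; exact h2
  refine h1.trans ?_
  rw [← Real.exp_sum, ← Finset.mul_sum]
  have h4 : Real.exp (3 / 2 * ∑ p ∈ T, e p) ≤ Real.exp (1 / 2) := by
    apply Real.exp_le_exp.2
    linarith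
  refine h4.trans ?_
  have h5 : Real.exp (1 / 2) * Real.exp (1 / 2) = Real.exp 1 := by
    rw [← Real.exp_add]
    norm_num
  have h6 := Real.exp_one_lt_d9
  have h7 := Real.exp_pos (1 / 2)
  nlinarith

private theorem NKLoc_prod1 (T : Finset ℕ) (F : ℕ → ℂ) (h : ∀ p ∈ T, ‖F p‖ ≤ 1) :
    ‖∏ p ∈ T, F p‖ ≤ 1 := by
  rw [norm_prod]
  exact Finset.prod_le_one (fun _ _ => norm_nonneg _) h

private theorem NKLoc_re (K G : ℂ) (M c : ℝ) (hKM : ‖K‖ ≤ M) (hG : ‖G‖ ≤ c) :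
    -(M * c) ≤ (K * G).re := by
  have h1 := Complex.abs_re_le_norm (K * G)
  rw [norm_mul] at h1
  have h2 : ‖K‖ * ‖G‖ ≤ M * c :=
    mul_le_mul hKM hG (norm_nonneg _) ((norm_nonneg _).trans hKM)
  have h3 := neg_abs_le (K * G).re
  linarith

theorem loc_K (K : ℕ) (hK : 1 ≤ K) : ∃ C : ℝ, 0 ≤ C ∧ ∀ᶠ Z : ℝ in atTop, ∀ P : ℝ, Z ≤ P →
    P ≤ Z ^ K → YY P ≤ Z → ∀ q : ℕ, q ≠ 0 → ∀ rp : ℕ → ℚ,
    (∀ p ∈ q.primeFactors, (rp p).den = p ^ (q.factorization p)) → ∀ (Kc : ℂ) (M : ℝ), ‖Kc‖ ≤ M →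
    -(M * (4 / Real.sqrt P)) ≤
      (Kc * ∏ p ∈ q.primeFactors, LF p (q.factorization p) (rp p) (xx P p)).re →
    -(M * (C / Real.sqrt P)) ≤
      (Kc * ((∏ p ∈ q.primeFactors.filter (fun p => p ∉ QQ Z P),
        LF p (q.factorization p) (rp p) (xx P p)) *
        VF Z P (Real.sqrt Z / (310 * K)) (QQ Z P) (fun p => LF p (q.factorization p) (rp p) 0)
          (fun p => LF p (q.factorization p) (rp p) (xx P p) - LF p (q.factorization p) (rp p) 0)
          (q.primeFactors.filter (fun p => p ∈ QQ Z P)))).re := by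
  have hK1 : (1 : ℝ) ≤ K := by exact_mod_cast hK
  obtain ⟨C0, hC0, hest⟩ := est_VF K hK (310 * K) (by linarith)
  refine ⟨2 * C0 + 4, by linarith, ?_⟩
  filter_upwards [hest, eventually_ge_atTop (100 : ℝ), eventually_forall_ge_atTop.2 xx_small,
    eventually_forall_ge_atTop.2 ee_sum, eventually_forall_ge_atTop.2 xx_mid,
    eventually_forall_ge_atTop.2 xx_large]
    with Z hV hZ100 hsm hee hmd hlg P hZP hPK hYZ q hq rp hrp Kc M hKM hmain
  have hsm' := hsm P hZP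
  have hee' := hee P hZP
  have hmd' := hmd P hZP
  have hlg' := hlg P hZP
  have hP0 : (0 : ℝ) < P := by linarith
  have hsP : 0 < Real.sqrt P := Real.sqrt_pos.2 hP0
  have hlP : 0 < Real.log P := Real.log_pos (by linarith)
  have hM0 : 0 ≤ M := (norm_nonneg _).trans hKM
  have hk : ∀ p ∈ q.primeFactors, 1 ≤ q.factorization p := fun p hp =>
    (Nat.prime_of_mem_primeFactors hp).factorization_pos_of_dvd hq
      (Nat.dvd_of_mem_primeFactors hp)
  obtain ⟨F, hF⟩ : ∃ F : ℕ → ℂ, F = fun p => LF p (q.factorization p) (rp p) (xx P p) := ⟨_, rfl⟩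
  obtain ⟨g, hg⟩ : ∃ g : ℕ → ℂ, g = fun p => LF p (q.factorization p) (rp p) 0 := ⟨_, rfl⟩
  have hFp : ∀ p, LF p (q.factorization p) (rp p) (xx P p) = F p := fun p => by rw [hF]
  have hgp : ∀ p, LF p (q.factorization p) (rp p) 0 = g p := fun p => by rw [hg]
  simp only [hFp, hgp] at hmain ⊢
  obtain ⟨S, hS⟩ : ∃ S, S = q.primeFactors.filter (fun p => p ∈ QQ Z P) := ⟨_, rfl⟩
  obtain ⟨N, hN⟩ : ∃ N, N = q.primeFactors.filter (fun p => p ∉ QQ Z P) := ⟨_, rfl⟩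
  rw [← hS, ← hN]
  -- the middle primes
  have hmidF : ∀ p ∈ q.primeFactors, YY P < p → (p : ℝ) ≤ P →
      ‖F p‖ ≤ xx P p * (1 + Real.log p / (100 * Real.log P)) ∧
      Real.log p / (100 * Real.log P) ≤ 1 / 100 ∧ ‖F p‖ ≤ 1 := by
    intro p hp hpY hpP
    have hpr := Nat.prime_of_mem_primeFactors hp
    obtain ⟨hx0, hx1, hxp, hb, hb2⟩ := hmd' p hpr hpY hpP
    have hp0 : (0 : ℝ) < p := by exact_mod_cast hpr.pos
    have hl2 : Real.log p ≤ Real.log P := Real.log_le_log hp0 hpP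
    have hb3 : Real.log p / (100 * Real.log P) ≤ 1 / 100 := by
      rw [div_le_div_iff₀ (by positivity) (by norm_num)]
      linarith
    obtain ⟨_, h5⟩ := facA p _ (rp p) hpr (hk p hp) (hrp p hp) (xx P p)
      (Real.log p / (100 * Real.log P)) hx0 (by linarith) hxp hb (by linarith)
    have h6 : ‖F p‖ ≤ xx P p * (1 + Real.log p / (100 * Real.log P)) := by
      rw [← hFp]
      exact h5
    refine ⟨h6, hb3, h6.trans (hb2.trans ?_)⟩
    apply Real.exp_le_one_iff.2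
    have h7 : 0 ≤ Real.log (p : ℝ) := Real.log_natCast_nonneg p
    linarith
  -- the norm of the product over N
  have hNn : ‖∏ p ∈ N, F p‖ ≤ 2 := by
    rw [← Finset.prod_filter_mul_prod_filter_not N (fun p : ℕ => (p : ℝ) ≤ YY P), norm_mul]
    have hA : ‖∏ p ∈ N.filter (fun p : ℕ => (p : ℝ) ≤ YY P), F p‖ ≤ 2 := by
      refine NKLoc_normA _ F (ee P) ?_ ?_
      · intro p hp
        rw [Finset.mem_filter, hN, Finset.mem_filter] at hp
        have hpr := Nat.prime_of_mem_primeFactors hp.1.1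
        obtain ⟨hx0, hx1, hxp, hb, hb2⟩ := hsm' p hpr hp.2
        have h7 := (facA p _ (rp p) hpr (hk p hp.1.1) (hrp p hp.1.1) (xx P p) (ee P p)
          (by linarith) hx1 hxp hb hb2).1
        rw [← hFp]
        exact h7
      · refine hee' _ fun p hp => ?_
        rw [Finset.mem_filter, hN, Finset.mem_filter] at hp
        exact ⟨Nat.prime_of_mem_primeFactors hp.1.1, hp.2⟩
    have hB : ‖∏ p ∈ N.filter (fun p : ℕ => ¬ (p : ℝ) ≤ YY P), F p‖ ≤ 1 := by
      refine NKLoc_prod1 _ F fun p hp => ?_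
      rw [Finset.mem_filter, hN, Finset.mem_filter, not_le] at hp
      have hpr := Nat.prime_of_mem_primeFactors hp.1.1
      rcases le_or_gt (p : ℝ) P with hpP | hpP
      · exact (hmidF p hp.1.1 hp.2 hpP).2.2
      · have h8 := NKLoc_C p _ (rp p) hpr (hk p hp.1.1) (hrp p hp.1.1)
        rw [← hFp, hlg' p hpr hpP]
        exact h8.trans (NKLoc_sqrt_le p hpr.two_le)
    calc _ ≤ (2 : ℝ) * 1 := mul_le_mul hA hB (norm_nonneg _) (by norm_num)
      _ = 2 := mul_one _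
  -- the hypotheses of est_VF
  have hSQ : S ⊆ QQ Z P := by
    intro p hp
    rw [hS, Finset.mem_filter] at hp
    exact hp.2
  have hlZ : 0 < Real.log Z := Real.log_pos (by linarith)
  have hlPZ : Real.log P ≤ K * Real.log Z := NKLoc_log K Z P (by linarith) hP0 hPK
  have hga : ∀ p ∈ S, ‖g p‖ ≤ 2 / Real.sqrt p ∧ ‖F p - g p‖ ≤ (310 * K) / Real.sqrt p := by
    intro p hp
    have hpQ := hSQ hp
    rw [hS, Finset.mem_filter] at hp
    have hpr := Nat.prime_of_mem_primeFactors hp.1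
    have hZp : Z < p := (QQ_gt Z P p hpQ).2
    have hpP : (p : ℝ) ≤ P := QQ_le Z P hP0.le p hpQ
    have hp0 : (0 : ℝ) < p := by exact_mod_cast hpr.pos
    have hsp : 0 < Real.sqrt p := Real.sqrt_pos.2 hp0
    have h1 : ‖g p‖ ≤ 2 / Real.sqrt p := by
      rw [← hgp]
      exact NKLoc_C2 p _ (rp p) hpr (hk p hp.1) (hrp p hp.1)
    refine ⟨h1, ?_⟩
    have hYp : YY P < p := lt_of_le_of_lt hYZ hZp
    obtain ⟨h2, h3, _⟩ := hmidF p hp.1 hYp hpP
    have hx0 : 0 < xx P p := (hmd' p hpr hYp hpP).1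
    have hx : xx P p = 300 * Real.log P / (Real.sqrt p * Real.log p) := by
      rw [xx, if_neg (not_le.2 hYp), if_pos hpP]
    have hlp : Real.log Z ≤ Real.log p := Real.log_le_log (by linarith) hZp.le
    have hlp0 : 0 < Real.log (p : ℝ) := by linarith
    have h4 : xx P p ≤ 300 * K / Real.sqrt p := by
      rw [hx, div_le_div_iff₀ (by positivity) hsp]
      have h5 : Real.log P ≤ K * Real.log p :=
        hlPZ.trans (mul_le_mul_of_nonneg_left hlp (by linarith))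
      calc 300 * Real.log P * Real.sqrt p ≤ 300 * (K * Real.log p) * Real.sqrt p := by
            apply mul_le_mul_of_nonneg_right _ hsp.le
            linarith
        _ = 300 * K * (Real.sqrt p * Real.log p) := by ring
    have h6 : ‖F p‖ ≤ 303 * K / Real.sqrt p := by
      calc ‖F p‖ ≤ xx P p * (1 + Real.log p / (100 * Real.log P)) := h2
        _ ≤ xx P p * (101 / 100) := by
            apply mul_le_mul_of_nonneg_left _ hx0.le
            linarith
        _ ≤ (300 * K / Real.sqrt p) * (101 / 100) :=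
            mul_le_mul_of_nonneg_right h4 (by norm_num)
        _ = 303 * K / Real.sqrt p := by ring
    calc ‖F p - g p‖ ≤ ‖F p‖ + ‖g p‖ := norm_sub_le _ _
      _ ≤ 303 * K / Real.sqrt p + 2 / Real.sqrt p := add_le_add h6 h1
      _ = (303 * K + 2) / Real.sqrt p := by ring
      _ ≤ (310 * K) / Real.sqrt p := by
          apply div_le_div_of_nonneg_right _ hsp.le
          linarith
  obtain ⟨hV1, hV2⟩ := hV P hZP hPK S hSQ g (fun p => F p - g p) hga
  obtain ⟨V, hVd⟩ : ∃ V, V = VF Z P (Real.sqrt Z / (310 * K)) (QQ Z P) g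
    (fun p => F p - g p) S := ⟨_, rfl⟩
  rw [← hVd] at hV1 hV2
  have hgoal : -(M * ((2 * C0 + 4) / Real.sqrt P)) ≤ (Kc * ((∏ p ∈ N, F p) * V)).re := by
    rcases le_or_gt (nS S) P with h | h
    · have h1 := hV1 h
      have h2 : ∏ p ∈ S, (g p + (F p - g p)) = ∏ p ∈ S, F p :=
        Finset.prod_congr rfl fun p _ => by ring
      simp only [h2] at h1
      have h3 : ∏ p ∈ q.primeFactors, F p = (∏ p ∈ N, F p) * ∏ p ∈ S, F p := by
        rw [hN, hS, mul_comm, Finset.prod_filter_mul_prod_filter_not]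
      have h4 : Kc * ((∏ p ∈ N, F p) * V) = Kc * ∏ p ∈ q.primeFactors, F p +
          Kc * ((∏ p ∈ N, F p) * (V - ∏ p ∈ S, F p)) := by
        rw [h3]
        ring
      rw [h4, Complex.add_re]
      have h5 : ‖(∏ p ∈ N, F p) * (V - ∏ p ∈ S, F p)‖ ≤ 2 * (C0 / Real.sqrt P) := by
        rw [norm_mul]
        exact mul_le_mul hNn h1 (norm_nonneg _) (by norm_num)
      have h6 := NKLoc_re Kc _ M _ hKM h5
      have h7 : M * ((2 * C0 + 4) / Real.sqrt P) =
          M * (4 / Real.sqrt P) + M * (2 * (C0 / Real.sqrt P)) := by ring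
      rw [h7]
      linarith
    · have h1 := hV2 h
      have h5 : ‖(∏ p ∈ N, F p) * V‖ ≤ 2 * (C0 / Real.sqrt P) := by
        rw [norm_mul]
        exact mul_le_mul hNn h1 (norm_nonneg _) (by norm_num)
      have h6 := NKLoc_re Kc _ M _ hKM h5
      have h7 : M * ((2 * C0 + 4) / Real.sqrt P) =
          M * (4 / Real.sqrt P) + M * (2 * (C0 / Real.sqrt P)) := by ring
      have h8 : 0 ≤ M * (4 / Real.sqrt P) := by positivity
      rw [h7]
      linarith
  rw [hVd] at hgoal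
  exact hgoal

end Pool.Agent.H.MP_b3c6db_nt
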