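import Pool.Agent.H.MP_b3c6db_nt.NK.Up
import Pool.Agent.H.MP_b3c6db_nt.NL.Main

/-! The upper bound for `A` up to a power of `log H`.

PROOF. `κ, C, C2` from `upper_K K`, valid for `J ≥ J₀`; `C'` from `deltaPos_upper`; `L = log H`. Let `L₀ = max (10 (J₀ + 2)) 1 * 2`.
If `L ≤ L₀`: `deltaL1 A H ≤ 1` (`deltaL1_le_one`) and `A L ≤ (1 + L₀)^K L₀`. If `L > L₀`: `J = ⌊L/10⌋₊ ≥ L/20`, `J ≥ J₀`, `1 + L ≤ 2 L ≤ 40 J`, so
`A ≤ 40^K J^K`. `C3 = max C2 (40^K/κ)`, `t = A/C3 ≤ κ J^K`. If `t ≥ 1`: `deltaL1 A H ≤ deltaL1 (C2 t) H ≤ C/(t J) = C C3/(A J) ≤ 20 C C3/(A L)`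
(`deltaL1_anti`, `C2 t ≤ A`, `C2 t ≥ 1`). If `t < 1`: `A < C3` and `deltaL1 A H ≤ deltaPos H ≤ C'/L ≤ |C'| C3/(A L)`. -/

set_option autoImplicit false

namespace Pool.Agent.H.MP_b3c6db_nt

open Finset Filter

theorem deltaL1_upper_K (K : ℕ) : ∃ C : ℝ, 0 < C ∧ ∀ H : ℕ, 2 ≤ H → ∀ A : ℝ, 1 ≤ A →
    A ≤ (1 + Real.log H) ^ K → deltaL1 A H ≤ C / (A * Real.log H) := by
  obtain ⟨κ, C, C2, hκ, hC0, hC2, hup⟩ := upper_K K
  rw [eventually_atTop] at hup
  obtain ⟨J₀, hJ₀⟩ := hup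
  obtain ⟨C', hC'⟩ := deltaPos_upper
  obtain ⟨L₀, hL₀⟩ : ∃ L₀ : ℝ, L₀ = 20 * ((J₀ : ℝ) + 2) := ⟨_, rfl⟩
  have hJ00 : (0 : ℝ) ≤ J₀ := Nat.cast_nonneg J₀
  have hL₀2 : 40 ≤ L₀ := by
    rw [hL₀]
    linarith
  have hCabs := abs_nonneg C'
  obtain ⟨C3, hC3⟩ : ∃ C3 : ℝ, C3 = max C2 ((40 : ℝ) ^ K / κ) := ⟨_, rfl⟩
  have hC31 : C2 ≤ C3 := by
    rw [hC3]
    exact le_max_left _ _
  have hC32 : (40 : ℝ) ^ K / κ ≤ C3 := by
    rw [hC3]
    exact le_max_right _ _
  have hC3pos : 0 < C3 := lt_of_lt_of_le one_pos (hC2.trans hC31)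
  have t1 : 0 ≤ |C'| * C3 := mul_nonneg hCabs hC3pos.le
  have t2 : 0 ≤ 20 * C * C3 := mul_nonneg (mul_nonneg (by norm_num) hC0) hC3pos.le
  have t3 : 0 < (1 + L₀) ^ K * L₀ := by
    have h1 : 0 < 1 + L₀ := by linarith
    have h2 : 0 < L₀ := by linarith
    positivity
  refine ⟨|C'| * C3 + 20 * C * C3 + (1 + L₀) ^ K * L₀, by linarith, fun H hH A hA hA2 => ?_⟩
  have hH2 : (2 : ℝ) ≤ H := by exact_mod_cast hH
  have hl : 0 < Real.log H := Real.log_pos (by linarith)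
  have hA0 : 0 < A := lt_of_lt_of_le one_pos hA
  have hAl : 0 < A * Real.log H := mul_pos hA0 hl
  rw [le_div_iff₀ hAl]
  rcases lt_or_ge A C3 with hcase | hcase
  · have h1 : deltaL1 A H ≤ C' / Real.log H := (deltaL1_le_deltaPos A hA H).trans (hC' H hH)
    have h2 : deltaL1 A H * Real.log H ≤ |C'| := by
      rw [le_div_iff₀ hl] at h1
      exact h1.trans (le_abs_self C')
    have h3 : deltaL1 A H * (A * Real.log H) = (deltaL1 A H * Real.log H) * A := by ring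
    have h4 : (deltaL1 A H * Real.log H) * A ≤ |C'| * C3 :=
      mul_le_mul h2 hcase.le hA0.le hCabs
    linarith
  · rcases le_or_gt (Real.log H) L₀ with h | h
    · have h1 := deltaL1_le_one A hA H
      have h2 : deltaL1 A H * (A * Real.log H) ≤ 1 * (A * Real.log H) :=
        mul_le_mul_of_nonneg_right h1 hAl.le
      have h3 : (1 + Real.log H) ^ K ≤ (1 + L₀) ^ K :=
        pow_le_pow_left₀ (by linarith) (by linarith) K
      have h4 : A * Real.log H ≤ (1 + L₀) ^ K * L₀ :=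
        mul_le_mul (hA2.trans h3) h hl.le (by positivity)
      linarith
    · obtain ⟨J, hJ⟩ : ∃ J : ℕ, J = ⌊Real.log H / 10⌋₊ := ⟨_, rfl⟩
      have h1 : (J : ℝ) ≤ Real.log H / 10 := by
        rw [hJ]
        exact Nat.floor_le (by positivity)
      have h2 : Real.log H / 10 < J + 1 := by
        rw [hJ]
        exact Nat.lt_floor_add_one _
      have h3 : (J₀ : ℝ) + 2 < J := by linarith
      have h4 : J₀ ≤ J := by
        have : (J₀ : ℝ) < J := by linarith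
        have : J₀ < J := by exact_mod_cast this
        omega
      have hJpos : (0 : ℝ) < J := by linarith
      have h6 : Real.log H ≤ 20 * J := by linarith
      have h7 : 1 + Real.log H ≤ 40 * J := by linarith
      have h8 : A ≤ (40 : ℝ) ^ K * (J : ℝ) ^ K := by
        rw [← mul_pow]
        exact hA2.trans (pow_le_pow_left₀ (by linarith) h7 K)
      have hJK : (0 : ℝ) < (J : ℝ) ^ K := pow_pos hJpos K
      obtain ⟨t, ht⟩ : ∃ t : ℝ, t = A / C3 := ⟨_, rfl⟩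
      have htA : t * C3 = A := by
        rw [ht]
        exact div_mul_cancel₀ A hC3pos.ne'
      have ht1 : 1 ≤ t := by
        rw [ht, le_div_iff₀ hC3pos, one_mul]
        exact hcase
      have ht0 : 0 < t := lt_of_lt_of_le one_pos ht1
      have ht2 : t ≤ κ * (J : ℝ) ^ K := by
        rw [ht, div_le_iff₀ hC3pos]
        have h9 : (40 : ℝ) ^ K ≤ C3 * κ := by
          rw [div_le_iff₀ hκ] at hC32
          exact hC32
        calc A ≤ (40 : ℝ) ^ K * (J : ℝ) ^ K := h8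
          _ ≤ (C3 * κ) * (J : ℝ) ^ K := mul_le_mul_of_nonneg_right h9 hJK.le
          _ = κ * (J : ℝ) ^ K * C3 := by ring
      have h9 := hJ₀ J h4 t ht1 ht2 H (by
        calc Real.exp (10 * J) ≤ Real.exp (Real.log H) := Real.exp_le_exp.2 (by linarith)
          _ = H := Real.exp_log (by linarith))
      have h10 : 1 ≤ C2 * t := by
        have : 1 * 1 ≤ C2 * t := mul_le_mul hC2 ht1 zero_le_one (by linarith)
        linarith
      have h11 : C2 * t ≤ A := by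
        rw [← htA, mul_comm t C3]
        exact mul_le_mul_of_nonneg_right hC31 ht0.le
      have h12 : deltaL1 A H ≤ C / (t * J) := (deltaL1_anti (C2 * t) A h10 h11 H).trans h9
      have h13 : A * Real.log H ≤ A * (20 * J) := mul_le_mul_of_nonneg_left h6 hA0.le
      have h14 : 0 ≤ C / (t * J) := div_nonneg hC0 (mul_pos ht0 hJpos).le
      have h15 : deltaL1 A H * (A * Real.log H) ≤ C / (t * J) * (A * (20 * J)) :=
        mul_le_mul h12 h13 hAl.le h14
      have h16 : C / (t * J) * (A * (20 * J)) = 20 * C * C3 := by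
        rw [← htA]
        field_simp
      linarith

end Pool.Agent.H.MP_b3c6db_nt
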