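import Pool.Agent.H.MP_b3c6db_nt.NK.Bij
import Pool.Agent.H.MP_b3c6db_nt.NC.Tail
import Pool.Agent.H.MP_b3c6db_nt.Mertens4

/-! The norm of the functional.

PROOF of `sum_inv_prime`: `∑_{Z < p ≤ P} 1/p`: for every `X ≥ Z` (large), `∑_{X < p ≤ 2X} 1/p ≤ (1/√X) ∑_{p ≤ 2X} 1/√p ≤ 8 √2/log (2X) ≤ 12/log Z`
(`nc_sum_inv_sqrt`); `P ≤ Z^K` is covered by at most `K log Z/log 2 + 1` blocks `(2^i Z, 2^(i+1) Z]`; so the sum is `≤ 12 (2 K + 1) ≤ 40 K`
(or any other way: a constant depending on `K` is enough; use a Mertens type lemma of the pool if you find one).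
PROOF of `norm_sum`: `tau P (√Z/c) S0 = c √P/(√Z √(nS S0))`, so the sum over `S0 ∈ SS` (all terms are nonnegative, extend to all `S0 ⊆ Q`) is at most
`(c √P/√Z) ∑_{S0 ⊆ Q} ∏_{S0} (2 xx P p/√p) = (c √P/√Z) ∏_Q (1 + 2 xx P p/√p) ≤ (c √P/√Z) exp (∑_Q 2 xx P p/√p)` and for `p > Z ≥ YY P`
`xx P p = 300 log P/(√p log p) ≤ 300 K/√p` (`log P ≤ K log Z ≤ K log p`), exponent `≤ 600 K ∑_Q 1/p`. -/

set_option autoImplicit false

namespace Pool.Agent.H.MP_b3c6db_nt

open Finset Filter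

private theorem NKNorm_log {K : ℕ} {Z P : ℝ} (hP : 0 < P) (hPZ : P ≤ Z ^ K) :
    Real.log P ≤ K * Real.log Z := by
  rw [← Real.log_pow]
  exact Real.log_le_log hP hPZ

theorem sum_inv_prime (K : ℕ) (hK : 1 ≤ K) : ∃ C : ℝ, 0 ≤ C ∧ ∀ᶠ Z : ℝ in atTop, ∀ P : ℝ,
    P ≤ Z ^ K → ∑ p ∈ QQ Z P, 1 / (p : ℝ) ≤ C := by
  refine ⟨K + 6, by positivity, ?_⟩
  filter_upwards [eventually_gt_atTop 1, Real.tendsto_log_atTop.eventually_ge_atTop 1] with Z hZ hL
  intro P hPZ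
  have hL0 : 0 < Real.log Z := by linarith
  rcases Nat.eq_zero_or_pos ⌊P⌋₊ with h0 | h0
  · have hQ : QQ Z P = ∅ := by
      unfold QQ
      rw [h0]
      simp
    rw [hQ, Finset.sum_empty]
    positivity
  have hN1 : (1 : ℝ) ≤ (⌊P⌋₊ : ℝ) := by exact_mod_cast h0
  have hP0 : 0 < P := by
    by_contra hc
    rw [not_lt] at hc
    rw [Nat.floor_of_nonpos hc] at h0
    exact absurd h0 (lt_irrefl 0)
  have hNP : ((⌊P⌋₊ : ℕ) : ℝ) ≤ P := Nat.floor_le hP0.le
  have h1 : ∑ p ∈ QQ Z P, 1 / (p : ℝ) ≤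
      ∑ p ∈ QQ Z P, (1 / Real.log Z) * (ArithmeticFunction.vonMangoldt p / p) := by
    refine Finset.sum_le_sum fun p hp => ?_
    obtain ⟨hpp, hZp⟩ := QQ_gt Z P p hp
    have hp0 : (0 : ℝ) < p := by linarith
    rw [ArithmeticFunction.vonMangoldt_apply_prime hpp]
    have hlog : Real.log Z ≤ Real.log p := Real.log_le_log (by linarith) hZp.le
    have e : (1 / Real.log Z) * (Real.log p / p) = (Real.log p / Real.log Z) * (1 / p) := by ring
    rw [e]
    have h2 : 1 ≤ Real.log p / Real.log Z := by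
      rw [le_div_iff₀ hL0]
      linarith
    have h3 : 0 ≤ 1 / (p : ℝ) := by positivity
    nlinarith
  have h2 : ∑ p ∈ QQ Z P, ArithmeticFunction.vonMangoldt p / (p : ℝ) ≤ M4 ⌊P⌋₊ := by
    unfold M4 QQ
    refine Finset.sum_le_sum_of_subset_of_nonneg ?_ ?_
    · intro p hp
      rw [mem_filter, mem_Ioc] at hp
      rw [mem_Ioc]
      exact ⟨lt_of_le_of_lt (Nat.zero_le _) hp.1.1, hp.1.2⟩
    · intro p _ _
      exact div_nonneg ArithmeticFunction.vonMangoldt_nonneg (Nat.cast_nonneg p)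
  have h3 := M4_upper ⌊P⌋₊ h0
  have h4 : Real.log (⌊P⌋₊ : ℝ) ≤ K * Real.log Z :=
    NKNorm_log (by linarith) (hNP.trans hPZ)
  rw [← Finset.mul_sum] at h1
  have h5 : (1 / Real.log Z) * ∑ p ∈ QQ Z P, ArithmeticFunction.vonMangoldt p / (p : ℝ) ≤
      (1 / Real.log Z) * (K * Real.log Z + 6) :=
    mul_le_mul_of_nonneg_left (by linarith) (by positivity)
  have h6 : (1 / Real.log Z) * (K * Real.log Z + 6) = K + 6 / Real.log Z := by
    field_simp
  have h7 : 6 / Real.log Z ≤ 6 := by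
    rw [div_le_iff₀ hL0]
    linarith
  linarith

theorem norm_sum (K : ℕ) (hK : 1 ≤ K) (c : ℝ) (hc : 2 ≤ c) : ∃ C : ℝ, 0 ≤ C ∧
    ∀ᶠ Z : ℝ in atTop, ∀ P : ℝ, Z ≤ P → P ≤ Z ^ K → YY P ≤ Z →
    ∑ S0 ∈ SS Z P (QQ Z P), tau P (Real.sqrt Z / c) S0 * (∏ p ∈ S0, xx P p) * 2 ^ S0.card ≤
      C * (Real.sqrt P / Real.sqrt Z) := by
  classical
  obtain ⟨C1, hC1, hev⟩ := sum_inv_prime K hK
  refine ⟨c * Real.exp (600 * K * C1), by positivity, ?_⟩
  filter_upwards [hev, eventually_gt_atTop 1] with Z hZ1 hZ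
  intro P hZP hPZ hY
  have hsum := hZ1 P hPZ
  have hP0 : 0 < P := by linarith
  have hZ0 : 0 < Z := by linarith
  have hsZ : 0 < Real.sqrt Z := Real.sqrt_pos.mpr hZ0
  have hc0 : 0 < c := by linarith
  have hlP : Real.log P ≤ K * Real.log Z := NKNorm_log hP0 hPZ
  have hlZ : 0 < Real.log Z := Real.log_pos hZ
  have hlP0 : 0 ≤ Real.log P := Real.log_nonneg (by linarith)
  obtain ⟨a, ha⟩ : ∃ a : ℕ → ℝ, ∀ p, a p = 2 * xx P p / Real.sqrt p := ⟨_, fun _ => rfl⟩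
  have hxx : ∀ p ∈ QQ Z P, xx P p = 300 * Real.log P / (Real.sqrt p * Real.log p) := by
    intro p hp
    obtain ⟨hpp, hZp⟩ := QQ_gt Z P p hp
    have hpP := QQ_le Z P hP0.le p hp
    unfold xx
    rw [if_neg (by linarith), if_pos hpP]
  have hpos : ∀ p ∈ QQ Z P, 0 < (p : ℝ) ∧ 0 < Real.log p ∧ Real.log Z ≤ Real.log p := by
    intro p hp
    obtain ⟨hpp, hZp⟩ := QQ_gt Z P p hp
    have h1 : Real.log Z ≤ Real.log p := Real.log_le_log hZ0 hZp.le
    exact ⟨by linarith, by linarith, h1⟩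
  have ha0 : ∀ p ∈ QQ Z P, 0 ≤ a p := by
    intro p hp
    obtain ⟨h1, h2, h3⟩ := hpos p hp
    rw [ha, hxx p hp]
    positivity
  have haC : ∀ p ∈ QQ Z P, a p ≤ 600 * K * (1 / p) := by
    intro p hp
    obtain ⟨h1, h2, h3⟩ := hpos p hp
    have hs : Real.sqrt p * Real.sqrt p = p := Real.mul_self_sqrt h1.le
    have hsp : 0 < Real.sqrt (p : ℝ) := Real.sqrt_pos.mpr h1
    rw [ha, hxx p hp]
    have e : 2 * (300 * Real.log P / (Real.sqrt p * Real.log p)) / Real.sqrt p =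
        600 * (Real.log P / Real.log p) * (1 / p) := by
      have e0 : 2 * (300 * Real.log P / (Real.sqrt p * Real.log p)) / Real.sqrt p =
          600 * (Real.log P / Real.log p) * (1 / (Real.sqrt p * Real.sqrt p)) := by
        field_simp
        ring
      rw [e0, hs]
    rw [e]
    have h4 : Real.log P / Real.log p ≤ K := by
      rw [div_le_iff₀ h2]
      refine hlP.trans ?_
      exact mul_le_mul_of_nonneg_left h3 (Nat.cast_nonneg K)
    have h5 : 0 ≤ 1 / (p : ℝ) := by positivity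
    have h6 : 600 * (Real.log P / Real.log p) ≤ 600 * (K : ℝ) := by linarith
    exact mul_le_mul_of_nonneg_right h6 h5
  have hterm : ∀ S0 ∈ (QQ Z P).powerset,
      tau P (Real.sqrt Z / c) S0 * (∏ p ∈ S0, xx P p) * 2 ^ S0.card =
      c * (Real.sqrt P / Real.sqrt Z) * ∏ p ∈ S0, a p := by
    intro S0 hS0
    rw [mem_powerset] at hS0
    have hnS : Real.sqrt (nS S0) = ∏ p ∈ S0, Real.sqrt (p : ℝ) := by
      unfold nS
      exact Real.sqrt_prod S0 (fun p _ => Nat.cast_nonneg p)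
    have hprod : ∏ p ∈ S0, a p = (2 ^ S0.card * ∏ p ∈ S0, xx P p) / ∏ p ∈ S0, Real.sqrt (p : ℝ) := by
      rw [Finset.prod_congr rfl (fun p _ => ha p), Finset.prod_div_distrib, Finset.prod_mul_distrib,
        Finset.prod_const]
    unfold tau
    rw [Real.sqrt_div hP0.le, hnS, hprod]
    have hpp : 0 < ∏ p ∈ S0, Real.sqrt (p : ℝ) :=
      Finset.prod_pos fun p hp => Real.sqrt_pos.mpr (hpos p (hS0 hp)).1
    field_simp
  calc ∑ S0 ∈ SS Z P (QQ Z P), tau P (Real.sqrt Z / c) S0 * (∏ p ∈ S0, xx P p) * 2 ^ S0.card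
      = ∑ S0 ∈ SS Z P (QQ Z P), c * (Real.sqrt P / Real.sqrt Z) * ∏ p ∈ S0, a p := by
        refine Finset.sum_congr rfl fun S0 hS0 => hterm S0 ?_
        unfold SS at hS0
        exact (mem_filter.mp hS0).1
    _ ≤ ∑ S0 ∈ (QQ Z P).powerset, c * (Real.sqrt P / Real.sqrt Z) * ∏ p ∈ S0, a p := by
        unfold SS
        refine Finset.sum_le_sum_of_subset_of_nonneg (Finset.filter_subset _ _) ?_
        intro S0 hS0 _
        rw [mem_powerset] at hS0
        exact mul_nonneg (by positivity) (Finset.prod_nonneg fun p hp => ha0 p (hS0 hp))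
    _ = c * (Real.sqrt P / Real.sqrt Z) * ∏ p ∈ QQ Z P, (1 + a p) := by
        rw [← Finset.mul_sum, Finset.prod_one_add]
    _ ≤ c * (Real.sqrt P / Real.sqrt Z) * Real.exp (600 * K * C1) := by
        refine mul_le_mul_of_nonneg_left ?_ (by positivity)
        calc ∏ p ∈ QQ Z P, (1 + a p) ≤ ∏ p ∈ QQ Z P, Real.exp (a p) := by
              refine Finset.prod_le_prod (fun p hp => by linarith [ha0 p hp]) fun p _ => ?_
              linarith [Real.add_one_le_exp (a p)]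
          _ = Real.exp (∑ p ∈ QQ Z P, a p) := (Real.exp_sum _ _).symm
          _ ≤ Real.exp (600 * K * C1) := by
              apply Real.exp_le_exp.mpr
              calc ∑ p ∈ QQ Z P, a p ≤ ∑ p ∈ QQ Z P, 600 * K * (1 / (p : ℝ)) :=
                    Finset.sum_le_sum haC
                _ = 600 * K * ∑ p ∈ QQ Z P, 1 / (p : ℝ) := by rw [Finset.mul_sum]
                _ ≤ 600 * K * C1 := mul_le_mul_of_nonneg_left hsum (by positivity)
    _ = c * Real.exp (600 * K * C1) * (Real.sqrt P / Real.sqrt Z) := by ring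

end Pool.Agent.H.MP_b3c6db_nt
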