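import Pool.Agent.H.MP_b3c6db_nt.NK.Law
import Pool.Agent.H.MP_b3c6db_nt.NC.Tail

/-! The weight of the large `d` for the laws `wth`. -/

set_option autoImplicit false

namespace Pool.Agent.H.MP_b3c6db_nt

open Finset Filter

private theorem NKTailW_small {p : ℕ} (hp : p.Prime) {s : ℝ} (hs : 0 < s) :
    ((p : ℝ) ^ (-(2 * s))) * (p : ℝ) ^ s < 1 ∧
    (1 - (p : ℝ) ^ (-(2 * s))) / (1 - (p : ℝ) ^ (-(2 * s)) * (p : ℝ) ^ s) ≤ Real.exp 1 := by
  have hp0 : (0 : ℝ) < p := by exact_mod_cast hp.pos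
  have hp1 : (1 : ℝ) < p := by exact_mod_cast hp.one_lt
  have e1 : (p : ℝ) ^ (-(2 * s)) * (p : ℝ) ^ s = (p : ℝ) ^ (-s) := by
    rw [← Real.rpow_add hp0]
    congr 1
    ring
  have e2 : (p : ℝ) ^ (-(2 * s)) = ((p : ℝ) ^ (-s)) ^ 2 := by
    rw [← Real.rpow_natCast, ← Real.rpow_mul hp0.le]
    congr 1
    push_cast
    ring
  have hy1 : (p : ℝ) ^ (-s) < 1 := Real.rpow_lt_one_of_one_lt_of_neg hp1 (by linarith)
  have hy0 : 0 < (p : ℝ) ^ (-s) := Real.rpow_pos_of_pos hp0 _
  rw [e1, e2]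
  refine ⟨hy1, ?_⟩
  have hd : 0 < 1 - (p : ℝ) ^ (-s) := by linarith
  have e3 : (1 - ((p : ℝ) ^ (-s)) ^ 2) / (1 - (p : ℝ) ^ (-s)) = 1 + (p : ℝ) ^ (-s) := by
    rw [div_eq_iff hd.ne']
    ring
  rw [e3]
  have := Real.add_one_le_exp (1 : ℝ)
  linarith

private theorem NKTailW_exp {t : ℝ} (ht0 : 0 ≤ t) (ht : t ≤ 1 / 3) : Real.exp t ≤ 1 + 2 * t := by
  refine (Real.exp_bound_div_one_sub_of_interval ht0 (by linarith)).trans ?_
  rw [div_le_iff₀ (by linarith)]
  nlinarith

private theorem NKTailW_mid {x t : ℝ} (hx0 : 0 ≤ x) (hx : x ≤ 1 / 6) (ht0 : 0 ≤ t)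
    (ht : t ≤ 1 / 3) :
    x * Real.exp t < 1 ∧ 1 ≤ (1 - x) / (1 - x * Real.exp t) ∧
      (1 - x) / (1 - x * Real.exp t) ≤ 1 + 3 * x * t := by
  have h1 := NKTailW_exp ht0 ht
  have h0 : 0 < Real.exp t := Real.exp_pos t
  have h2 : x * Real.exp t ≤ 1 / 3 := by nlinarith
  have h3 : 0 < 1 - x * Real.exp t := by linarith
  refine ⟨by linarith, ?_, ?_⟩
  · rw [le_div_iff₀ h3]
    have h4 : 1 ≤ Real.exp t := Real.one_le_exp ht0
    nlinarith
  · rw [div_le_iff₀ h3]
    have h5 : 0 ≤ x * t := mul_nonneg hx0 ht0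
    have h6 : x * Real.exp t ≤ x * (1 + 2 * t) := mul_le_mul_of_nonneg_left h1 hx0
    nlinarith

private theorem NKTailW_affine (f g : (ℕ → ℝ) → ℝ) (Q : Finset ℕ)
    (hf : ∀ p ∈ Q, ∀ θ : ℕ → ℝ, f θ = (1 - θ p) * f (Function.update θ p 0) +
      θ p * f (Function.update θ p 1))
    (hg : ∀ p ∈ Q, ∀ θ : ℕ → ℝ, g θ = (1 - θ p) * g (Function.update θ p 0) +
      θ p * g (Function.update θ p 1))
    (h : ∀ θ : ℕ → ℝ, (∀ p, 0 ≤ θ p ∧ θ p ≤ 1) → (∀ p ∈ Q, θ p = 0 ∨ θ p = 1) → f θ ≤ g θ) :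
    ∀ θ : ℕ → ℝ, (∀ p, 0 ≤ θ p ∧ θ p ≤ 1) → f θ ≤ g θ := by
  induction Q using Finset.induction_on with
  | empty => exact fun θ h1 => h θ h1 (by simp)
  | insert p Q hp ih =>
    refine ih (fun q hq => hf q (mem_insert_of_mem hq)) (fun q hq => hg q (mem_insert_of_mem hq)) ?_
    intro θ hθ1 hθ
    have key : ∀ t : ℝ, (t = 0 ∨ t = 1) → ∀ q ∈ insert p Q,
        Function.update θ p t q = 0 ∨ Function.update θ p t q = 1 := by
      intro t ht q hq
      by_cases hqp : q = p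
      · subst hqp
        rw [Function.update_self]
        exact ht
      · rw [Function.update_of_ne hqp]
        exact hθ q ((mem_insert.1 hq).resolve_left hqp)
    have key2 : ∀ t : ℝ, 0 ≤ t → t ≤ 1 → ∀ q,
        0 ≤ Function.update θ p t q ∧ Function.update θ p t q ≤ 1 := by
      intro t ht0 ht1 q
      by_cases hqp : q = p
      · subst hqp
        rw [Function.update_self]
        exact ⟨ht0, ht1⟩
      · rw [Function.update_of_ne hqp]
        exact hθ1 q
    rw [hf p (mem_insert_self _ _) θ, hg p (mem_insert_self _ _) θ]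
    obtain ⟨h1, h2⟩ := hθ1 p
    exact add_le_add
      (mul_le_mul_of_nonneg_left (h _ (key2 0 le_rfl zero_le_one) (key 0 (Or.inl rfl)))
        (by linarith))
      (mul_le_mul_of_nonneg_left (h _ (key2 1 zero_le_one le_rfl) (key 1 (Or.inr rfl))) h1)

/-- the bound of Rankin for the laws `wth` with parameters in `[0, 1]` -/
private theorem NKTailW_rankin (x : ℕ → ℝ) (hx0 : ∀ p, 0 ≤ x p) (s : ℝ) (hs : 0 ≤ s) (N : ℕ)
    (hN : N ≠ 0) (Q : Finset ℕ) (hQ : ∀ p ∈ Q, p.Prime ∧ p ∣ N ∧ x p < 1)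
    (hx : ∀ p ∈ N.primeFactors, x p * (p : ℝ) ^ s < 1) (θ : ℕ → ℝ)
    (hθ : ∀ p, 0 ≤ θ p ∧ θ p ≤ 1) :
    ∑ d ∈ N.divisors, wth x N Q θ d * (d : ℝ) ^ s ≤
      ∏ p ∈ N.primeFactors, (if p ∈ Q then 1 + θ p * ((1 - x p) / (1 - x p * (p : ℝ) ^ s) - 1)
        else (1 - x p) / (1 - x p * (p : ℝ) ^ s)) := by
  refine NKTailW_affine (fun θ => ∑ d ∈ N.divisors, wth x N Q θ d * (d : ℝ) ^ s)
    (fun θ => ∏ p ∈ N.primeFactors, (if p ∈ Q then
      1 + θ p * ((1 - x p) / (1 - x p * (p : ℝ) ^ s) - 1)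
        else (1 - x p) / (1 - x p * (p : ℝ) ^ s))) Q ?_ ?_ ?_ θ hθ
  · intro p hp θ
    beta_reduce
    rw [mul_sum, mul_sum, ← sum_add_distrib]
    refine sum_congr rfl fun d _ => ?_
    rw [NKLaw_wth x N Q hp θ d]
    ring
  · intro p hp θ
    beta_reduce
    have hpN : p ∈ N.primeFactors := Nat.mem_primeFactors.2 ⟨(hQ p hp).1, (hQ p hp).2.1, hN⟩
    rw [← Finset.mul_prod_erase _ _ hpN, ← Finset.mul_prod_erase _ _ hpN,
      ← Finset.mul_prod_erase _ _ hpN]
    have h1 : ∀ t : ℝ, ∏ q ∈ N.primeFactors.erase p, (if q ∈ Q then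
        1 + Function.update θ p t q * ((1 - x q) / (1 - x q * (q : ℝ) ^ s) - 1)
          else (1 - x q) / (1 - x q * (q : ℝ) ^ s)) =
        ∏ q ∈ N.primeFactors.erase p, (if q ∈ Q then
        1 + θ q * ((1 - x q) / (1 - x q * (q : ℝ) ^ s) - 1)
          else (1 - x q) / (1 - x q * (q : ℝ) ^ s)) := fun t =>
      prod_congr rfl fun q hq => by rw [Function.update_of_ne (Finset.ne_of_mem_erase hq)]
    rw [h1, h1, if_pos hp, if_pos hp, if_pos hp, Function.update_self, Function.update_self]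
    ring
  · intro θ _ hθ
    beta_reduce
    have h1 : ∑ d ∈ N.divisors, wth x N Q θ d * (d : ℝ) ^ s =
        ∑ d ∈ N.divisors, ww (NKLaw_x x θ Q) N d * (d : ℝ) ^ s :=
      sum_congr rfl fun d hd => by
        rw [NKLaw_ww x N hN θ d (Nat.dvd_of_mem_divisors hd) Q hQ hθ]
    rw [h1]
    have e0 : ∀ p, p ∉ Q → NKLaw_x x θ Q p = x p := fun p hp => if_neg hp
    have e1 : ∀ p ∈ Q, NKLaw_x x θ Q p = θ p * x p := fun p hp => if_pos hp
    have h2 := rankin (NKLaw_x x θ Q) (fun p => by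
        by_cases hp : p ∈ Q
        · rw [e1 p hp]
          rcases hθ p hp with h | h
          · rw [h, zero_mul]
          · rw [h, one_mul]
            exact hx0 p
        · rw [e0 p hp]
          exact hx0 p) s hs N hN (fun p hp => by
        by_cases hpQ : p ∈ Q
        · rw [e1 p hpQ]
          rcases hθ p hpQ with h | h
          · rw [h, zero_mul, zero_mul]
            exact zero_lt_one
          · rw [h, one_mul]
            exact hx p hp
        · rw [e0 p hpQ]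
          exact hx p hp)
    refine h2.trans (le_of_eq (prod_congr rfl fun p _ => ?_))
    by_cases hpQ : p ∈ Q
    · rw [if_pos hpQ, e1 p hpQ]
      rcases hθ p hpQ with h | h
      · rw [h]
        simp
      · rw [h]
        ring
    · rw [if_neg hpQ, e0 p hpQ]

/-- the parameters with `1` instead of `1/x` -/
private noncomputable def NKTailW_th (P y : ℝ) (Q S R : Finset ℕ) (b : ℝ) (p : ℕ) : ℝ :=
  if p ∈ R then 1 else if p ∈ IS P Q S then b / tau P y S else 0

private theorem NKTailW_comp (x : ℕ → ℝ) (N : ℕ) (P y : ℝ) (Q S R : Finset ℕ) (b : ℝ) (d : ℕ)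
    (hR : R ⊆ Q) (hx : ∀ p ∈ Q, 0 < x p ∧ x p < 1) (hw : 0 ≤ ww x N d)
    (hb : 0 ≤ b / tau P y S) (hb1 : b / tau P y S ≤ 1) :
    wth x N Q (tht x P y Q S R b) d ≤
      (∏ p ∈ R, 1 / x p) * wth x N Q (NKTailW_th P y Q S R b) d := by
  unfold wth
  have h1 : ∏ p ∈ Q, cth x (tht x P y Q S R b) p d ≤
      ∏ p ∈ Q, (if p ∈ R then 1 / x p else 1) * cth x (NKTailW_th P y Q S R b) p d := by
    refine prod_le_prod (fun p hp => ?_) fun p hp => ?_
    · obtain ⟨g1, g2⟩ := hx p hp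
      unfold cth tht
      split_ifs
      · positivity
      · exact hb
      · exact le_rfl
      · rw [one_div, inv_mul_cancel₀ g1.ne']
        simp
      · refine div_nonneg ?_ (by linarith)
        nlinarith
      · simp only [zero_mul, sub_zero]
        exact div_nonneg zero_le_one (by linarith)
    · obtain ⟨g1, g2⟩ := hx p hp
      have g3 : 1 - x p ≠ 0 := by linarith
      unfold cth tht NKTailW_th
      split_ifs
      · rw [mul_one]
      · rw [one_mul]
      · rw [one_mul]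
      · rw [one_div, inv_mul_cancel₀ g1.ne', one_mul, div_self g3, sub_self, zero_div, mul_one]
        positivity
      · rw [one_mul]
      · rw [one_mul]
  have h2 : ∏ p ∈ Q, (if p ∈ R then 1 / x p else 1) * cth x (NKTailW_th P y Q S R b) p d =
      (∏ p ∈ R, 1 / x p) * ∏ p ∈ Q, cth x (NKTailW_th P y Q S R b) p d := by
    rw [prod_mul_distrib, Finset.prod_ite_mem, Finset.inter_eq_right.2 hR]
  rw [h2] at h1
  calc ww x N d * ∏ p ∈ Q, cth x (tht x P y Q S R b) p d ≤
      ww x N d * ((∏ p ∈ R, 1 / x p) * ∏ p ∈ Q, cth x (NKTailW_th P y Q S R b) p d) :=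
        mul_le_mul_of_nonneg_left h1 hw
    _ = _ := by ring

private theorem NKTailW_QQ {Z P : ℝ} (hZ : 0 ≤ Z) {p : ℕ} (hp : p ∈ QQ Z P) :
    p.Prime ∧ Z < p ∧ (p : ℝ) ≤ P := by
  unfold QQ at hp
  rw [mem_filter, mem_Ioc] at hp
  obtain ⟨⟨h1, h2⟩, h3⟩ := hp
  refine ⟨h3, (Nat.floor_lt hZ).1 h1, ?_⟩
  have hP : 0 ≤ P := by
    by_contra h4
    rw [Nat.floor_of_nonpos (not_le.1 h4).le] at h2
    have := h3.pos
    omega
  exact (Nat.le_floor_iff hP).1 h2

private theorem NKTailW_mem {Z P : ℝ} (hZ : 0 ≤ Z) {p : ℕ} (hp : p.Prime) (hpP : (p : ℝ) ≤ P)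
    (h : p ∉ QQ Z P) : (p : ℝ) ≤ Z := by
  by_contra h1
  apply h
  unfold QQ
  rw [mem_filter, mem_Ioc]
  exact ⟨⟨(Nat.floor_lt hZ).2 (not_le.1 h1), Nat.le_floor hpP⟩, hp⟩

theorem wth_tail (K' : ℝ) (hK : 1 ≤ K') : ∀ᶠ P : ℝ in atTop, ∀ Z y : ℝ, YY P ≤ Z →
    Real.log P ≤ K' * Real.log Z → 0 < y → ∀ S R : Finset ℕ, S ⊆ QQ Z P → nS S * Z ≤ P →
    R ⊆ S → ∀ b : ℝ, 0 ≤ b → b ≤ 1 → 1 ≤ tau P y S → ∀ (N : ℕ) (D : ℝ), N ≠ 0 →
    (∀ p ∈ N.primeFactors, (p : ℝ) ≤ P) → (∀ p ∈ QQ Z P, p ∣ N) →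
    Real.exp (24000 * K' * (Real.sqrt Z + y)) ≤ D →
    ∑ d ∈ N.divisors.filter (fun d : ℕ => D < (d : ℝ)),
      wth (xx P) N (QQ Z P) (tht (xx P) P y (QQ Z P) S R b) d ≤ 1 / P ^ 2 := by
  have hYt : Tendsto YY atTop atTop :=
    (tendsto_pow_atTop (by norm_num : (8 : ℕ) ≠ 0)).comp Real.tendsto_log_atTop
  obtain ⟨X0, hX0⟩ := eventually_atTop.1 nc_sum_inv_sqrt
  have hK0 : 0 < K' := by linarith
  have hexp : ∀ᶠ L : ℝ in atTop, 16 * L ^ 13 ≤ Real.exp (L / (2 * K')) := by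
    have h1 : Tendsto (fun L : ℝ => L / (2 * K')) atTop atTop :=
      tendsto_id.atTop_div_const (by positivity)
    have h2 := (Real.tendsto_exp_div_pow_atTop 13).comp h1
    filter_upwards [h2.eventually_ge_atTop (16 * (2 * K') ^ 13), eventually_gt_atTop 0] with
      L hL hL0
    have h3 : 0 < (L / (2 * K')) ^ 13 := by positivity
    have h4 : 16 * (2 * K') ^ 13 ≤ Real.exp (L / (2 * K')) / (L / (2 * K')) ^ 13 := hL
    rw [le_div_iff₀ h3] at h4
    refine le_trans (le_of_eq ?_) h4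
    rw [div_pow]
    field_simp
  filter_upwards [xx_nonneg, xx_mid, hYt.eventually_ge_atTop X0,
    Real.tendsto_log_atTop.eventually hexp,
    Real.tendsto_log_atTop.eventually_ge_atTop (10 ^ 20), eventually_gt_atTop 1] with
    P hxx0 hmid hYX hexpL hL hP Z y hYZ hLZ hy S R hS hSZ hRS b hb0 hb1 hτ N D hN hNP hQN hD
  have hP0 : 0 < P := by linarith
  obtain ⟨L, hLdef⟩ : ∃ L, L = Real.log P := ⟨_, rfl⟩
  rw [← hLdef] at hL hexpL hLZ
  have hL1 : (1 : ℝ) ≤ L := le_trans (by norm_num) hL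
  have hL3 : (3 : ℝ) ≤ L := le_trans (by norm_num) hL
  have hL0 : 0 < L := by linarith
  have hPL : P = Real.exp L := by rw [hLdef, Real.exp_log hP0]
  have hloglog : 1 ≤ Real.log L := by
    rw [Real.le_log_iff_exp_le hL0]
    have := Real.exp_one_lt_d9
    linarith
  have hlogL : Real.log L ≤ L := by
    have := Real.log_le_sub_one_of_pos hL0
    linarith
  have hYY : YY P = L ^ 8 := by
    unfold YY
    rw [hLdef]
  have hsqY : Real.sqrt (YY P) = L ^ 4 := by
    rw [hYY, show L ^ 8 = (L ^ 4) ^ 2 by ring, Real.sqrt_sq (by positivity)]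
  have hlogY : Real.log (YY P) = 8 * Real.log L := by
    rw [hYY, Real.log_pow]
    norm_num
  obtain ⟨s, hsdef⟩ : ∃ s, s = 1 / (19200 * L ^ 4 * Real.log L) := ⟨_, rfl⟩
  have hs0 : s0 P = 2 * s := by
    unfold s0
    rw [hsqY, hlogY, hsdef]
    have : Real.log L ≠ 0 := by linarith
    field_simp
    norm_num
  have hden : 0 < 19200 * L ^ 4 * Real.log L := by
    have : 0 < Real.log L := by linarith
    positivity
  have hspos : 0 < s := by
    rw [hsdef]
    positivity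
  have hsL : s * L ≤ 1 / 3 := by
    rw [hsdef, div_mul_eq_mul_div, one_mul, div_le_iff₀ hden]
    have h1 : L ≤ L ^ 4 := le_self_pow₀ hL1 (by norm_num)
    have h2 : L ^ 4 ≤ L ^ 4 * Real.log L := le_mul_of_one_le_right (by positivity) hloglog
    have h3 : 0 ≤ L ^ 4 * Real.log L := by positivity
    nlinarith
  have hslow : 1 / (19200 * L ^ 5) ≤ s := by
    rw [hsdef]
    refine one_div_le_one_div_of_le hden ?_
    have : L ^ 4 * Real.log L ≤ L ^ 4 * L := mul_le_mul_of_nonneg_left hlogL (by positivity)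
    nlinarith
  -- the number `Z`
  have hY1 : 1 ≤ YY P := by
    rw [hYY]
    exact one_le_pow₀ hL1
  have hZ1 : 1 ≤ Z := hY1.trans hYZ
  have hZ0 : 0 < Z := by linarith
  have hlogZ : 0 < Real.log Z := by
    by_contra h
    have : K' * Real.log Z ≤ 0 := mul_nonpos_of_nonneg_of_nonpos hK0.le (not_lt.1 h)
    linarith
  have hLK : L / Real.log Z ≤ K' := by
    rw [div_le_iff₀ hlogZ]
    exact hLZ
  have hsqZ : 16 * L ^ 13 ≤ Real.sqrt Z := by
    refine hexpL.trans ?_
    have h1 : Real.sqrt Z = Real.exp (Real.log Z / 2) := by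
      rw [Real.exp_half, Real.exp_log hZ0]
    rw [h1]
    refine Real.exp_le_exp.2 ?_
    rw [div_le_iff₀ (by positivity)]
    linarith
  have hbig : L ^ 8 + 5 * L ≤ 16800 * K' * s * Real.sqrt Z := by
    have h1 : 1 / (19200 * L ^ 5) * (16 * L ^ 13) ≤ s * Real.sqrt Z :=
      mul_le_mul hslow hsqZ (by positivity) hspos.le
    have h2 : 1 / (19200 * L ^ 5) * (16 * L ^ 13) = L ^ 8 / 1200 := by
      field_simp
      norm_num
    rw [h2] at h1
    have h3 : L ≤ L ^ 8 := le_self_pow₀ hL1 (by norm_num)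
    have h4 : 0 ≤ s * Real.sqrt Z := by positivity
    have h5 : 1 * (s * Real.sqrt Z) ≤ K' * (s * Real.sqrt Z) := mul_le_mul_of_nonneg_right hK h4
    have h6 : 16800 * K' * s * Real.sqrt Z = 16800 * (K' * (s * Real.sqrt Z)) := by ring
    rw [h6]
    linarith
  -- the set `S`
  have hQp : ∀ p ∈ QQ Z P, p.Prime ∧ Z < p ∧ (p : ℝ) ≤ P := fun p hp => NKTailW_QQ hZ0.le hp
  have hnS0 : 0 < nS S := by
    unfold nS
    exact Finset.prod_pos fun p hp => by exact_mod_cast (hQp p (hS hp)).1.pos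
  have hnSP : nS S ≤ P := by
    have h1 : nS S * 1 ≤ nS S * Z := mul_le_mul_of_nonneg_left hZ1 hnS0.le
    linarith
  obtain ⟨X, hXdef⟩ : ∃ X, X = P / nS S := ⟨_, rfl⟩
  have hXZ : Z ≤ X := by
    rw [hXdef, le_div_iff₀ hnS0, mul_comm]
    exact hSZ
  have hX0' : 0 < X := by linarith
  have hlogX : Real.log Z ≤ Real.log X := Real.log_le_log hZ0 hXZ
  obtain ⟨τ, hτdef⟩ : ∃ τ, τ = tau P y S := ⟨_, rfl⟩
  rw [← hτdef] at hτ
  have hτ0 : 0 < τ := by linarith
  have hτX : Real.sqrt X / τ = y := by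
    have h1 : τ = Real.sqrt X / y := by
      rw [hτdef, hXdef]
      rfl
    have h2 : 0 < Real.sqrt X := Real.sqrt_pos.2 hX0'
    rw [h1]
    field_simp
  have hbτ0 : 0 ≤ b / τ := div_nonneg hb0 hτ0.le
  have hbτ1 : b / τ ≤ 1 / τ := div_le_div_of_nonneg_right hb1 hτ0.le
  have hτ1 : 1 / τ ≤ 1 := by
    rw [div_le_one hτ0]
    exact hτ
  have hRn : (∏ p ∈ R, (p : ℝ)) ≤ P := by
    refine le_trans ?_ hnSP
    have h1 : (∏ p ∈ R, p) ∣ ∏ p ∈ S, p := Finset.prod_dvd_prod_of_subset R S (fun p => p) hRS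
    have h2 : (∏ p ∈ R, p) ≤ ∏ p ∈ S, p := by
      refine Nat.le_of_dvd ?_ h1
      exact Finset.prod_pos fun p hp => (hQp p (hS hp)).1.pos
    unfold nS
    have h3 : ((∏ p ∈ R, p : ℕ) : ℝ) ≤ ((∏ p ∈ S, p : ℕ) : ℝ) := Nat.cast_le.2 h2
    rw [Nat.cast_prod, Nat.cast_prod] at h3
    exact h3
  have hRcard : (R.card : ℝ) ≤ 2 * L := by
    have h1 : ∏ p ∈ R, (2 : ℝ) ≤ ∏ p ∈ R, (p : ℝ) :=
      prod_le_prod (fun _ _ => by norm_num) fun p hp => by
        exact_mod_cast (hQp p (hS (hRS hp))).1.two_le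
    rw [prod_const] at h1
    have h2 := Real.log_le_log (by positivity) (h1.trans hRn)
    rw [Real.log_pow, ← hLdef] at h2
    have h3 := Real.log_two_gt_d9
    have h4 : (R.card : ℝ) * (1 / 2) ≤ R.card * Real.log 2 :=
      mul_le_mul_of_nonneg_left (by linarith) (Nat.cast_nonneg _)
    linarith
  -- the parameters
  obtain ⟨Q, hQdef⟩ : ∃ Q, Q = QQ Z P := ⟨_, rfl⟩
  rw [← hQdef] at hQp hQN hS
  obtain ⟨θ, hθdef⟩ : ∃ θ, θ = NKTailW_th P y Q S R b := ⟨_, rfl⟩
  have hθR : ∀ p ∈ R, θ p = 1 := fun p hp => by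
    rw [hθdef]
    exact if_pos hp
  have hθI : ∀ p, p ∉ R → p ∈ IS P Q S → θ p = b / τ := fun p hp hp2 => by
    rw [hθdef, hτdef]
    unfold NKTailW_th
    rw [if_neg hp, if_pos hp2]
  have hθ0 : ∀ p, p ∉ R → p ∉ IS P Q S → θ p = 0 := fun p hp hp2 => by
    rw [hθdef]
    unfold NKTailW_th
    rw [if_neg hp, if_neg hp2]
  have hθ01 : ∀ p, 0 ≤ θ p ∧ θ p ≤ 1 := by
    intro p
    by_cases h1 : p ∈ R
    · rw [hθR p h1]
      exact ⟨zero_le_one, le_rfl⟩
    · by_cases h2 : p ∈ IS P Q S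
      · rw [hθI p h1 h2]
        exact ⟨hbτ0, hbτ1.trans hτ1⟩
      · rw [hθ0 p h1 h2]
        exact ⟨le_rfl, zero_le_one⟩
  have hQx : ∀ p ∈ Q, 0 < xx P p ∧ xx P p ≤ 1 / 6 := fun p hp => by
    obtain ⟨g1, g2, g3⟩ := hQp p hp
    obtain ⟨m1, m2, -⟩ := hmid p g1 (lt_of_le_of_lt hYZ g2) g3
    exact ⟨m1, m2⟩
  -- the factors
  obtain ⟨H, hH⟩ : ∃ H : ℕ → ℝ, H = fun p : ℕ =>
    (if (p : ℝ) ≤ YY P then 1 else 0) + (if (p : ℝ) ≤ Z then 900 * s * L * (1 / Real.sqrt p) else 0) +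
    (if p ∈ R then 1 else 0) + (if p ∈ IS P Q S then 900 * s * L / τ * (1 / Real.sqrt p) else 0) :=
    ⟨_, rfl⟩
  have hnn2 : ∀ p : ℕ, 0 ≤ 900 * s * L * (1 / Real.sqrt p) := fun p => by positivity
  have hnn4 : ∀ p : ℕ, 0 ≤ 900 * s * L / τ * (1 / Real.sqrt p) := fun p => by positivity
  have hfac : ∀ p ∈ N.primeFactors, xx P p ≤ 1 ∧ xx P p * (p : ℝ) ^ s < 1 ∧
      0 ≤ (if p ∈ Q then 1 + θ p * ((1 - xx P p) / (1 - xx P p * (p : ℝ) ^ s) - 1)
        else (1 - xx P p) / (1 - xx P p * (p : ℝ) ^ s)) ∧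
      (if p ∈ Q then 1 + θ p * ((1 - xx P p) / (1 - xx P p * (p : ℝ) ^ s) - 1)
        else (1 - xx P p) / (1 - xx P p * (p : ℝ) ^ s)) ≤ Real.exp (H p) := by
    intro p hp
    have hpp : p.Prime := Nat.prime_of_mem_primeFactors hp
    have hp0 : (0 : ℝ) < p := by exact_mod_cast hpp.pos
    have hp1 : (1 : ℝ) < p := by exact_mod_cast hpp.one_lt
    by_cases hY : (p : ℝ) ≤ YY P
    · have hpQ : p ∉ Q := fun h => by
        have := (hQp p h).2.1
        linarith
      have e : xx P p = (p : ℝ) ^ (-(2 * s)) := by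
        unfold xx
        rw [if_pos hY, hs0]
      rw [if_neg hpQ, e]
      obtain ⟨f1, f2⟩ := NKTailW_small hpp hspos
      have f3 : (p : ℝ) ^ (-(2 * s)) ≤ 1 :=
        (Real.rpow_lt_one_of_one_lt_of_neg hp1 (by linarith)).le
      refine ⟨f3, f1, div_nonneg (by linarith) (by linarith), f2.trans (Real.exp_le_exp.2 ?_)⟩
      rw [hH]
      beta_reduce
      rw [if_pos hY]
      have t2 : 0 ≤ (if (p : ℝ) ≤ Z then 900 * s * L * (1 / Real.sqrt p) else 0) := by
        split_ifs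
        · exact hnn2 p
        · exact le_rfl
      have t3 : (0 : ℝ) ≤ (if p ∈ R then 1 else 0) := by
        split_ifs
        · exact zero_le_one
        · exact le_rfl
      have t4 : 0 ≤ (if p ∈ IS P Q S then 900 * s * L / τ * (1 / Real.sqrt p) else 0) := by
        split_ifs
        · exact hnn4 p
        · exact le_rfl
      linarith
    · have hY' : YY P < p := not_le.mp hY
      obtain ⟨hm1, hm2, -⟩ := hmid p hpp hY' (hNP p hp)
      have hlogp0 : 0 < Real.log p := Real.log_pos hp1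
      have hlogp : Real.log p ≤ L := by
        rw [hLdef]
        exact Real.log_le_log hp0 (hNP p hp)
      have e : xx P p = 300 * L / (Real.sqrt p * Real.log p) := by
        unfold xx
        rw [if_neg hY, if_pos (hNP p hp), hLdef]
      have hsp : 0 < Real.sqrt (p : ℝ) := Real.sqrt_pos.mpr hp0
      have e3 : (p : ℝ) ^ s = Real.exp (s * Real.log p) := by
        rw [Real.rpow_def_of_pos hp0, mul_comm]
      have e4 : 3 * xx P p * (s * Real.log p) = 900 * s * L * (1 / Real.sqrt p) := by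
        rw [e]
        field_simp
        norm_num
      have ht : s * Real.log p ≤ 1 / 3 :=
        (mul_le_mul_of_nonneg_left hlogp hspos.le).trans hsL
      have ht0 : 0 ≤ s * Real.log p := mul_nonneg hspos.le hlogp0.le
      obtain ⟨h3, h4, h5⟩ := NKTailW_mid hm1.le hm2 ht0 ht
      have h6 : 900 * s * L * (1 / Real.sqrt p) ≤ 1 := by
        rw [← e4]
        nlinarith
      rw [e4] at h5
      rw [e3]
      obtain ⟨G, hG⟩ : ∃ G, G = (1 - xx P p) / (1 - xx P p * Real.exp (s * Real.log p)) :=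
        ⟨_, rfl⟩
      rw [← hG] at h4 h5 ⊢
      refine ⟨by linarith, h3, ?_, ?_⟩
      · split_ifs
        · have := mul_nonneg (hθ01 p).1 (by linarith : 0 ≤ G - 1)
          linarith
        · linarith
      · have t3 : (0 : ℝ) ≤ (if p ∈ R then 1 else 0) := by
          split_ifs
          · exact zero_le_one
          · exact le_rfl
        have t4 : 0 ≤ (if p ∈ IS P Q S then 900 * s * L / τ * (1 / Real.sqrt p) else 0) := by
          split_ifs
          · exact hnn4 p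
          · exact le_rfl
        have t2 : 0 ≤ (if (p : ℝ) ≤ Z then 900 * s * L * (1 / Real.sqrt p) else 0) := by
          split_ifs
          · exact hnn2 p
          · exact le_rfl
        have hHp : H p = 0 + (if (p : ℝ) ≤ Z then 900 * s * L * (1 / Real.sqrt p) else 0) +
            (if p ∈ R then 1 else 0) +
            (if p ∈ IS P Q S then 900 * s * L / τ * (1 / Real.sqrt p) else 0) := by
          rw [hH]
          beta_reduce
          rw [if_neg hY]
        have hexpH := Real.add_one_le_exp (H p)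
        refine le_trans ?_ hexpH
        by_cases hpQ : p ∈ Q
        · rw [if_pos hpQ]
          by_cases hpR : p ∈ R
          · rw [hθR p hpR]
            rw [if_pos hpR] at hHp
            linarith
          · by_cases hpI : p ∈ IS P Q S
            · rw [hθI p hpR hpI]
              rw [if_pos hpI] at hHp
              have h7 : b / τ * (G - 1) ≤ 1 / τ * (900 * s * L * (1 / Real.sqrt p)) :=
                mul_le_mul hbτ1 (by linarith) (by linarith) (by positivity)
              have h8 : 1 / τ * (900 * s * L * (1 / Real.sqrt p)) =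
                  900 * s * L / τ * (1 / Real.sqrt p) := by ring
              linarith
            · rw [hθ0 p hpR hpI, zero_mul]
              linarith
        · rw [if_neg hpQ]
          have hpZ : (p : ℝ) ≤ Z := by
            rw [hQdef] at hpQ
            exact NKTailW_mem hZ0.le hpp (hNP p hp) hpQ
          rw [if_pos hpZ] at hHp
          linarith
  have hprod : ∏ p ∈ N.primeFactors,
      (if p ∈ Q then 1 + θ p * ((1 - xx P p) / (1 - xx P p * (p : ℝ) ^ s) - 1)
        else (1 - xx P p) / (1 - xx P p * (p : ℝ) ^ s)) ≤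
      Real.exp (∑ p ∈ N.primeFactors, H p) := by
    rw [Real.exp_sum]
    exact prod_le_prod (fun p hp => (hfac p hp).2.2.1) fun p hp => (hfac p hp).2.2.2
  have hsum : ∑ p ∈ N.primeFactors, H p ≤ L ^ 8 + 7200 * K' * s * Real.sqrt Z + 2 * L +
      7200 * K' * s * y := by
    rw [hH, sum_add_distrib, sum_add_distrib, sum_add_distrib]
    have h1 : ∑ p ∈ N.primeFactors, (if (p : ℝ) ≤ YY P then (1 : ℝ) else 0) ≤ L ^ 8 := by
      rw [← sum_filter, sum_const, nsmul_eq_mul, mul_one]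
      have hsub : N.primeFactors.filter (fun p : ℕ => (p : ℝ) ≤ YY P) ⊆ Ioc 0 ⌊YY P⌋₊ := by
        intro p hp
        rw [mem_filter] at hp
        rw [mem_Ioc]
        exact ⟨(Nat.prime_of_mem_primeFactors hp.1).pos, Nat.le_floor hp.2⟩
      have hc := card_le_card hsub
      rw [Nat.card_Ioc, Nat.sub_zero] at hc
      rw [← hYY]
      calc ((N.primeFactors.filter (fun p : ℕ => (p : ℝ) ≤ YY P)).card : ℝ) ≤ ⌊YY P⌋₊ := by
            exact_mod_cast hc
        _ ≤ YY P := Nat.floor_le (by linarith)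
    have h2 : ∑ p ∈ N.primeFactors, (if (p : ℝ) ≤ Z then 900 * s * L * (1 / Real.sqrt p) else 0) ≤
        7200 * K' * s * Real.sqrt Z := by
      rw [← sum_filter, ← mul_sum]
      have h3 := hX0 Z (hYX.trans hYZ) (N.primeFactors.filter (fun p : ℕ => (p : ℝ) ≤ Z))
        fun p hp => by
          rw [mem_filter] at hp
          exact ⟨Nat.prime_of_mem_primeFactors hp.1, hp.2⟩
      have h4 := mul_le_mul_of_nonneg_left h3 (by positivity : 0 ≤ 900 * s * L)
      refine h4.trans ?_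
      have h5 : 900 * s * L * (8 * Real.sqrt Z / Real.log Z) =
          7200 * s * Real.sqrt Z * (L / Real.log Z) := by ring
      rw [h5]
      have h6 := mul_le_mul_of_nonneg_left hLK (by positivity : 0 ≤ 7200 * s * Real.sqrt Z)
      linarith
    have h3 : ∑ p ∈ N.primeFactors, (if p ∈ R then (1 : ℝ) else 0) ≤ 2 * L := by
      rw [← sum_filter, sum_const, nsmul_eq_mul, mul_one]
      refine le_trans ?_ hRcard
      have hsub : N.primeFactors.filter (fun p : ℕ => p ∈ R) ⊆ R := fun p hp =>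
        (mem_filter.1 hp).2
      exact_mod_cast card_le_card hsub
    have h4 : ∑ p ∈ N.primeFactors,
        (if p ∈ IS P Q S then 900 * s * L / τ * (1 / Real.sqrt p) else 0) ≤
        7200 * K' * s * y := by
      rw [← sum_filter, ← mul_sum]
      have h5 := hX0 X ((hYX.trans hYZ).trans hXZ)
        (N.primeFactors.filter (fun p : ℕ => p ∈ IS P Q S)) fun p hp => by
          rw [mem_filter] at hp
          refine ⟨Nat.prime_of_mem_primeFactors hp.1, ?_⟩
          have h6 := (mem_filter.1 hp.2).2.2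
          rw [hXdef, le_div_iff₀ hnS0]
          linarith
      have h6 := mul_le_mul_of_nonneg_left h5 (by positivity : 0 ≤ 900 * s * L / τ)
      refine h6.trans ?_
      have hlX0 : 0 < Real.log X := hlogZ.trans_le hlogX
      have h7 : 900 * s * L / τ * (8 * Real.sqrt X / Real.log X) =
          7200 * s * (Real.sqrt X / τ) * (L / Real.log X) := by ring
      rw [h7, hτX]
      have h8 : L / Real.log X ≤ K' :=
        (div_le_div_of_nonneg_left hL0.le hlogZ hlogX).trans hLK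
      have h9 := mul_le_mul_of_nonneg_left h8 (by positivity : 0 ≤ 7200 * s * y)
      linarith
    linarith
  -- the weights
  have hD0 : 0 < D := lt_of_lt_of_le (Real.exp_pos _) hD
  have hww : ∀ d ∈ N.divisors, 0 ≤ ww (xx P) N d := fun d hd =>
    ww_nonneg (xx P) hxx0 N (fun p hp => (hfac p hp).1) d (Nat.dvd_of_mem_divisors hd) hN
  have hwn : ∀ d ∈ N.divisors, 0 ≤ wth (xx P) N Q θ d := fun d hd =>
    wth_nonneg (xx P) N Q θ d (fun p hp => by
      obtain ⟨g1, g2⟩ := hQx p hp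
      obtain ⟨g3, g4⟩ := hθ01 p
      refine ⟨g3, ?_, by linarith⟩
      have : θ p * xx P p ≤ 1 * xx P p := mul_le_mul_of_nonneg_right g4 g1.le
      linarith) (hww d hd)
  have hDs : 0 < D ^ (-s) := Real.rpow_pos_of_pos hD0 _
  have hran : ∑ d ∈ N.divisors.filter (fun d : ℕ => D < (d : ℝ)), wth (xx P) N Q θ d ≤
      (∑ d ∈ N.divisors, wth (xx P) N Q θ d * (d : ℝ) ^ s) * D ^ (-s) := by
    rw [sum_mul]
    refine le_trans (sum_le_sum (g := fun d : ℕ => wth (xx P) N Q θ d * (d : ℝ) ^ s * D ^ (-s))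
      fun d hd => ?_) (sum_le_sum_of_subset_of_nonneg (filter_subset _ _) fun d hd _ => ?_)
    · rw [mem_filter] at hd
      have h1 : 1 ≤ (d : ℝ) ^ s * D ^ (-s) := by
        have h2 : D ^ s ≤ (d : ℝ) ^ s := Real.rpow_le_rpow hD0.le hd.2.le hspos.le
        have h3 : D ^ s * D ^ (-s) = 1 := by
          rw [← Real.rpow_add hD0, add_neg_cancel, Real.rpow_zero]
        rw [← h3]
        exact mul_le_mul_of_nonneg_right h2 hDs.le
      show wth (xx P) N Q θ d ≤ wth (xx P) N Q θ d * (d : ℝ) ^ s * D ^ (-s)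
      rw [mul_assoc]
      exact le_mul_of_one_le_right (hwn d hd.1) h1
    · have h1 : (0 : ℝ) ≤ (d : ℝ) ^ s := Real.rpow_nonneg (Nat.cast_nonneg d) _
      exact mul_nonneg (mul_nonneg (hwn d hd) h1) hDs.le
  have hDle : D ^ (-s) ≤ Real.exp (-(24000 * K' * (Real.sqrt Z + y) * s)) := by
    rw [Real.rpow_def_of_pos hD0]
    refine Real.exp_le_exp.mpr ?_
    have h1 : 24000 * K' * (Real.sqrt Z + y) ≤ Real.log D :=
      (Real.le_log_iff_exp_le hD0).mpr hD
    have h2 := mul_le_mul_of_nonneg_right h1 hspos.le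
    linarith
  have hrk := NKTailW_rankin (xx P) hxx0 s hspos.le N hN Q (fun p hp => by
      obtain ⟨g1, g2⟩ := hQx p hp
      exact ⟨(hQp p hp).1, hQN p hp, by linarith⟩) (fun p hp => (hfac p hp).2.1) θ hθ01
  have hXs := (hrk.trans hprod).trans (Real.exp_le_exp.mpr hsum)
  -- the comparison
  have hcomp : ∀ d ∈ N.divisors, wth (xx P) N Q (tht (xx P) P y Q S R b) d ≤
      P * wth (xx P) N Q θ d := by
    intro d hd
    have h1 := NKTailW_comp (xx P) N P y Q S R b d (hRS.trans hS) (fun p hp => by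
        obtain ⟨g1, g2⟩ := hQx p hp
        exact ⟨g1, by linarith⟩) (hww d hd) (by rw [← hτdef]; exact hbτ0)
        (by rw [← hτdef]; exact hbτ1.trans hτ1)
    rw [← hθdef] at h1
    refine h1.trans (mul_le_mul_of_nonneg_right ?_ (hwn d hd))
    refine le_trans (prod_le_prod (fun p hp => ?_) fun p hp => ?_) hRn
    · have := (hQx p (hS (hRS hp))).1
      positivity
    · obtain ⟨g1, g2, g3⟩ := hQp p (hS (hRS hp))
      have hp0 : (0 : ℝ) < p := by exact_mod_cast g1.pos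
      have hp1 : (1 : ℝ) < p := by exact_mod_cast g1.one_lt
      have hlogp0 : 0 < Real.log p := Real.log_pos hp1
      have hlogp : Real.log p ≤ L := by
        rw [hLdef]
        exact Real.log_le_log hp0 g3
      have e : xx P p = 300 * L / (Real.sqrt p * Real.log p) := by
        unfold xx
        rw [if_neg (not_le.2 (lt_of_le_of_lt hYZ g2)), if_pos g3, hLdef]
      have hsp : 0 < Real.sqrt (p : ℝ) := Real.sqrt_pos.mpr hp0
      have hsp1 : Real.sqrt (p : ℝ) ≤ p := by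
        rw [Real.sqrt_le_left hp0.le]
        nlinarith
      rw [e, one_div_div, div_le_iff₀ (by positivity)]
      calc Real.sqrt p * Real.log p ≤ p * L := mul_le_mul hsp1 hlogp hlogp0.le hp0.le
        _ ≤ p * (300 * L) := mul_le_mul_of_nonneg_left (by linarith) hp0.le
  rw [← hQdef]
  calc ∑ d ∈ N.divisors.filter (fun d : ℕ => D < (d : ℝ)),
        wth (xx P) N Q (tht (xx P) P y Q S R b) d
      ≤ ∑ d ∈ N.divisors.filter (fun d : ℕ => D < (d : ℝ)), P * wth (xx P) N Q θ d :=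
        sum_le_sum fun d hd => hcomp d (mem_filter.1 hd).1
    _ = P * ∑ d ∈ N.divisors.filter (fun d : ℕ => D < (d : ℝ)), wth (xx P) N Q θ d := by
        rw [mul_sum]
    _ ≤ P * ((∑ d ∈ N.divisors, wth (xx P) N Q θ d * (d : ℝ) ^ s) * D ^ (-s)) :=
        mul_le_mul_of_nonneg_left hran hP0.le
    _ ≤ P * (Real.exp (L ^ 8 + 7200 * K' * s * Real.sqrt Z + 2 * L + 7200 * K' * s * y) *
        Real.exp (-(24000 * K' * (Real.sqrt Z + y) * s))) :=
        mul_le_mul_of_nonneg_left (mul_le_mul hXs hDle hDs.le (Real.exp_pos _).le) hP0.le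
    _ = Real.exp (L + (L ^ 8 + 7200 * K' * s * Real.sqrt Z + 2 * L + 7200 * K' * s * y +
        -(24000 * K' * (Real.sqrt Z + y) * s))) := by
        rw [← Real.exp_add, Real.exp_add L, ← hPL]
    _ ≤ Real.exp (-(2 * L)) := by
        refine Real.exp_le_exp.mpr ?_
        have h1 : 0 ≤ K' * s * y := by positivity
        have h2 : 24000 * K' * (Real.sqrt Z + y) * s =
            24000 * K' * s * Real.sqrt Z + 24000 * (K' * s * y) := by ring
        have h3 : 7200 * K' * s * y = 7200 * (K' * s * y) := by ring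
        rw [h2, h3]
        linarith
    _ = 1 / P ^ 2 := by
        rw [Real.exp_neg, two_mul, Real.exp_add, ← hPL, ← sq, one_div]

end Pool.Agent.H.MP_b3c6db_nt
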