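import Pool.Agent.H.MP_b3c6db_nt.NL.Upper
import Pool.Agent.H.MP_b3c6db_nt.NL.Sharp

/-! From a weight on the divisors of `N` to a bound for `deltaL1`.

PROOF: as in NL/Upper.lean (copy `NLUpper_filter`, `NLUpper_sum`, `NLUpper_geom` and the call of `deltaL1_sharp` there): `D = e^(J/8000)`, `B = e^(3J/2)`,
`X = e^(5J)`, `VS = Icc 1 ⌊D⌋₊`, `w d = if d ∣ N then 2 * w0 d else 0`. `∑ w = 2 (1 - ∑_{d > D} w0) ≥ 2 (1 - η) ≥ 1`, `∑ |w| ≤ 2 W`. `hloc` of `deltaL1_sharp`: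
`B D² < 2^(4J)`, `KK_good` gives the conditions on `Kc = KK (1/400) J u`, the cut part is `≤ 2 * 401 * η`, so `Lb = 2 Lb0 + 802 η`. -/

set_option autoImplicit false

namespace Pool.Agent.H.MP_b3c6db_nt

open Finset Filter

private lemma NKUpA_filter (N : ℕ) (hN : N ≠ 0) (D : ℝ) (hD : 0 ≤ D) :
    N.divisors.filter (fun d : ℕ => ¬ D < (d : ℝ)) = (Icc 1 ⌊D⌋₊).filter (fun d => d ∣ N) := by
  ext d
  rw [mem_filter, mem_filter, Nat.mem_divisors, mem_Icc, not_lt]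
  constructor
  · rintro ⟨⟨h3, h4⟩, h5⟩
    exact ⟨⟨Nat.pos_of_dvd_of_pos h3 (Nat.pos_of_ne_zero hN), Nat.le_floor h5⟩, h3⟩
  · rintro ⟨⟨h3, h4⟩, h5⟩
    exact ⟨⟨h5, hN⟩, (Nat.le_floor_iff hD).1 h4⟩

/-- the sum over `Icc 1 ⌊D⌋₊` -/
private lemma NKUpA_sum {R : Type*} [CommRing R] (f : ℕ → R) (N : ℕ) (hN : N ≠ 0) (D : ℝ)
    (hD : 0 ≤ D) :
    ∑ d ∈ Icc 1 ⌊D⌋₊, (if d ∣ N then f d else 0) =
      ∑ d ∈ N.divisors, f d - ∑ d ∈ N.divisors.filter (fun d : ℕ => D < (d : ℝ)), f d := by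
  classical
  have h1 := sum_filter_add_sum_filter_not N.divisors (fun d : ℕ => D < (d : ℝ)) f
  rw [← h1, NKUpA_filter N hN D hD, add_sub_cancel_left, sum_filter]

private lemma NKUpA_geom (J : ℕ) (hJ : 1608 ≤ J) :
    ∑ m ∈ range J, Real.exp (-(1 / 400 * (m : ℝ))) ≤ 401 := by
  obtain ⟨-, -, h3⟩ := KK_good J hJ 0 (by rw [abs_zero]; exact (Real.exp_pos _).le)
  have h5 : KK (1 / 400) J 0 = ((∑ m ∈ range J, Real.exp (-(1 / 400 * (m : ℝ))) : ℝ) : ℂ) := by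
    unfold KK
    have h6 : om 0 = 0 := by simp [om]
    simp only [zero_mul, h6, Complex.exp_zero, mul_one]
    rw [Complex.ofReal_sum]
  rw [h5, Complex.norm_real] at h3
  exact (le_abs_self _).trans h3

theorem up_shape (J : ℕ) (hJ : 1608 ≤ J) (N : ℕ) (hN : N ≠ 0) (w0 : ℕ → ℝ) (W η Lb0 : ℝ)
    (hsum : ∑ d ∈ N.divisors, w0 d = 1) (hW : ∑ d ∈ N.divisors, |w0 d| ≤ W)
    (htail : ∑ d ∈ N.divisors.filter (fun d : ℕ => Real.exp (J / 8000) < (d : ℝ)), |w0 d| ≤ η)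
    (hη : η ≤ 1 / 2) (hLb : 0 ≤ Lb0)
    (hloc : ∀ r : ℚ, (r.den : ℝ) < 2 ^ (4 * J) → ∀ Kc : ℂ, 0 ≤ Kc.re →
      |Kc.im| ≤ 1 / 10 * Kc.re → ‖Kc‖ ≤ 401 →
      -Lb0 ≤ (Kc * ∑ d ∈ N.divisors, ((w0 d : ℝ) : ℂ) * gG ((d : ℚ) ^ 2 * r)).re)
    (H : ℕ) (E : ℝ)
    (hE : errC (1 / 400) J (Real.exp (5 * J)) (Real.exp (3 / 2 * J)) (Real.exp (J / 8000)) +
      errT J (Real.exp (5 * J)) H ≤ E)
    (hE2 : J * (Real.exp (J / 8000) * Real.exp J / Real.exp (5 * J)) ≤ E)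
    (hWE : 2 * W * E ≤ 1 / 2) (A : ℝ)
    (hA : 2 * (7 * (2 * W) * 401 + (2 * Lb0 + 802 * η) + 1) ≤ A) :
    deltaL1 A H ≤ 2 * (2 * W * E + ((2 * Lb0 + 802 * η) + 2 * W * E)) := by
  classical
  have hJ' : (1608 : ℝ) ≤ J := by exact_mod_cast hJ
  have hJ0 : (0 : ℝ) < J := by linarith
  obtain ⟨D, hDdef⟩ : ∃ D : ℝ, D = Real.exp (J / 8000) := ⟨_, rfl⟩
  obtain ⟨B, hBdef⟩ : ∃ B : ℝ, B = Real.exp (3 / 2 * J) := ⟨_, rfl⟩
  obtain ⟨X, hXdef⟩ : ∃ X : ℝ, X = Real.exp (5 * J) := ⟨_, rfl⟩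
  rw [← hDdef] at htail hE hE2
  rw [← hXdef, ← hBdef] at hE
  rw [← hXdef] at hE2
  have hD0 : 0 < D := by rw [hDdef]; exact Real.exp_pos _
  have hX0 : 0 < X := by rw [hXdef]; exact Real.exp_pos _
  have hD1 : 1 ≤ D := by rw [hDdef]; exact Real.one_le_exp (by positivity)
  have hB1 : 1 ≤ B := by rw [hBdef]; exact Real.one_le_exp (by positivity)
  have hW0 : 0 ≤ W := (sum_nonneg fun d _ => abs_nonneg _).trans hW
  have hη0 : 0 ≤ η := (sum_nonneg fun d _ => abs_nonneg _).trans htail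
  obtain ⟨w, hw⟩ : ∃ w : ℕ → ℝ, w = fun d => if d ∣ N then 2 * w0 d else 0 := ⟨_, rfl⟩
  have htl : |∑ d ∈ N.divisors.filter (fun d : ℕ => D < (d : ℝ)), w0 d| ≤ η :=
    (abs_sum_le_sum_abs _ _).trans htail
  have hw1 : 1 ≤ ∑ d ∈ Icc 1 ⌊D⌋₊, w d := by
    rw [hw, NKUpA_sum (fun d => 2 * w0 d) N hN D hD0.le, ← mul_sum, ← mul_sum, hsum]
    have h1 := (abs_le.1 htl).2
    linarith
  have hwabs : ∑ d ∈ Icc 1 ⌊D⌋₊, |w d| ≤ 2 * W := by
    have h1 : ∀ d ∈ Icc 1 ⌊D⌋₊, |w d| = if d ∣ N then 2 * |w0 d| else 0 := by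
      intro d _
      rw [hw]
      beta_reduce
      split_ifs
      · rw [abs_mul, abs_two]
      · rw [abs_zero]
    rw [sum_congr rfl h1, NKUpA_sum (fun d => 2 * |w0 d|) N hN D hD0.le, ← mul_sum, ← mul_sum]
    have h2 : 0 ≤ ∑ d ∈ N.divisors.filter (fun d : ℕ => D < (d : ℝ)), |w0 d| :=
      sum_nonneg fun d _ => abs_nonneg _
    linarith
  have hmem : ∀ d : ℕ, d ∈ Icc 1 ⌊D⌋₊ ↔ 1 ≤ d ∧ (d : ℝ) ≤ D := by
    intro d
    rw [mem_Icc, Nat.le_floor_iff hD0.le]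
  have hWE1 : 2 * W * (errC (1 / 400) J X B D + errT J X H) ≤ 2 * W * E :=
    mul_le_mul_of_nonneg_left hE (by positivity)
  have hWE2 : 2 * W * (J * (D * Real.exp J / X)) ≤ 2 * W * E :=
    mul_le_mul_of_nonneg_left hE2 (by positivity)
  have hmain := deltaL1_sharp (Icc 1 ⌊D⌋₊)
    (by
      intro v hv
      rw [mem_Icc] at hv
      omega)
    w (2 * W) hwabs hw1
    (1 / 400) (by norm_num) J (by omega) X B D (2 * Lb0 + 802 * η) hX0 hB1
    (fun d hd => ((hmem d).1 hd).2) hD1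
    (by
      rw [hBdef, hDdef, hXdef, ← Real.exp_nat_mul, ← Real.exp_add, ← Real.exp_add]
      refine Real.exp_le_exp.2 ?_
      push_cast
      nlinarith)
    (by
      intro d₁ hd₁ d₂ hd₂
      obtain ⟨c1, c2⟩ := (hmem d₁).1 hd₁
      obtain ⟨c3, c4⟩ := (hmem d₂).1 hd₂
      refine ⟨d₁ * d₂, ?_, Dvd.intro _ rfl, Dvd.intro_left _ rfl, ?_⟩
      · exact Nat.mul_ne_zero (by omega) (by omega)
      · have c5 : ((d₁ * d₂ : ℕ) : ℝ) ^ 2 ≤ (D * D) ^ 2 := by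
          refine pow_le_pow_left₀ (Nat.cast_nonneg _) ?_ 2
          rw [Nat.cast_mul]
          exact mul_le_mul c2 c4 (Nat.cast_nonneg _) hD0.le
        have c6 : (2 : ℝ) ≤ Real.exp J := by
          have := Real.add_one_le_exp (J : ℝ)
          linarith
        calc 2 * B ^ 3 * ((d₁ * d₂ : ℕ) : ℝ) ^ 2 ≤ Real.exp J * B ^ 3 * (D * D) ^ 2 := by
              gcongr
          _ < X ^ 2 := by
              rw [hBdef, hDdef, hXdef, ← Real.exp_nat_mul, ← Real.exp_add, ← Real.exp_add,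
                ← Real.exp_nat_mul, ← Real.exp_add, ← Real.exp_nat_mul]
              refine Real.exp_lt_exp.2 ?_
              push_cast
              nlinarith)
    (by positivity)
    (by
      intro r hr u hu
      obtain ⟨k1, k2, k3⟩ := KK_good J hJ u (by rw [← hBdef]; exact hu)
      have hden : (r.den : ℝ) < 2 ^ (4 * J) := by
        refine lt_of_le_of_lt hr ?_
        have c1 : (2 : ℝ) ^ (4 * J) = Real.exp (((4 * J : ℕ) : ℝ) * Real.log 2) := by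
          rw [← Real.log_pow, Real.exp_log (by positivity)]
        rw [c1, hBdef, hDdef, ← Real.exp_nat_mul, ← Real.exp_add]
        refine Real.exp_lt_exp.2 ?_
        have c2 := Real.log_two_gt_d9
        push_cast
        nlinarith
      have hl := hloc r hden (KK (1 / 400) J u) k1 k2 k3
      obtain ⟨g, hg⟩ : ∃ g : ℕ → ℂ, g = fun d : ℕ => gG ((d : ℚ) ^ 2 * r) := ⟨_, rfl⟩
      have hg1 : ∀ d : ℕ, gG ((d : ℚ) ^ 2 * r) = g d := fun d => by rw [hg]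
      simp only [hg1] at hl ⊢
      have hsumC : ∑ d ∈ Icc 1 ⌊D⌋₊, ((w d : ℝ) : ℂ) * g d =
          2 * (∑ d ∈ N.divisors, ((w0 d : ℝ) : ℂ) * g d -
            ∑ d ∈ N.divisors.filter (fun d : ℕ => D < (d : ℝ)), ((w0 d : ℝ) : ℂ) * g d) := by
        have e0 : ∀ d ∈ Icc 1 ⌊D⌋₊, ((w d : ℝ) : ℂ) * g d =
            if d ∣ N then 2 * (((w0 d : ℝ) : ℂ) * g d) else 0 := by
          intro d _
          rw [hw]
          beta_reduce
          split_ifs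
          · push_cast
            ring
          · simp
        rw [sum_congr rfl e0, NKUpA_sum (fun d => 2 * (((w0 d : ℝ) : ℂ) * g d)) N hN D hD0.le,
          ← mul_sum, ← mul_sum]
        ring
      rw [hsumC]
      obtain ⟨S1, hS1⟩ : ∃ S1, S1 = ∑ d ∈ N.divisors, ((w0 d : ℝ) : ℂ) * g d := ⟨_, rfl⟩
      obtain ⟨S2, hS2⟩ : ∃ S2, S2 = ∑ d ∈ N.divisors.filter (fun d : ℕ => D < (d : ℝ)),
        ((w0 d : ℝ) : ℂ) * g d := ⟨_, rfl⟩
      have ht : ‖S2‖ ≤ η := by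
        rw [hS2]
        refine (norm_sum_le _ _).trans (le_trans (sum_le_sum fun d hd => ?_) htail)
        rw [norm_mul, Complex.norm_real, Real.norm_eq_abs, ← hg1]
        exact mul_le_of_le_one_right (abs_nonneg _) (norm_gG_le_one _)
      rw [← hS1] at hl
      rw [← hS1, ← hS2]
      have e1 : KK (1 / 400) J u * (2 * (S1 - S2)) =
          ((2 : ℝ) : ℂ) * (KK (1 / 400) J u * S1) - ((2 : ℝ) : ℂ) * (KK (1 / 400) J u * S2) := by
        push_cast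
        ring
      rw [e1, Complex.sub_re, Complex.re_ofReal_mul, Complex.re_ofReal_mul]
      have e2 : (KK (1 / 400) J u * S2).re ≤ 401 * η := by
        refine (Complex.re_le_norm _).trans ?_
        rw [norm_mul]
        exact mul_le_mul k3 ht (norm_nonneg _) (by norm_num)
      linarith)
    H (hWE1.trans hWE) A
    (by
      have h1 := NKUpA_geom J hJ
      have h2 : 7 * (2 * W) * ∑ m ∈ range J, Real.exp (-(1 / 400 * (m : ℝ))) ≤
          7 * (2 * W) * 401 := mul_le_mul_of_nonneg_left h1 (by positivity)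
      linarith)
  refine hmain.trans ?_
  linarith

end Pool.Agent.H.MP_b3c6db_nt
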