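import Pool.Agent.H.MP_b3c6db_nt.NK.Law
import Pool.Agent.H.MP_b3c6db_nt.NK.Fun

/-! The total weight.

PROOF. `wK_sum`: `wth_sum` (every law has total mass `1`, the differences vanish). `wK_norm`, `wK_tail`: triangle inequality; every law in `wK` is
non-negative on the divisors of `N` (`wth_nonneg`: `tht` is `1/x` on `R`, `b/tau ≤ 1` or `0`, and `x ≤ 1`), the number of `R` is `2^(#S0)`, two laws for each `R`.
`wK_mean`: `wth_mean` gives `rp`; the product over `r.den.primeFactors` splits into `p ∉ Q` (a factor common to all laws) and `p ∈ Q`; then `fun_eval` with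
`g p = LF .. 0`, `a p = LF .. (x p) - LF .. 0`, `S = r.den.primeFactors ∩ Q`. The last statement: `θ = 1` (`wth_mean`), where `wth x N Q 1 = ww x N`
(`cth = 1` since `x p < 1`), and `gauss_sum_w` (NC/WtB.lean). -/

set_option autoImplicit false

namespace Pool.Agent.H.MP_b3c6db_nt

open Finset

noncomputable def wK (x : ℕ → ℝ) (Z P y : ℝ) (N : ℕ) (Q : Finset ℕ) (d : ℕ) : ℝ :=
  wth x N Q (fun _ => 0) d + ∑ S0 ∈ SS Z P Q, (tau P y S0 * ∏ p ∈ S0, x p) *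
    ∑ R ∈ S0.powerset, (-1 : ℝ) ^ (S0 \ R).card *
      (wth x N Q (tht x P y Q S0 R 1) d - wth x N Q (tht x P y Q S0 R 0) d)

private theorem NKWt_lin (x : ℕ → ℝ) (Z P y : ℝ) (N : ℕ) (Q : Finset ℕ) (D : Finset ℕ)
    (G : ℕ → ℂ) :
    ∑ d ∈ D, ((wK x Z P y N Q d : ℝ) : ℂ) * G d =
      ∑ d ∈ D, ((wth x N Q (fun _ => 0) d : ℝ) : ℂ) * G d + ∑ S0 ∈ SS Z P Q,
        ((tau P y S0 * ∏ p ∈ S0, x p : ℝ) : ℂ) * ∑ R ∈ S0.powerset, (-1 : ℂ) ^ (S0 \ R).card *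
          (∑ d ∈ D, ((wth x N Q (tht x P y Q S0 R 1) d : ℝ) : ℂ) * G d -
            ∑ d ∈ D, ((wth x N Q (tht x P y Q S0 R 0) d : ℝ) : ℂ) * G d) := by
  have h1 : ∀ d, ((wK x Z P y N Q d : ℝ) : ℂ) * G d =
      ((wth x N Q (fun _ => 0) d : ℝ) : ℂ) * G d + ∑ S0 ∈ SS Z P Q, ∑ R ∈ S0.powerset,
        ((tau P y S0 * ∏ p ∈ S0, x p : ℝ) : ℂ) * ((-1 : ℂ) ^ (S0 \ R).card *
          (((wth x N Q (tht x P y Q S0 R 1) d : ℝ) : ℂ) * G d -
            ((wth x N Q (tht x P y Q S0 R 0) d : ℝ) : ℂ) * G d)) := by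
    intro d
    unfold wK
    rw [Complex.ofReal_add, Complex.ofReal_sum, add_mul, Finset.sum_mul]
    congr 1
    refine Finset.sum_congr rfl fun S0 _ => ?_
    rw [Complex.ofReal_mul, Complex.ofReal_sum, Finset.mul_sum, Finset.sum_mul]
    refine Finset.sum_congr rfl fun R _ => ?_
    push_cast
    ring
  rw [Finset.sum_congr rfl fun d _ => h1 d, Finset.sum_add_distrib]
  congr 1
  rw [Finset.sum_comm]
  refine Finset.sum_congr rfl fun S0 _ => ?_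
  rw [Finset.sum_comm, Finset.mul_sum]
  refine Finset.sum_congr rfl fun R _ => ?_
  rw [← Finset.mul_sum, ← Finset.mul_sum, Finset.sum_sub_distrib]

private theorem NKWt_nn0 (x : ℕ → ℝ) (N : ℕ) (Q : Finset ℕ)
    (hQ : ∀ p ∈ Q, p.Prime ∧ p ∣ N ∧ 0 < x p ∧ x p < 1) {d : ℕ} (hw : 0 ≤ ww x N d) :
    0 ≤ wth x N Q (fun _ => 0) d :=
  wth_nonneg x N Q _ d (fun p hp => ⟨le_rfl, by simp, (hQ p hp).2.2.2⟩) hw

private theorem NKWt_nn (x : ℕ → ℝ) (P y : ℝ) (N : ℕ) (Q : Finset ℕ)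
    (hQ : ∀ p ∈ Q, p.Prime ∧ p ∣ N ∧ 0 < x p ∧ x p < 1) {d : ℕ} (hw : 0 ≤ ww x N d)
    {S0 : Finset ℕ} (ht : 1 ≤ tau P y S0) (R : Finset ℕ) {b : ℝ} (hb0 : 0 ≤ b) (hb1 : b ≤ 1) :
    0 ≤ wth x N Q (tht x P y Q S0 R b) d := by
  refine wth_nonneg x N Q _ d (fun p hp => ?_) hw
  obtain ⟨-, -, h1, h2⟩ := hQ p hp
  have ht0 : 0 < tau P y S0 := by linarith
  unfold tht
  split_ifs
  · refine ⟨by positivity, ?_, h2⟩
    rw [one_div, inv_mul_cancel₀ h1.ne']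
  · have h3 : b / tau P y S0 ≤ 1 := by
      rw [div_le_one ht0]
      linarith
    have h4 : 0 ≤ b / tau P y S0 := div_nonneg hb0 ht0.le
    refine ⟨h4, ?_, h2⟩
    nlinarith
  · exact ⟨le_rfl, by simp, h2⟩

private theorem NKWt_bd (x : ℕ → ℝ) (Z P y : ℝ) (N : ℕ) (Q : Finset ℕ)
    (hQ : ∀ p ∈ Q, p.Prime ∧ p ∣ N ∧ 0 < x p ∧ x p < 1) (hw : ∀ d ∈ N.divisors, 0 ≤ ww x N d)
    (ht : ∀ S0 ∈ SS Z P Q, 1 ≤ tau P y S0) (D : Finset ℕ) (hD : D ⊆ N.divisors) (η : ℝ)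
    (h0 : ∑ d ∈ D, wth x N Q (fun _ => 0) d ≤ η)
    (h1 : ∀ S0 ∈ SS Z P Q, ∀ R ∈ S0.powerset, ∀ b : ℝ, 0 ≤ b → b ≤ 1 →
      ∑ d ∈ D, wth x N Q (tht x P y Q S0 R b) d ≤ η) :
    ∑ d ∈ D, |wK x Z P y N Q d| ≤
      η * (1 + 2 * ∑ S0 ∈ SS Z P Q, tau P y S0 * (∏ p ∈ S0, x p) * 2 ^ S0.card) := by
  have hc : ∀ S0 ∈ SS Z P Q, 0 ≤ tau P y S0 * ∏ p ∈ S0, x p := by
    intro S0 hS0
    have h2 : S0 ⊆ Q := Finset.mem_powerset.1 (Finset.mem_filter.1 hS0).1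
    refine mul_nonneg (by linarith [ht S0 hS0]) (Finset.prod_nonneg fun p hp => ?_)
    exact (hQ p (h2 hp)).2.2.1.le
  have h3 : ∀ d ∈ D, |wK x Z P y N Q d| ≤ wth x N Q (fun _ => 0) d + ∑ S0 ∈ SS Z P Q,
      ∑ R ∈ S0.powerset, (tau P y S0 * ∏ p ∈ S0, x p) *
        (wth x N Q (tht x P y Q S0 R 1) d + wth x N Q (tht x P y Q S0 R 0) d) := by
    intro d hd
    have hwd := hw d (hD hd)
    unfold wK
    refine (abs_add_le _ _).trans (add_le_add (le_of_eq (abs_of_nonneg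
      (NKWt_nn0 x N Q hQ hwd))) ?_)
    refine (Finset.abs_sum_le_sum_abs _ _).trans (Finset.sum_le_sum fun S0 hS0 => ?_)
    rw [abs_mul, abs_of_nonneg (hc S0 hS0), ← Finset.mul_sum]
    refine mul_le_mul_of_nonneg_left ?_ (hc S0 hS0)
    refine (Finset.abs_sum_le_sum_abs _ _).trans (Finset.sum_le_sum fun R _ => ?_)
    rw [abs_mul, abs_pow, abs_neg, abs_one, one_pow, one_mul]
    have k1 := NKWt_nn x P y N Q hQ hwd (ht S0 hS0) R zero_le_one le_rfl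
    have k0 := NKWt_nn x P y N Q hQ hwd (ht S0 hS0) R le_rfl zero_le_one
    rw [abs_le]
    constructor
    · linarith
    · linarith
  refine (Finset.sum_le_sum h3).trans ?_
  rw [Finset.sum_add_distrib, Finset.sum_comm, mul_add, mul_one]
  refine add_le_add h0 ?_
  rw [Finset.mul_sum, Finset.mul_sum]
  refine Finset.sum_le_sum fun S0 hS0 => ?_
  rw [Finset.sum_comm]
  have h4 : ∀ R ∈ S0.powerset, ∑ d ∈ D, (tau P y S0 * ∏ p ∈ S0, x p) *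
      (wth x N Q (tht x P y Q S0 R 1) d + wth x N Q (tht x P y Q S0 R 0) d) ≤
      (tau P y S0 * ∏ p ∈ S0, x p) * (2 * η) := by
    intro R hR
    rw [← Finset.mul_sum, Finset.sum_add_distrib]
    refine mul_le_mul_of_nonneg_left ?_ (hc S0 hS0)
    have k1 := h1 S0 hS0 R hR 1 zero_le_one le_rfl
    have k0 := h1 S0 hS0 R hR 0 le_rfl zero_le_one
    linarith
  refine (Finset.sum_le_sum h4).trans (le_of_eq ?_)
  rw [Finset.sum_const, Finset.card_powerset, nsmul_eq_mul]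
  push_cast
  ring

theorem wK_sum (x : ℕ → ℝ) (Z P y : ℝ) (N : ℕ) (hN : N ≠ 0) (Q : Finset ℕ)
    (hQ : ∀ p ∈ Q, p.Prime ∧ p ∣ N ∧ x p < 1) : ∑ d ∈ N.divisors, wK x Z P y N Q d = 1 := by
  have h := NKWt_lin x Z P y N Q N.divisors (fun _ => 1)
  simp only [mul_one] at h
  have hs : ∀ θ : ℕ → ℝ, ∑ d ∈ N.divisors, ((wth x N Q θ d : ℝ) : ℂ) = 1 := fun θ => by
    rw [← Complex.ofReal_sum, wth_sum x N hN Q hQ θ, Complex.ofReal_one]
  rw [hs] at h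
  have h2 : ∑ S0 ∈ SS Z P Q, ((tau P y S0 * ∏ p ∈ S0, x p : ℝ) : ℂ) * ∑ R ∈ S0.powerset,
      (-1 : ℂ) ^ (S0 \ R).card * (∑ d ∈ N.divisors, ((wth x N Q (tht x P y Q S0 R 1) d : ℝ) : ℂ) -
        ∑ d ∈ N.divisors, ((wth x N Q (tht x P y Q S0 R 0) d : ℝ) : ℂ)) = 0 := by
    refine Finset.sum_eq_zero fun S0 _ => ?_
    rw [Finset.sum_eq_zero fun R _ => ?_, mul_zero]
    rw [hs, hs, sub_self, mul_zero]
  rw [h2, add_zero, ← Complex.ofReal_sum] at h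
  exact_mod_cast h

theorem wK_norm (x : ℕ → ℝ) (Z P y : ℝ) (hy : 0 < y) (N : ℕ) (hN : N ≠ 0) (Q : Finset ℕ)
    (hQ : ∀ p ∈ Q, p.Prime ∧ p ∣ N ∧ 0 < x p ∧ x p < 1) (hw : ∀ d ∈ N.divisors, 0 ≤ ww x N d)
    (ht : ∀ S0 ∈ SS Z P Q, 1 ≤ tau P y S0) :
    ∑ d ∈ N.divisors, |wK x Z P y N Q d| ≤
      1 + 2 * ∑ S0 ∈ SS Z P Q, tau P y S0 * (∏ p ∈ S0, x p) * 2 ^ S0.card := by
  have hQ' : ∀ p ∈ Q, p.Prime ∧ p ∣ N ∧ x p < 1 := fun p hp =>
    ⟨(hQ p hp).1, (hQ p hp).2.1, (hQ p hp).2.2.2⟩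
  have h := NKWt_bd x Z P y N Q hQ hw ht N.divisors (Finset.Subset.refl _) 1
    (le_of_eq (wth_sum x N hN Q hQ' _)) fun S0 _ R _ b _ _ => le_of_eq (wth_sum x N hN Q hQ' _)
  rw [one_mul] at h
  exact h

theorem wK_tail (x : ℕ → ℝ) (Z P y : ℝ) (hy : 0 < y) (N : ℕ) (hN : N ≠ 0) (Q : Finset ℕ)
    (hQ : ∀ p ∈ Q, p.Prime ∧ p ∣ N ∧ 0 < x p ∧ x p < 1) (hw : ∀ d ∈ N.divisors, 0 ≤ ww x N d)
    (ht : ∀ S0 ∈ SS Z P Q, 1 ≤ tau P y S0) (D η : ℝ) (hη : 0 ≤ η)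
    (h0 : ∑ d ∈ N.divisors.filter (fun d : ℕ => D < (d : ℝ)), wth x N Q (fun _ => 0) d ≤ η)
    (h1 : ∀ S0 ∈ SS Z P Q, ∀ R ∈ S0.powerset, ∀ b : ℝ, 0 ≤ b → b ≤ 1 →
      ∑ d ∈ N.divisors.filter (fun d : ℕ => D < (d : ℝ)), wth x N Q (tht x P y Q S0 R b) d ≤ η) :
    ∑ d ∈ N.divisors.filter (fun d : ℕ => D < (d : ℝ)), |wK x Z P y N Q d| ≤
      η * (1 + 2 * ∑ S0 ∈ SS Z P Q, tau P y S0 * (∏ p ∈ S0, x p) * 2 ^ S0.card) := by
  exact NKWt_bd x Z P y N Q hQ hw ht _ (Finset.filter_subset _ _) η h0 h1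

theorem wK_mean (x : ℕ → ℝ) (Z P y : ℝ) (N : ℕ) (hN : N ≠ 0) (Q : Finset ℕ)
    (hQ : ∀ p ∈ Q, p.Prime ∧ p ∣ N ∧ 0 < x p ∧ x p < 1) (r : ℚ)
    (hr : ∀ v : ℕ, v ∣ r.den → ¬ v ∣ N → Arho x v = 0) :
    ∃ rp : ℕ → ℚ, (∀ p ∈ r.den.primeFactors, (rp p).den = p ^ (r.den.factorization p)) ∧
      ∑ d ∈ N.divisors, ((wK x Z P y N Q d : ℝ) : ℂ) * gG ((d : ℚ) ^ 2 * r) =
        (∏ p ∈ r.den.primeFactors.filter (fun p => p ∉ Q),
          LF p (r.den.factorization p) (rp p) (x p)) *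
        VF Z P y Q (fun p => LF p (r.den.factorization p) (rp p) 0)
          (fun p => LF p (r.den.factorization p) (rp p) (x p) -
            LF p (r.den.factorization p) (rp p) 0)
          (r.den.primeFactors.filter (fun p => p ∈ Q)) ∧
      ∏ p ∈ r.den.primeFactors, LF p (r.den.factorization p) (rp p) (x p) =
        ∑ v ∈ r.den.divisors, Arho (fun p => ((x p : ℝ) : ℂ)) v * Dlt v r := by
  classical
  have hQ' : ∀ p ∈ Q, p.Prime ∧ p ∣ N ∧ x p < 1 := fun p hp =>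
    ⟨(hQ p hp).1, (hQ p hp).2.1, (hQ p hp).2.2.2⟩
  obtain ⟨rp, hrp, hm⟩ := wth_mean x N hN Q hQ' r hr
  refine ⟨rp, hrp, ?_, ?_⟩
  · have key : ∀ θ : ℕ → ℝ, ∑ d ∈ N.divisors, ((wth x N Q θ d : ℝ) : ℂ) * gG ((d : ℚ) ^ 2 * r) =
        (∏ p ∈ r.den.primeFactors.filter (fun p => p ∉ Q),
          LF p (r.den.factorization p) (rp p) (x p)) *
        ∏ p ∈ r.den.primeFactors.filter (fun p => p ∈ Q),
          (LF p (r.den.factorization p) (rp p) 0 + ((θ p : ℝ) : ℂ) *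
            (LF p (r.den.factorization p) (rp p) (x p) -
              LF p (r.den.factorization p) (rp p) 0)) := by
      intro θ
      rw [hm θ, Finset.prod_ite, mul_comm]
    rw [← fun_eval x Z P y Q (fun p hp => (hQ p hp).2.2.1)
      (fun p => LF p (r.den.factorization p) (rp p) 0)
      (fun p => LF p (r.den.factorization p) (rp p) (x p) -
        LF p (r.den.factorization p) (rp p) 0)
      (r.den.primeFactors.filter (fun p => p ∈ Q)) (fun p hp => (Finset.mem_filter.1 hp).2)]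
    rw [NKWt_lin x Z P y N Q N.divisors (fun d => gG ((d : ℚ) ^ 2 * r))]
    rw [key (fun _ => 0), mul_add, Finset.mul_sum]
    congr 1
    refine Finset.sum_congr rfl fun S0 _ => ?_
    rw [mul_left_comm]
    congr 1
    rw [Finset.mul_sum]
    refine Finset.sum_congr rfl fun R _ => ?_
    rw [key, key]
    ring
  · have h1 := hm (fun _ => 1)
    have h2 : ∏ p ∈ r.den.primeFactors,
        (if p ∈ Q then LF p (r.den.factorization p) (rp p) 0 +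
          (((1 : ℝ)) : ℂ) * (LF p (r.den.factorization p) (rp p) (x p) -
            LF p (r.den.factorization p) (rp p) 0)
        else LF p (r.den.factorization p) (rp p) (x p)) =
        ∏ p ∈ r.den.primeFactors, LF p (r.den.factorization p) (rp p) (x p) := by
      refine Finset.prod_congr rfl fun p _ => ?_
      split_ifs
      · rw [Complex.ofReal_one, one_mul]
        ring
      · rfl
    have h3 : ∀ d ∈ N.divisors, ((wth x N Q (fun _ => 1) d : ℝ) : ℂ) * gG ((d : ℚ) ^ 2 * r) =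
        ((ww x N d : ℝ) : ℂ) * gG ((d : ℚ) ^ 2 * r) := by
      intro d _
      have h4 : wth x N Q (fun _ => 1) d = ww x N d := by
        unfold wth
        have h6 : ∏ p ∈ Q, cth x (fun _ => 1) p d = 1 := by
          refine Finset.prod_eq_one fun p hp => ?_
          unfold cth
          split_ifs
          · rfl
          · have h5 : 1 - x p ≠ 0 := by
              have := (hQ p hp).2.2.2
              linarith
            rw [one_mul, div_self h5]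
        rw [h6, mul_one]
      rw [h4]
    have h1' : ∑ d ∈ N.divisors, ((wth x N Q (fun _ => 1) d : ℝ) : ℂ) * gG ((d : ℚ) ^ 2 * r) =
        ∏ p ∈ r.den.primeFactors, LF p (r.den.factorization p) (rp p) (x p) := h1.trans h2
    rw [← h1', Finset.sum_congr rfl h3]
    exact gauss_sum_w x N hN r hr

end Pool.Agent.H.MP_b3c6db_nt
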