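import Pool.Agent.H.MP_b3c6db_nt.NK.Loc
import Pool.Agent.H.MP_b3c6db_nt.NK.Wt
import Pool.Agent.H.MP_b3c6db_nt.NK.TailW
import Pool.Agent.H.MP_b3c6db_nt.NK.Norm
import Pool.Agent.H.MP_b3c6db_nt.NK.Err
import Pool.Agent.H.MP_b3c6db_nt.NL.Upper
import Pool.Agent.H.MP_b3c6db_nt.NK.UpA

/-! The upper bound with signed weights, every power. -/

set_option autoImplicit false

namespace Pool.Agent.H.MP_b3c6db_nt

open Finset Filter

private lemma NKUp_dvd (P : ℝ) (E : ℕ) (hE : 1 ≤ E) (p : ℕ) (hp : p.Prime) (h : (p : ℝ) ≤ P) :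
    p ∣ NN P E := by
  unfold NN
  have h1 : p ∈ (Ioc 0 ⌊P⌋₊).filter Nat.Prime := by
    rw [mem_filter, mem_Ioc]
    exact ⟨⟨hp.pos, Nat.le_floor h⟩, hp⟩
  exact (dvd_pow_self p (by omega)).trans (Finset.dvd_prod_of_mem (fun p => p ^ E) h1)

private lemma NKUp_nS_pos (Z P : ℝ) (S : Finset ℕ) (hS : S ⊆ QQ Z P) : 0 < nS S := by
  unfold nS
  refine prod_pos fun p hp => ?_
  have := (QQ_gt Z P p (hS hp)).1.pos
  exact_mod_cast this

private lemma NKUp_tau (Z P c : ℝ) (hZ : 0 < Z) (hc : 1 ≤ c) (S : Finset ℕ)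
    (hS : S ∈ SS Z P (QQ Z P)) : 1 ≤ tau P (Real.sqrt Z / c) S := by
  unfold SS at hS
  rw [mem_filter, mem_powerset] at hS
  have h0 := NKUp_nS_pos Z P S hS.1
  have h1 : Z ≤ P / nS S := by
    rw [le_div_iff₀ h0]
    linarith [hS.2, mul_comm Z (nS S)]
  have h2 : Real.sqrt Z ≤ Real.sqrt (P / nS S) := Real.sqrt_le_sqrt h1
  have h3 : 0 < Real.sqrt Z := Real.sqrt_pos.2 hZ
  unfold tau
  rw [le_div_iff₀ (by positivity), one_mul]
  exact (div_le_self h3.le hc).trans h2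

theorem upper_K (K : ℕ) : ∃ κ C C2 : ℝ, 0 < κ ∧ 0 ≤ C ∧ 1 ≤ C2 ∧ ∀ᶠ J : ℕ in atTop, ∀ t : ℝ,
    1 ≤ t → t ≤ κ * (J : ℝ) ^ K → ∀ H : ℕ, Real.exp (10 * J) ≤ H →
    deltaL1 (C2 * t) H ≤ C / (t * J) := by
  obtain ⟨K', hK'⟩ : ∃ K' : ℕ, K' = K + 1 := ⟨_, rfl⟩
  have hK1 : 1 ≤ K' := by omega
  have hK1r : (1 : ℝ) ≤ K' := by exact_mod_cast hK1
  obtain ⟨c, hcdef⟩ : ∃ c : ℝ, c = 310 * (K' : ℝ) := ⟨_, rfl⟩
  have hc2 : 2 ≤ c := by rw [hcdef]; linarith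
  obtain ⟨κ1, hκ1⟩ : ∃ κ1 : ℝ, κ1 = 1 / (384000000 * (K' : ℝ)) := ⟨_, rfl⟩
  have hκ10 : 0 < κ1 := by rw [hκ1]; positivity
  have hκ11 : κ1 ≤ 1 := by
    rw [hκ1, div_le_one (by positivity)]
    linarith
  obtain ⟨Cn, hCn0, hn⟩ := norm_sum K' hK1 c hc2
  obtain ⟨Cl, hCl0, hl⟩ := loc_K K' hK1
  obtain ⟨Z0, hZ0⟩ := eventually_atTop.1 ((hn.and hl).and (YY_le_K K'))
  have hall := (((((xx_small.and ee_sum).and xx_nonneg).and xx_mid).and xx_large).and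
    (wth_tail (K' : ℝ) hK1r))
  obtain ⟨P0, hP0⟩ := eventually_atTop.1 hall
  obtain ⟨M1, hM1⟩ : ∃ M1 : ℝ, M1 = 1 + 2 * Cn := ⟨_, rfl⟩
  have hM10 : 1 ≤ M1 := by rw [hM1]; linarith
  have hZt : Tendsto (fun J : ℕ => (κ1 * (J : ℝ)) ^ 2) atTop atTop := by
    have h := (tendsto_natCast_atTop_atTop (R := ℝ)).const_mul_atTop hκ10
    exact (tendsto_pow_atTop two_ne_zero).comp h
  refine ⟨κ1 ^ K, 8 * M1 + 1604 * Cl / κ1 + 1604 * M1, 11228 * M1 + 1604 * Cl + 804,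
    by positivity, by positivity, by linarith, ?_⟩
  filter_upwards [hZt.eventually (eventually_ge_atTop Z0),
    hZt.eventually (eventually_ge_atTop P0), hZt.eventually (eventually_ge_atTop (100 : ℝ)),
    err_smallK (2 * K + 2), eventually_ge_atTop 1608,
    eventually_ge_atTop ⌈4 * M1⌉₊, hZt.eventually (eventually_ge_atTop (1 / κ1 : ℝ))]
    with J hJZ hJP hJ100 a8 a9 hJM hJκ t ht1 htJ H hH
  have hJ : (1608 : ℝ) ≤ J := by exact_mod_cast a9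
  have hJ0 : (0 : ℝ) < J := by linarith
  have hJM1 : 4 * M1 ≤ J := (Nat.le_ceil _).trans (by exact_mod_cast hJM)
  have ht0 : 0 < t := by linarith
  obtain ⟨Z, hZ⟩ : ∃ Z : ℝ, Z = (κ1 * (J : ℝ)) ^ 2 := ⟨_, rfl⟩
  rw [← hZ] at hJZ hJP hJ100 hJκ
  have hZpos : 0 < Z := by linarith
  have hsZ : Real.sqrt Z = κ1 * J := by rw [hZ, Real.sqrt_sq (by positivity)]
  obtain ⟨P, hP⟩ : ∃ P : ℝ, P = t ^ 2 * Z := ⟨_, rfl⟩
  have hZP : Z ≤ P := by
    rw [hP]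
    exact le_mul_of_one_le_left hZpos.le (one_le_pow₀ ht1)
  have hPpos : 0 < P := by linarith
  have hsP : Real.sqrt P = t * (κ1 * J) := by
    rw [hP, Real.sqrt_mul (by positivity), Real.sqrt_sq ht0.le, hsZ]
  have hsPZ : Real.sqrt P / Real.sqrt Z = t := by
    rw [hsP, hsZ]
    field_simp
  have htZ : t ^ 2 ≤ Z ^ K := by
    have h1 : t ^ 2 ≤ (κ1 ^ K * (J : ℝ) ^ K) ^ 2 := pow_le_pow_left₀ ht0.le htJ 2
    refine h1.trans (le_of_eq ?_)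
    rw [hZ]
    ring
  have hPK : P ≤ Z ^ K' := by
    rw [hP, hK', pow_succ]
    exact mul_le_mul_of_nonneg_right htZ hZpos.le
  obtain ⟨⟨hnZ, hlZ⟩, hYZ⟩ := hZ0 Z hJZ
  obtain ⟨⟨⟨⟨⟨a1, a2⟩, a3⟩, a4⟩, a5⟩, a6⟩ := hP0 P (hJP.trans hZP)
  have hYY : YY P ≤ Z := hYZ P (by linarith) hPK
  obtain ⟨Q, hQdef⟩ : ∃ Q : Finset ℕ, Q = QQ Z P := ⟨_, rfl⟩
  obtain ⟨y, hydef⟩ : ∃ y : ℝ, y = Real.sqrt Z / c := ⟨_, rfl⟩
  have hsZ0 : 0 < Real.sqrt Z := Real.sqrt_pos.2 hZpos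
  have hy0 : 0 < y := by rw [hydef]; positivity
  have hyZ : y ≤ Real.sqrt Z := by
    rw [hydef]
    exact div_le_self hsZ0.le (by linarith)
  obtain ⟨N, hNdef⟩ : ∃ N : ℕ, N = NN P (4 * J) := ⟨_, rfl⟩
  have hN : N ≠ 0 := by rw [hNdef]; exact NN_ne_zero _ _
  have hNp : ∀ p ∈ N.primeFactors, p.Prime ∧ (p : ℝ) ≤ P := by
    intro p hp
    rw [hNdef] at hp
    exact NN_primes _ _ p hp
  have hx1 : ∀ p ∈ N.primeFactors, xx P p ≤ 1 := by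
    intro p hp
    obtain ⟨h1, h2⟩ := hNp p hp
    rcases le_or_gt (p : ℝ) (YY P) with h3 | h3
    · exact (a1 p h1 h3).2.1
    · have := (a4 p h1 h3 h2).2.1
      linarith
  have hw : ∀ d ∈ N.divisors, 0 ≤ ww (xx P) N d := fun d hd =>
    ww_nonneg _ a3 N hx1 d (Nat.mem_divisors.1 hd).1 hN
  have hQ : ∀ p ∈ Q, p.Prime ∧ p ∣ N ∧ 0 < xx P p ∧ xx P p < 1 := by
    intro p hp
    rw [hQdef] at hp
    obtain ⟨h1, h2⟩ := QQ_gt Z P p hp
    have h3 := QQ_le Z P hPpos.le p hp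
    obtain ⟨c1, c2, -⟩ := a4 p h1 (lt_of_le_of_lt hYY h2) h3
    refine ⟨h1, ?_, c1, by linarith⟩
    rw [hNdef]
    exact NKUp_dvd P (4 * J) (by omega) p h1 h3
  have htau : ∀ S0 ∈ SS Z P Q, 1 ≤ tau P y S0 := by
    intro S0 hS0
    rw [hQdef] at hS0
    rw [hydef]
    exact NKUp_tau Z P c hZpos (by linarith) S0 hS0
  obtain ⟨Sg, hSg⟩ : ∃ Sg : ℝ, Sg = ∑ S0 ∈ SS Z P Q, tau P y S0 * (∏ p ∈ S0, xx P p) *
      2 ^ S0.card := ⟨_, rfl⟩
  have hSgt : Sg ≤ Cn * t := by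
    have h1 := hnZ P hZP hPK hYY
    rw [hsPZ, ← hydef, ← hQdef, ← hSg] at h1
    exact h1
  have hWt : 1 + 2 * Sg ≤ M1 * t := by
    rw [hM1]
    nlinarith
  have hWpos : 0 ≤ M1 * t := by positivity
  -- the tail
  have hlogPZ : Real.log P ≤ (K' : ℝ) * Real.log Z := by
    rw [← Real.log_pow]
    exact Real.log_le_log hPpos hPK
  have hDle : Real.exp (24000 * (K' : ℝ) * (Real.sqrt Z + y)) ≤ Real.exp (J / 8000) := by
    refine Real.exp_le_exp.2 ?_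
    have h1 : 24000 * (K' : ℝ) * (Real.sqrt Z + y) ≤ 24000 * (K' : ℝ) * (κ1 * J + κ1 * J) := by
      refine mul_le_mul_of_nonneg_left ?_ (by positivity)
      rw [← hsZ]
      linarith
    refine h1.trans (le_of_eq ?_)
    rw [hκ1]
    field_simp
    norm_num
  have hNP : ∀ p ∈ N.primeFactors, (p : ℝ) ≤ P := fun p hp => (hNp p hp).2
  have hQN : ∀ p ∈ QQ Z P, p ∣ N := fun p hp => (hQ p (by rw [hQdef]; exact hp)).2.1
  have htl : ∀ S0 ∈ SS Z P Q, ∀ R ∈ S0.powerset, ∀ b : ℝ, 0 ≤ b → b ≤ 1 →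
      ∑ d ∈ N.divisors.filter (fun d : ℕ => Real.exp (J / 8000) < (d : ℝ)),
        wth (xx P) N Q (tht (xx P) P y Q S0 R b) d ≤ 1 / P ^ 2 := by
    intro S0 hS0 R hR b hb0 hb1
    have h1 := htau S0 hS0
    unfold SS at hS0
    rw [mem_filter, mem_powerset, hQdef] at hS0
    rw [hQdef]
    exact a6 Z y hYY hlogPZ hy0 S0 R hS0.1 hS0.2 (mem_powerset.1 hR) b hb0 hb1 h1 N
      (Real.exp (J / 8000)) hN hNP hQN hDle
  have hemp : (∅ : Finset ℕ) ∈ SS Z P Q := by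
    unfold SS
    rw [mem_filter, mem_powerset]
    refine ⟨empty_subset _, ?_⟩
    unfold nS
    rw [prod_empty, one_mul]
    exact hZP
  have htht0 : tht (xx P) P y Q ∅ ∅ 0 = fun _ => 0 := by
    funext p
    unfold tht
    simp
  have htl0 : ∑ d ∈ N.divisors.filter (fun d : ℕ => Real.exp (J / 8000) < (d : ℝ)),
      wth (xx P) N Q (fun _ => 0) d ≤ 1 / P ^ 2 := by
    have h1 := htl ∅ hemp ∅ (by simp) 0 le_rfl zero_le_one
    rwa [htht0] at h1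
  have htail := wK_tail (xx P) Z P y hy0 N hN Q hQ hw htau (Real.exp (J / 8000)) (1 / P ^ 2)
    (by positivity) htl0 htl
  rw [← hSg] at htail
  have htail2 : ∑ d ∈ N.divisors.filter (fun d : ℕ => Real.exp (J / 8000) < (d : ℝ)),
      |wK (xx P) Z P y N Q d| ≤ 1 / P ^ 2 * (M1 * t) :=
    htail.trans (mul_le_mul_of_nonneg_left hWt (by positivity))
  have hnorm := wK_norm (xx P) Z P y hy0 N hN Q hQ hw htau
  rw [← hSg] at hnorm
  have hnorm2 := hnorm.trans hWt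
  have hsum := wK_sum (xx P) Z P y N hN Q (fun p hp => ⟨(hQ p hp).1, (hQ p hp).2.1, (hQ p hp).2.2.2⟩)
  -- sizes
  have hZJ : 1 ≤ κ1 * (κ1 * J) ^ 2 := by
    rw [div_le_iff₀ hκ10] at hJκ
    rw [← hZ]
    linarith
  have htP : t / P ^ 2 ≤ 1 / (t * J) := by
    rw [div_le_div_iff₀ (by positivity) (by positivity), one_mul, hP]
    have h1 : (J : ℝ) ≤ Z ^ 2 := by
      have h2 : 1 ≤ κ1 * J := by
        have h3 : (10 : ℝ) ≤ Real.sqrt Z := by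
          refine Real.le_sqrt_of_sq_le ?_
          linarith
        rw [hsZ] at h3
        linarith
      calc (J : ℝ) ≤ (κ1 * (κ1 * J) ^ 2) * J := le_mul_of_one_le_left hJ0.le hZJ
        _ = (κ1 * J) ^ 3 * 1 := by ring
        _ ≤ (κ1 * J) ^ 3 * (κ1 * J) := mul_le_mul_of_nonneg_left h2 (by positivity)
        _ = Z ^ 2 := by rw [hZ]; ring
    have h4 : t ^ 2 * J ≤ t ^ 2 * Z ^ 2 := mul_le_mul_of_nonneg_left h1 (by positivity)
    have h5 : t ^ 2 * Z ^ 2 ≤ t ^ 2 * (t ^ 2 * Z ^ 2) :=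
      le_mul_of_one_le_left (by positivity) (one_le_pow₀ ht1)
    calc t * (t * J) = t ^ 2 * J := by ring
      _ ≤ t ^ 2 * (t ^ 2 * Z ^ 2) := h4.trans h5
      _ = (t ^ 2 * Z) ^ 2 := by ring
  obtain ⟨η, hη⟩ : ∃ η : ℝ, η = 1 / P ^ 2 * (M1 * t) := ⟨_, rfl⟩
  have hηb : η ≤ M1 * (1 / (t * J)) := by
    rw [hη]
    calc 1 / P ^ 2 * (M1 * t) = M1 * (t / P ^ 2) := by ring
      _ ≤ M1 * (1 / (t * J)) := mul_le_mul_of_nonneg_left htP (by linarith)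
  have htJi : 1 / (t * J) ≤ 1 / J :=
    one_div_le_one_div_of_le hJ0 (le_mul_of_one_le_left hJ0.le ht1)
  have hM1J : M1 * (1 / J) ≤ 1 / 4 := by
    rw [mul_one_div, div_le_div_iff₀ hJ0 (by norm_num)]
    linarith
  have hη2 : η ≤ 1 / 4 :=
    (hηb.trans (mul_le_mul_of_nonneg_left htJi (by linarith))).trans hM1J
  obtain ⟨b1, b2⟩ := a8 H hH
  obtain ⟨E, hEdef⟩ : ∃ E : ℝ, E = 1 / (J : ℝ) ^ (2 * K + 2) := ⟨_, rfl⟩
  rw [← hEdef] at b1 b2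
  have htJK : t ≤ (J : ℝ) ^ K := by
    refine htJ.trans ?_
    have : κ1 ^ K ≤ 1 := pow_le_one₀ hκ10.le hκ11
    exact mul_le_of_le_one_left (by positivity) this
  have htE : t * E ≤ 1 / (t * J) := by
    rw [hEdef, mul_one_div, div_le_div_iff₀ (by positivity) (by positivity), one_mul]
    have h1 : t * t ≤ (J : ℝ) ^ K * (J : ℝ) ^ K := mul_le_mul htJK htJK ht0.le (by positivity)
    calc t * (t * J) = (t * t) * J := by ring
      _ ≤ ((J : ℝ) ^ K * (J : ℝ) ^ K) * J := mul_le_mul_of_nonneg_right h1 hJ0.le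
      _ = ((J : ℝ) ^ K * (J : ℝ) ^ K) * J * 1 := by ring
      _ ≤ ((J : ℝ) ^ K * (J : ℝ) ^ K) * J * J :=
        mul_le_mul_of_nonneg_left (by linarith) (by positivity)
      _ = (J : ℝ) ^ (2 * K + 2) := by ring
  have hWE : 2 * (M1 * t) * E ≤ 2 * (M1 * (1 / (t * J))) := by
    calc 2 * (M1 * t) * E = 2 * (M1 * (t * E)) := by ring
      _ ≤ 2 * (M1 * (1 / (t * J))) := by
        have := mul_le_mul_of_nonneg_left htE (by linarith : 0 ≤ M1)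
        linarith
  have hWE2 : 2 * (M1 * t) * E ≤ 1 / 2 := by
    have := mul_le_mul_of_nonneg_left htJi (by linarith : 0 ≤ M1)
    linarith
  have hsPpos : 0 < Real.sqrt P := Real.sqrt_pos.2 hPpos
  have hsP1 : 1 ≤ Real.sqrt P := by
    refine Real.le_sqrt_of_sq_le ?_
    linarith
  obtain ⟨Lb0, hLb0⟩ : ∃ Lb0 : ℝ, Lb0 = 401 * (Cl / Real.sqrt P) := ⟨_, rfl⟩
  have hLbn : 0 ≤ Lb0 := by rw [hLb0]; positivity
  have hLb1 : Lb0 ≤ 401 * Cl := by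
    rw [hLb0]
    exact mul_le_mul_of_nonneg_left (div_le_self hCl0 hsP1) (by norm_num)
  have hmain := up_shape J a9 N hN (wK (xx P) Z P y N Q) (M1 * t) η Lb0 hsum hnorm2
    (by rw [hη]; exact htail2) (by linarith) hLbn
    (by
      intro r hr Kc k1 k2 k3
      obtain ⟨rp, hrp, hm1, hm2⟩ := wK_mean (xx P) Z P y N hN Q hQ r (by
        rw [hNdef]
        exact NN_dvd P hPpos.le (4 * J) (xx P) a5 r hr)
      rw [hm1, hLb0]
      have hlm := loc_main (xx P) (ee P) (YY P) P (by linarith)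
        (fun p hp h => by
          obtain ⟨c1, c2, c3, c4, c5⟩ := a1 p hp h
          exact ⟨by linarith, c2, c3, c4, c5⟩)
        a2
        (fun p hp h h' => by
          obtain ⟨c1, c2, c3, c4, c5⟩ := a4 p hp h h'
          exact ⟨c1, by linarith, c3, c4, c5⟩)
        a5 Kc 401 k1 k2 k3 r
      rw [← hm2] at hlm
      have h1 := hlZ P hZP hPK hYY r.den r.den_ne_zero rp hrp Kc 401 k3 hlm
      rw [← hcdef, ← hydef, ← hQdef] at h1
      exact h1)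
    H E b1 b2 hWE2 ((11228 * M1 + 1604 * Cl + 804) * t)
    (by nlinarith)
  refine hmain.trans ?_
  have hfin : 4 * Lb0 = 1604 * Cl / κ1 * (1 / (t * J)) := by
    rw [hLb0, hsP]
    field_simp
    ring
  have hgoal : (8 * M1 + 1604 * Cl / κ1 + 1604 * M1) / (t * J) =
      8 * (M1 * (1 / (t * J))) + 1604 * Cl / κ1 * (1 / (t * J)) + 1604 * (M1 * (1 / (t * J))) := by
    ring
  rw [hgoal]
  linarith

end Pool.Agent.H.MP_b3c6db_nt
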